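import Pool.Agent.Lib.MP_813db1_ag.HS.E.Basic

/-! Buser's proof of the first Bieberbach theorem. -/

namespace Pool.Agent.Lib.MP_813db1_ag.HS.E

open Set Filter Topology Metric

variable {Z : Type} [NormedAddCommGroup Z] [InnerProductSpace ℂ Z] [FiniteDimensional ℂ Z]

namespace BuserAux

theorem sph (N : Z →L[ℂ] Z) (F : Submodule ℂ Z) :
    ∃ μ ≥ 0, (∀ x ∈ F, ‖N x‖ ≤ μ * ‖x‖) ∧ (μ = 0 ∨ ∃ u ∈ F, ‖u‖ = 1 ∧ ‖N u‖ = μ) := by
  have := FiniteDimensional.proper ℂ Z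
  by_cases h : (sphere (0 : Z) 1 ∩ F).Nonempty
  · obtain ⟨u, hu, hm⟩ := ((isCompact_sphere 0 1).inter_right
      F.closed_of_finiteDimensional).exists_isMaxOn h N.continuous.norm.continuousOn
    refine ⟨_, norm_nonneg (N u), fun x hx => ?_, .inr ⟨u, hu.2, by simpa using hu.1, rfl⟩⟩
    rcases eq_or_ne x 0 with rfl | h0
    · simp
    have p := norm_pos_iff.2 h0
    have : ‖N (((‖x‖⁻¹ : ℝ) : ℂ) • x)‖ ≤ ‖N u‖ :=
      hm ⟨by simp [norm_smul, p.ne'], F.smul_mem _ hx⟩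
    rwa [map_smul, norm_smul, Complex.norm_real, norm_inv, norm_norm, inv_mul_le_iff₀' p] at this
  · refine ⟨0, le_rfl, fun x hx => ?_, .inl rfl⟩
    rcases eq_or_ne x 0 with rfl | h0
    · simp
    exact absurd ⟨((‖x‖⁻¹ : ℝ) : ℂ) • x, by simp [norm_smul, h0], F.smul_mem _ hx⟩ h

theorem gap (α : Mot Z) (h0 : 0 < ‖lin α - 1‖) : ∃ (P : Z →L[ℂ] Z) (u : Z) (μ : ℝ),
    ‖u‖ = 1 ∧ P u = u ∧ 0 ≤ μ ∧ μ < ‖lin α - 1‖ ∧ ∀ x, ‖P x‖ ≤ ‖x‖ ∧ ‖x - P x‖ ≤ ‖x‖ ∧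
      ‖P ((lin α - 1) x)‖ = ‖lin α - 1‖ * ‖P x‖ ∧
      ‖(lin α - 1) x - P ((lin α - 1) x)‖ ≤ μ * ‖x - P x‖ := by
  set N := lin α - 1 with hN
  have hx : ∀ x, N x = lin α x - x := fun x => rfl
  let E : Submodule ℂ Z :=
    { carrier := {x | ‖N x‖ = ‖N‖ * ‖x‖}
      zero_mem' := by simp
      smul_mem' := fun c x h => by
        simp only [mem_setOf_eq, map_smul, norm_smul] at h ⊢
        rw [h]; ring
      add_mem' := fun {x y} h h' => by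
        simp only [mem_setOf_eq] at h h' ⊢
        have a := parallelogram_law_with_norm ℂ x y
        have b := parallelogram_law_with_norm ℂ (N x) (N y)
        rw [← map_add, ← map_sub, h, h'] at b
        have c := mul_self_le_mul_self (norm_nonneg _) (N.le_opNorm (x - y))
        refine le_antisymm (N.le_opNorm _) (abs_le_of_sq_le_sq' ?_ (norm_nonneg _)).2
        have d := congrArg (‖N‖ ^ 2 * ·) a
        nlinarith }
  have hE : ∀ x, x ∈ E ↔ ‖N x‖ = ‖N‖ * ‖x‖ := fun x => Iff.rfl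
  have e1 : ∀ x ∈ E, N x ∈ E := fun x h => E.sub_mem (x := lin α x) (by
    rw [hE, hx, ← map_sub, norm_lin_apply, norm_lin_apply]; exact h) h
  have e2 : ∀ x ∈ Eᗮ, N x ∈ Eᗮ := fun x h => Eᗮ.sub_mem (x := lin α x)
      ((E.mem_orthogonal _).2 fun y hy => by
    rw [← lin_apply_inv α y, inner_lin]
    refine (E.mem_orthogonal _).1 h _ ?_
    rw [hE, ← norm_lin_apply α (N _), hx, map_sub, lin_apply_inv, norm_lin_apply]
    exact hy) h
  obtain ⟨ν, -, n1, n2⟩ := sph N ⊤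
  obtain ⟨μ, m0, m1, m2⟩ := sph N Eᗮ
  have n3 : ‖N‖ ≤ ν := N.opNorm_le_bound (by
    rcases n2 with h | ⟨u, -, -, h⟩
    · exact h.ge
    · exact h ▸ norm_nonneg _) fun x => n1 x trivial
  obtain ⟨u, -, u1, u2⟩ := n2.resolve_left (h0.trans_le n3).ne'
  refine ⟨E.starProjection, u, μ, u1, Submodule.starProjection_eq_self_iff.2
    (le_antisymm (N.le_opNorm u) (by rw [u1, u2, mul_one]; exact n3)), m0, ?_, fun x => ?_⟩
  · rcases m2 with h | ⟨v, hv, v1, v2⟩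
    · exact h ▸ h0
    refine lt_of_le_of_ne (by simpa [v1, v2] using N.le_opNorm v) fun h => ?_
    have : inner ℂ v v = 0 := (E.mem_orthogonal _).1 hv v (by rw [hE, v1, v2, h, mul_one])
    rw [inner_self_eq_zero.1 this, norm_zero] at v1
    exact zero_ne_one v1
  have p1 := E.starProjection_apply_mem x
  have p2 := E.sub_starProjection_mem_orthogonal x
  have p3 : E.starProjection (N x) = N (E.starProjection x) :=
    Submodule.eq_starProjection_of_mem_orthogonal (e1 _ p1) (by rw [← map_sub]; exact e2 _ p2)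
  refine ⟨E.norm_starProjection_apply_le x, ?_, by rw [p3]; exact p1, ?_⟩
  · rw [← Submodule.starProjection_orthogonal_val]
    exact Eᗮ.norm_starProjection_apply_le x
  · rw [p3, ← map_sub]
    exact m1 _ p2

omit [FiniteDimensional ℂ Z] in
theorem mini {S T : Set (Mot Z)} (h : ∀ R : ℝ, {γ ∈ S | ‖γ 0‖ ≤ R}.Finite) (hT : T ⊆ S)
    {β : Mot Z} (hβ : β ∈ T) : ∃ α ∈ T, ∀ γ ∈ T, ‖α 0‖ ≤ ‖γ 0‖ := by
  obtain ⟨α, a, b⟩ := exists_min_image {γ ∈ T | ‖γ 0‖ ≤ ‖β 0‖} (fun γ => ‖γ 0‖)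
    ((h _).subset fun γ c => ⟨hT c.1, c.2⟩) ⟨β, hβ, le_rfl⟩
  exact ⟨α, a.1, fun γ c => (le_total _ _).elim (fun d => b γ ⟨c, d⟩) a.2.trans⟩

omit [FiniteDimensional ℂ Z] in
theorem com (α β : Mot Z) :
    ‖lin (α * β * α⁻¹ * β⁻¹) - 1‖ ≤ 2 * ‖lin α - 1‖ * ‖lin β - 1‖ ∧
    ‖(α * β * α⁻¹ * β⁻¹) 0 - (lin α - 1) (β 0)‖ ≤
      ‖lin (α * β * α⁻¹ * β⁻¹) - 1‖ * ‖β 0‖ + ‖lin β - 1‖ * ‖α 0‖ := by
  constructor
  · refine ContinuousLinearMap.opNorm_le_bound _ (by positivity) fun x => ?_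
    set y := lin α⁻¹ (lin β⁻¹ x) with hy
    have e : (lin (α * β * α⁻¹ * β⁻¹) - 1) x =
        (lin α - 1) ((lin β - 1) y) - (lin β - 1) ((lin α - 1) y) := by
      simp only [lin_mul, hy, ContinuousLinearMap.sub_apply, ContinuousLinearMap.mul_apply,
        ContinuousLinearMap.one_apply, map_sub, lin_apply_inv]
      abel
    have n : ‖y‖ = ‖x‖ := by rw [hy, norm_lin_apply, norm_lin_apply]
    have a := (lin α - 1).le_opNorm_of_le ((lin β - 1).le_opNorm y)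
    have b := (lin β - 1).le_opNorm_of_le ((lin α - 1).le_opNorm y)
    rw [e, ← n]
    linarith [norm_sub_le ((lin α - 1) ((lin β - 1) y)) ((lin β - 1) ((lin α - 1) y))]
  · have e := mot_eq (α * β * α⁻¹ * β⁻¹) (β (α 0))
    rw [mot_mul, mot_mul, mot_mul, mot_inv_apply, mot_inv_apply, mot_eq α, mot_eq β (α 0),
      map_add] at e
    have f : lin (α * β * α⁻¹ * β⁻¹) (lin β (α 0)) =
        α 0 + lin α ((lin β - 1) (lin α⁻¹ (α 0))) := by
      simp only [lin_mul, ContinuousLinearMap.sub_apply, ContinuousLinearMap.mul_apply,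
        ContinuousLinearMap.one_apply, map_sub, lin_apply_inv, lin_inv_apply]
      abel
    have g : (α * β * α⁻¹ * β⁻¹) 0 - (lin α - 1) (β 0) =
        -((lin (α * β * α⁻¹ * β⁻¹) - 1) (β 0) + lin α ((lin β - 1) (lin α⁻¹ (α 0)))) := by
      rw [f] at e
      simp only [ContinuousLinearMap.sub_apply (lin _) 1 (β 0), ContinuousLinearMap.one_apply]
      linear_combination (norm := abel1) -e
    rw [g, norm_neg]
    refine norm_add_le_of_le (ContinuousLinearMap.le_opNorm _ _) ?_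
    rw [norm_lin_apply, ← norm_lin_apply α⁻¹ (α 0)]
    exact ContinuousLinearMap.le_opNorm _ _

end BuserAux

open BuserAux in
theorem buser : BuserStmt Z := by
  intro S hc hf hr γ hγ h2
  by_contra h1
  obtain ⟨α, ⟨aS, a0, a1⟩, am⟩ := mini (T := {γ ∈ S | 0 < ‖lin γ - 1‖ ∧ ‖lin γ - 1‖ ≤ 1 / 2}) hf
    (fun _ h => h.1) ⟨hγ, norm_pos_iff.2 (sub_ne_zero.2 h1), h2⟩
  obtain ⟨P, u, μ, u1, u2, m0, m1, hP⟩ := gap α a0
  obtain ⟨β0, s0, s1, s2, s3⟩ := hr u u1 ((‖lin α - 1‖ - μ) / 8) (by linarith)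
  obtain ⟨β, ⟨bS, b1, b2, b3⟩, bm⟩ := mini (β := β0) (T := {γ ∈ S |
    ‖lin γ - 1‖ ≤ (‖lin α - 1‖ - μ) / 8 ∧ γ 0 ≠ 0 ∧ ‖γ 0 - P (γ 0)‖ ≤ ‖P (γ 0)‖}) hf
    (fun _ h => h.1) ⟨s0, s1, s2, by
      set c : ℂ := ((‖β0 0‖⁻¹ : ℝ) : ℂ) with hc
      have c0 : 0 < ‖c‖ := by simpa [hc] using s2
      have a := (hP (c • β0 0 - u)).1
      have b := (hP (c • β0 0 - u)).2.1
      rw [map_sub, u2] at a b
      rw [sub_sub_sub_cancel_right, map_smul, ← smul_sub, norm_smul] at b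
      have d := norm_sub_norm_le u (P (c • β0 0))
      rw [norm_sub_rev, map_smul, norm_smul] at d
      rw [map_smul] at a
      exact le_of_mul_le_mul_left (by linarith) c0⟩
  obtain ⟨c1, c2⟩ := com α β
  set δ := α * β * α⁻¹ * β⁻¹
  have p := norm_pos_iff.2 b2
  have d1 : ‖lin δ - 1‖ ≤ (‖lin α - 1‖ - μ) / 8 := by nlinarith [norm_nonneg (lin β - 1)]
  have d2 : ‖lin β - 1‖ * ‖α 0‖ ≤ (‖lin α - 1‖ - μ) / 8 * ‖β 0‖ := by
    rcases (norm_nonneg (lin β - 1)).eq_or_lt with h | h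
    · rw [← h, zero_mul]
      exact mul_nonneg (by linarith) p.le
    · exact mul_le_mul b1 (am β ⟨bS, h, by linarith⟩) (norm_nonneg _) (by linarith)
  set r := δ 0 - (lin α - 1) (β 0) with hr
  have d3 : ‖r‖ ≤ (‖lin α - 1‖ - μ) / 4 * ‖β 0‖ := by
    linarith [mul_le_mul_of_nonneg_right d1 p.le]
  have d4 : ‖β 0‖ ≤ 2 * ‖P (β 0)‖ := by linarith [norm_sub_norm_le (β 0) (P (β 0))]
  have d5 : ‖r‖ ≤ (‖lin α - 1‖ - μ) / 2 * ‖P (β 0)‖ := by nlinarith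
  obtain ⟨-, -, q3, q4⟩ := hP (β 0)
  obtain ⟨r1, r2, -, -⟩ := hP r
  have e : δ 0 = (lin α - 1) (β 0) + r := by rw [hr, add_sub_cancel]
  have f1 : ‖lin α - 1‖ * ‖P (β 0)‖ - ‖r‖ ≤ ‖P (δ 0)‖ := by
    have := norm_sub_le (P (δ 0)) (P r)
    rw [← map_sub, hr, sub_sub_cancel, q3] at this
    linarith
  have f2 : ‖δ 0 - P (δ 0)‖ ≤ μ * ‖P (β 0)‖ + ‖r‖ := by
    rw [e, map_add, add_sub_add_comm]
    exact norm_add_le_of_le (q4.trans (mul_le_mul_of_nonneg_left b3 m0)) r2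
  have f3 : ‖δ 0‖ ≤ ‖lin α - 1‖ * ‖β 0‖ + ‖r‖ := by
    rw [e]
    exact norm_add_le_of_le (ContinuousLinearMap.le_opNorm _ _) le_rfl
  have := bm δ ⟨hc α aS β bS, d1, fun h => by
    rw [h, P.map_zero, norm_zero] at f1
    nlinarith, by linarith⟩
  nlinarith

end Pool.Agent.Lib.MP_813db1_ag.HS.E
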