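import Pool.Agent.Lib.MP_813db1_ag.HS.E.Basic

/-!
Small holonomy on a small ball gives small holonomy on a large ball.
-/

namespace Pool.Agent.Lib.MP_813db1_ag.HS.E

open Set Filter Topology Metric

variable {X Z Y : Type} [TopologicalSpace X]
  [NormedAddCommGroup Z] [InnerProductSpace ℂ Z]
  [NormedAddCommGroup Y] [NormedSpace ℂ Y] [NormedSpace ℝ Y]

theorem ext (hJ : JetStmt Y) (hG : GronStmt Y) (hU : UnifStmt X Z Y) : ExtStmt X Z Y := by
  intro P Ψ hD k y₀ ρ R hρ hsub hR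
  obtain ⟨d, hd, hRd⟩ : ∃ d, 0 < d ∧ R + d < P.yr k := ⟨(P.yr k - R) / 2, by linarith, by linarith⟩
  obtain ⟨K, hK, hJ, -⟩ := hJ (P.g k) (P.yc k) (R + d) (P.yr k) hRd (P.met k)
  obtain ⟨C0, hC0, hG⟩ := hG K (2 * R) hK
  obtain ⟨ρU, hρU, CU, hCU, hU⟩ := hU P Ψ hD k k R (R + d) hR hRd
  have hy₀ : y₀ ∈ closedBall (P.yc k) R := hsub (mem_ball_self hρ)
  have hC : 1 ≤ C0 * (1 + 4 / ρ) :=
    one_le_mul_of_one_le_of_one_le hC0 (le_add_of_nonneg_right (by positivity))
  set C := C0 * (1 + 4 / ρ) with hCd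
  refine ⟨d / 2 / C, by positivity, C, hC, fun γ δ hδ hη hS => ?_⟩
  have hCδ : C * δ ≤ d / 2 := by rwa [le_div_iff₀ (by positivity), mul_comm] at hη
  set φ := rm P Ψ k k γ
  let G : Set Y := {w | Rel P Ψ k k γ w (φ w) ∧ ‖φ w - w‖ ≤ d}
  have tri : ∀ w ∈ closedBall (P.yc k) R, ‖φ w - w‖ ≤ d → φ w ∈ closedBall (P.yc k) (R + d) :=
    fun w hw h => by
      rw [mem_closedBall_iff_norm] at hw ⊢
      linarith [norm_sub_le_norm_sub_add_norm_sub (φ w) w (P.yc k)]
  have d0 : ‖fderiv ℂ (fun w => φ w - w) y₀‖ ≤ 2 * δ / ρ := by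
    refine Complex.norm_fderiv_le_div_of_mapsTo_ball (c := y₀)
      ((hS.diff hD).sub differentiableOn_id) (fun x hx => ?_) hρ
    rw [mem_closedBall_iff_norm]
    have h1 := (hS.rm hD hx).2
    have h2 := (hS.rm hD (mem_ball_self hρ)).2
    exact (norm_sub_le _ _).trans (by linarith)
  have key : ∀ w ∈ closedBall (P.yc k) R, segment ℝ y₀ w ⊆ G → ‖φ w - w‖ ≤ C * δ := by
    intro w hw hs
    have h1 := hG (fun w => φ w - w) y₀ w (by
      rw [mem_closedBall_iff_norm] at hw hy₀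
      have := norm_sub_le_norm_sub_add_norm_sub w (P.yc k) y₀
      rw [norm_sub_rev (P.yc k)] at this
      linarith) fun y hy => by
      have hl := (hs hy).1.liso hD
      have hyR := (convex_closedBall (P.yc k) R).segment_subset hy₀ hw hy
      have e : fderiv ℂ (fun w => φ w - w) =ᶠ[𝓝 y] fun w => fderiv ℂ φ w - 1 := by
        filter_upwards [hl] with x hx
        exact (hx.1.hasFDerivAt.sub (hasFDerivAt_id x)).fderiv
      refine ⟨hl.mono fun x hx => hx.1.sub differentiableAt_id, ?_⟩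
      rw [e.fderiv_eq, e.self_of_nhds, fderiv_sub_const]
      exact hJ φ y (closedBall_subset_closedBall (by linarith) hyR) (tri y hyR (hs hy).2) hl
    have h2 := (hS.rm hD (mem_ball_self hρ)).2
    have h3 := norm_nonneg (fderiv ℂ (fun w => φ w - w) w)
    have h4 : ‖φ y₀ - y₀‖ + ‖fderiv ℂ (fun w => φ w - w) y₀‖ ≤ (1 + 4 / ρ) * δ := by
      have : 2 * δ / ρ ≤ 4 / ρ * δ := by
        rw [div_mul_eq_mul_div]
        exact div_le_div_of_nonneg_right (by linarith) hρ.le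
      linarith
    have h5 := mul_le_mul_of_nonneg_left h4 (zero_le_one.trans hC0)
    rw [hCd, mul_assoc]
    linarith
  obtain ⟨σ, hσ, hσ1, hσ2⟩ : ∃ σ, 0 < σ ∧ σ ≤ ρU ∧ (CU + 1) * σ ≤ d / 2 :=
    ⟨min ρU (d / 2 / (CU + 1)), by positivity, min_le_left _ _, by
      rw [mul_comm, ← le_div_iff₀ (by positivity)]; exact min_le_right _ _⟩
  have step : ∀ w ∈ closedBall (P.yc k) R, Rel P Ψ k k γ w (φ w) → ‖φ w - w‖ ≤ d / 2 →
      ball w σ ⊆ G := fun w hw hr hn x hx => by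
    obtain ⟨h1, h2⟩ := hU γ w hw (φ w) (tri w hw (by linarith)) hr
    have hx' := ball_subset_ball hσ1 hx
    refine ⟨h1 x hx', ?_⟩
    have h3 := h2 x hx' w (mem_ball_self hρU)
    have h4 : ‖x - w‖ ≤ σ := (mem_ball_iff_norm.1 hx).le
    have h5 : φ x - x = (φ x - φ w) + (φ w - w) - (x - w) := by abel
    have h6 := norm_sub_le ((φ x - φ w) + (φ w - w)) (x - w)
    have h7 := norm_add_le (φ x - φ w) (φ w - w)
    rw [h5]
    nlinarith
  have seg : ∀ r, (∀ w ∈ closedBall (P.yc k) R, ‖w - y₀‖ ≤ r → w ∈ G) →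
      ∀ w ∈ closedBall (P.yc k) R, ‖w - y₀‖ ≤ r → segment ℝ y₀ w ⊆ G := fun r h w hw hr x hx =>
    h x ((convex_closedBall (P.yc k) R).segment_subset hy₀ hw hx)
      (mem_closedBall_iff_norm.1 ((convex_closedBall y₀ r).segment_subset
        (mem_closedBall_self ((norm_nonneg _).trans hr)) (mem_closedBall_iff_norm.2 hr) hx))
  have ind : ∀ n : ℕ, ∀ w ∈ closedBall (P.yc k) R, ‖w - y₀‖ ≤ n * (σ / 2) → w ∈ G := by
    intro n
    induction n with
    | zero =>
      intro w _ h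
      rw [Nat.cast_zero, zero_mul, norm_le_zero_iff, sub_eq_zero] at h
      have := hS.rm hD (mem_ball_self hρ)
      rw [h]
      exact ⟨this.1, this.2.trans (by nlinarith)⟩
    | succ n ih =>
      intro w hw h
      push_cast at h
      have n0 : (0 : ℝ) < n + 1 := by positivity
      have t0 : (0 : ℝ) ≤ n / (n + 1) := by positivity
      have t1 : (n : ℝ) / (n + 1) ≤ 1 := by rw [div_le_one n0]; linarith
      set x := y₀ + ((n : ℝ) / (n + 1)) • (w - y₀) with hx
      have h1 : x ∈ closedBall (P.yc k) R :=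
        (convex_closedBall (P.yc k) R).add_smul_sub_mem hy₀ hw ⟨t0, t1⟩
      have h2 : ‖x - y₀‖ ≤ n * (σ / 2) := by
        rw [hx, add_sub_cancel_left, norm_smul, Real.norm_of_nonneg t0, div_mul_eq_mul_div,
          div_le_iff₀ n0]
        have := mul_le_mul_of_nonneg_left h (Nat.cast_nonneg (α := ℝ) n)
        linarith
      refine step x h1 (ih x h1 h2).1 ((key x h1 (seg _ ih x h1 h2)).trans hCδ) ?_
      have e : w - x = (1 / (n + 1) : ℝ) • (w - y₀) := by
        rw [hx, show (1 / (n + 1) : ℝ) = 1 - n / (n + 1) by field_simp; ring, sub_smul, one_smul]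
        abel
      rw [mem_ball_iff_norm, e, norm_smul, Real.norm_of_nonneg (by positivity), div_mul_eq_mul_div,
        div_lt_iff₀ n0]
      nlinarith
  intro w hw
  have hw' := ball_subset_closedBall hw
  obtain ⟨n, hn⟩ := exists_nat_ge (‖w - y₀‖ / (σ / 2))
  rw [div_le_iff₀ (by positivity)] at hn
  exact ⟨φ w, (ind n w hw' hn).1, key w hw' (seg _ (ind n) w hw' hn)⟩

end Pool.Agent.Lib.MP_813db1_ag.HS.E
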