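import Pool.Agent.Lib.MP_813db1_ag.HS.E.Basic

/-! Discreteness of the set of holonomy motions. -/

namespace Pool.Agent.Lib.MP_813db1_ag.HS.E

open Set Filter Topology Metric

variable {X Z Y : Type} [TopologicalSpace X]
  [NormedAddCommGroup Z] [InnerProductSpace ℂ Z] [FiniteDimensional ℂ Z]
  [NormedAddCommGroup Y] [NormedSpace ℂ Y] [NormedSpace ℝ Y] [FiniteDimensional ℂ Y]

lemma FinAux.lim {E : Type} [PseudoMetricSpace E] [ProperSpace E] (𝓤 : Ultrafilter ℕ) {a : ℕ → E}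
    {c : E} {R : ℝ} (h : ∀ n, a n ∈ closedBall c R) : ∃ b, Tendsto a 𝓤 (𝓝 b) := by
  obtain ⟨b, -, hb⟩ := (isCompact_closedBall c R).ultrafilter_le_nhds (𝓤.map a)
    (le_principal_iff.2 (mem_map.2 (univ_mem' h)))
  exact ⟨b, hb⟩

theorem fin (hU : UnifStmt X Z Y) : FinStmt X Z Y := by
  intro P Ψ hD k R T hR
  have : ProperSpace Y := FiniteDimensional.proper ℂ Y
  have : ProperSpace Z := FiniteDimensional.proper ℂ Z
  by_contra hinf
  let e := Set.Infinite.natEmbedding _ hinf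
  have he := fun n => (e n).2.2
  choose y hy y' hy' hr using he
  obtain ⟨y₀, hy₀⟩ := FinAux.lim (hyperfilter ℕ) hy
  obtain ⟨ρ, hρ, C, -, hC⟩ := hU P Ψ hD k k R R hR hR
  obtain ⟨z, hz⟩ := (P.A_conn k).nonempty
  obtain ⟨ε, hε, hb⟩ := Metric.isOpen_iff.1 (P.A_open k) z hz
  obtain ⟨p, hp⟩ := FinAux.lim (hyperfilter ℕ) (a := fun n => (e n).1⁻¹ z) (c := 0)
    (R := ‖z‖ + T) fun n => by
      have h1 := norm_mot_sub (e n).1⁻¹ z ((e n).1 0)
      rw [mot_inv_apply, sub_zero] at h1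
      rw [mem_closedBall_zero_iff, h1]
      exact (norm_sub_le _ _).trans (add_le_add le_rfl (e n).2.1)
  have hG : ∀ᶠ n in (hyperfilter ℕ : Filter ℕ),
      Rel P Ψ k k (e n).1 y₀ (rm P Ψ k k (e n).1 y₀) ∧ (e n).1 p ∈ P.A k := by
    filter_upwards [hy₀.eventually (ball_mem_nhds y₀ hρ), hp.eventually (ball_mem_nhds p hε)]
      with n h1 h2
    refine ⟨(hC _ _ (hy n) _ (hy' n) (hr n)).1 _ (mem_ball_comm.1 h1), hb ?_⟩
    have h3 := norm_mot_sub (e n).1 ((e n).1⁻¹ z) p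
    rw [mot_apply_inv] at h3
    rw [mem_ball', dist_eq_norm, h3, ← dist_eq_norm]
    exact h2
  obtain ⟨n, hn, m, hm, hne⟩ :=
    Set.Infinite.nontrivial fun hf => notMem_hyperfilter_of_finite hf hG
  refine hne (e.injective (Subtype.ext (mot_ext_nhds (z := p) ?_)))
  filter_upwards [(e n).1.continuous.continuousAt.eventually_mem ((P.A_open k).mem_nhds hn.2),
    (e m).1.continuous.continuousAt.eventually_mem ((P.A_open k).mem_nhds hm.2)] with ζ a b
  exact (hD.inj a b hn.1.2.1 hm.1.2.1 ((hn.1.2.2 ζ).trans (hm.1.2.2 ζ).symm)).1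

end Pool.Agent.Lib.MP_813db1_ag.HS.E
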