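import Pool.Agent.Lib.MP_813db1_ag.HS.E.Basic
import Pool.Agent.Lib.MP_caab05_ag.GB.Osg

/-! The Gronwall inequality for the first jet along a segment. -/

namespace Pool.Agent.Lib.MP_813db1_ag.HS.E

open Set Filter Topology Metric

variable {Y : Type} [NormedAddCommGroup Y] [NormedSpace ℂ Y] [NormedSpace ℝ Y]
  [IsScalarTower ℝ ℂ Y] [FiniteDimensional ℂ Y]

theorem gron : GronStmt Y := by
  intro K L hK
  have := FiniteDimensional.complete ℂ Y
  refine ⟨2 * Real.exp ((2 * K + 1) * |L|), ?_, fun f y₀ y₁ hL hf => ?_⟩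
  · linarith [Real.one_le_exp (show 0 ≤ (2 * K + 1) * |L| by positivity)]
  have hv : ‖y₁ - y₀‖ ≤ |L| := hL.trans (le_abs_self L)
  set v := y₁ - y₀ with hvd
  have mem : ∀ t ∈ Icc (0 : ℝ) 1, y₀ + t • v ∈ segment ℝ y₀ y₁ := fun t ht => by
    rw [segment_eq_image']
    exact ⟨t, ht, rfl⟩
  have der : ∀ t ∈ Icc (0 : ℝ) 1,
      HasDerivAt (fun s : ℝ => (f (y₀ + s • v), fderiv ℂ f (y₀ + s • v)))
        (fderiv ℂ f (y₀ + t • v) v, fderiv ℂ (fderiv ℂ f) (y₀ + t • v) v) t := fun t ht => by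
    obtain ⟨U, hU, ho, hm⟩ := _root_.eventually_nhds_iff.1 (hf _ (mem t ht)).1
    have d2 := (Pool.Agent.Lib.MP_caab05_ag.GB.OsgAux.diff_fderiv ho
      fun w hw => (hU w hw).differentiableWithinAt).differentiableAt (ho.mem_nhds hm)
    have p : HasDerivAt (fun s : ℝ => y₀ + s • v) v t := by
      simpa using ((hasDerivAt_id t).smul_const v).const_add y₀
    exact (((hU _ hm).hasFDerivAt.restrictScalars ℝ).comp_hasDerivAt t p).prodMk
      ((d2.hasFDerivAt.restrictScalars ℝ).comp_hasDerivAt t p)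
  have key := norm_le_gronwallBound_of_norm_deriv_right_le (K := (2 * K + 1) * |L|) (ε := 0)
    (fun t ht => (der t ht).continuousAt.continuousWithinAt)
    (fun t ht => (der t (Ico_subset_Icc_self ht)).hasDerivWithinAt) le_rfl
    (fun t ht => by
      have h2 := (hf _ (mem t (Ico_subset_Icc_self ht))).2
      set y := y₀ + t • v
      have n1 : ‖f y‖ ≤ ‖(f y, fderiv ℂ f y)‖ := norm_fst_le (f y, fderiv ℂ f y)
      have n2 : ‖fderiv ℂ f y‖ ≤ ‖(f y, fderiv ℂ f y)‖ := norm_snd_le (f y, fderiv ℂ f y)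
      set N := ‖(f y, fderiv ℂ f y)‖
      have N0 : 0 ≤ N := norm_nonneg _
      have KN : 0 ≤ K * N := mul_nonneg hK N0
      rw [add_zero, mul_right_comm, norm_prod_le_iff]
      constructor
      · exact (ContinuousLinearMap.le_opNorm _ _).trans
          (mul_le_mul (by linarith) hv (norm_nonneg _) (by positivity))
      · exact (ContinuousLinearMap.le_opNorm _ _).trans
          (mul_le_mul (by nlinarith) hv (norm_nonneg _) (by positivity)))
    1 ⟨zero_le_one, le_rfl⟩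
  simp only [gronwallBound_ε0, one_smul, zero_smul, add_zero, sub_zero, mul_one, hvd,
    add_sub_cancel] at key
  have a1 : ‖f y₁‖ ≤ _ := (norm_fst_le (f y₁, fderiv ℂ f y₁)).trans key
  have a2 : ‖fderiv ℂ f y₁‖ ≤ _ := (norm_snd_le (f y₁, fderiv ℂ f y₁)).trans key
  have a3 : ‖(f y₀, fderiv ℂ f y₀)‖ ≤ ‖f y₀‖ + ‖fderiv ℂ f y₀‖ :=
    norm_prod_le_iff.2 ⟨le_add_of_nonneg_right (norm_nonneg _),
      le_add_of_nonneg_left (norm_nonneg _)⟩
  have := mul_le_mul_of_nonneg_right a3 (Real.exp_pos ((2 * K + 1) * |L|)).le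
  linarith

end Pool.Agent.Lib.MP_813db1_ag.HS.E
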