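import Pool.Agent.Lib.MP_813db1_ag.HS.E.Basic
import Pool.Agent.Lib.MP_caab05_ag.GB.Osg

/-! Second derivatives of holomorphic isometries and of holomorphic Killing fields are bounded by
their first jets. -/

namespace Pool.Agent.Lib.MP_813db1_ag.HS.E

open Set Filter Topology Metric

namespace JetAux

section real

variable {Y F : Type} [NormedAddCommGroup Y] [NormedSpace ℝ Y] [NormedAddCommGroup F]
  [NormedSpace ℝ F]

lemma line0 (y a : Y) : HasDerivAt (fun t : ℝ => y + t • a) a 0 := by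
  simpa using ((hasDerivAt_id (0 : ℝ)).smul_const a).const_add y

lemma line_ev {y : Y} (a : Y) {p : Y → Prop} (h : ∀ᶠ w in 𝓝 y, p w) :
    ∀ᶠ t : ℝ in 𝓝 0, p (y + t • a) := by
  have h1 : Tendsto (fun t : ℝ => y + t • a) (𝓝 0) (𝓝 y) := by
    have := (line0 y a).continuousAt.tendsto
    simpa using this
  exact h1.eventually h

lemma line {f : Y → F} {f' : Y →L[ℝ] F} {y : Y} (hf : HasFDerivAt f f' y) (a : Y) :
    HasDerivAt (fun t : ℝ => f (y + t • a)) (f' a) 0 :=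
  hf.comp_hasDerivAt_of_eq (0 : ℝ) (line0 y a) (by simp)

/-- bounds for the first two derivatives of a twice continuously differentiable map -/
lemma two [ProperSpace Y] {g : Y → F} {c : Y} {R R' : ℝ} (hR : R < R')
    (hg : ContDiffOn ℝ 2 g (ball c R')) : ∃ M ≥ 0, ∀ y ∈ closedBall c R,
      DifferentiableAt ℝ g y ∧ (∀ a, ‖fderiv ℝ g y a‖ ≤ M * ‖a‖) ∧
      (∀ y' ∈ closedBall c R, ∀ a, ‖fderiv ℝ g y a - fderiv ℝ g y' a‖ ≤ M * ‖y - y'‖ * ‖a‖) ∧
      ∀ (a : Y) (p : ℝ → Y) (p' : Y), HasDerivAt p p' 0 → ∃ D : F,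
        ‖D‖ ≤ M * (‖a‖ * ‖p 0‖ + ‖p'‖) ∧
        HasDerivAt (fun t : ℝ => fderiv ℝ g (y + t • a) (p t)) D 0 := by
  have hs : closedBall c R ⊆ ball c R' := closedBall_subset_ball hR
  have h1 : ContDiffOn ℝ 1 (fderiv ℝ g) (ball c R') :=
    hg.fderiv_of_isOpen isOpen_ball (by norm_num)
  have h2 : ContinuousOn (fderiv ℝ (fderiv ℝ g)) (ball c R') :=
    h1.continuousOn_fderiv_of_isOpen isOpen_ball le_rfl
  obtain ⟨M₁, hM₁⟩ := (isCompact_closedBall c R).exists_bound_of_continuousOn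
    (h1.continuousOn.mono hs)
  obtain ⟨M₂, hM₂⟩ := (isCompact_closedBall c R).exists_bound_of_continuousOn
    (f := fderiv ℝ (fderiv ℝ g)) (h2.mono hs)
  have hd : ∀ y ∈ closedBall c R, DifferentiableAt ℝ (fderiv ℝ g) y := fun y hy =>
    (h1.differentiableOn one_ne_zero).differentiableAt (isOpen_ball.mem_nhds (hs hy))
  set M := max (max M₁ M₂) 0 with hM
  have e1 : M₁ ≤ M := (le_max_left _ _).trans (le_max_left _ _)
  have e2 : M₂ ≤ M := (le_max_right _ _).trans (le_max_left _ _)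
  have hb : ∀ y ∈ closedBall c R, ∀ a, ‖fderiv ℝ g y a‖ ≤ M * ‖a‖ := fun y hy a =>
    (fderiv ℝ g y).le_of_opNorm_le ((hM₁ y hy).trans e1) a
  refine ⟨M, le_max_right _ _, fun y hy => ⟨?_, hb y hy, fun y' hy' a => ?_, fun a p p' hp => ?_⟩⟩
  · exact (hg.differentiableOn two_ne_zero).differentiableAt (isOpen_ball.mem_nhds (hs hy))
  · have := (convex_closedBall c R).norm_image_sub_le_of_norm_fderiv_le hd
      (fun x hx => (hM₂ x hx).trans e2) hy' hy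
    exact (fderiv ℝ g y - fderiv ℝ g y').le_of_opNorm_le this a
  · refine ⟨_, ?_, (line (hd y hy).hasFDerivAt a).clm_apply hp⟩
    simp only [zero_smul, add_zero]
    have h3 : ‖fderiv ℝ (fderiv ℝ g) y a (p 0)‖ ≤ M * ‖a‖ * ‖p 0‖ :=
      (fderiv ℝ (fderiv ℝ g) y a).le_of_opNorm_le
        ((fderiv ℝ (fderiv ℝ g) y).le_of_opNorm_le ((hM₂ y hy).trans e2) a) _
    have h4 := norm_add_le (fderiv ℝ (fderiv ℝ g) y a (p 0)) (fderiv ℝ g y p')
    have h5 := hb y hy p'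
    linarith

lemma bil (G : Bil Y) {m : ℝ} (h : ‖G‖ ≤ m) {u v : Y} {s t : ℝ} (hu : ‖u‖ ≤ s) (hv : ‖v‖ ≤ t) :
    |G u v| ≤ m * s * t := by
  rw [← Real.norm_eq_abs]
  have hm : 0 ≤ m := (norm_nonneg G).trans h
  have hs : 0 ≤ s := (norm_nonneg _).trans hu
  refine (G.le_opNorm₂ u v).trans ?_
  gcongr

end real

variable {Y : Type} [NormedAddCommGroup Y] [NormedSpace ℂ Y] [NormedSpace ℝ Y]

/-- the braid argument -/
lemma braid (G : Bil Y) (B : Y →L[ℂ] Y →L[ℂ] Y) (L : Y → Y) {α C ε : ℝ} (hα : 0 < α)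
    (hC : 0 ≤ C) (hε : 0 ≤ ε) (hG : ∀ u v, G u v = G v u) (hp : ∀ u, α * ‖u‖ ^ 2 ≤ G u u)
    (hB : ∀ a u, B a u = B u a) (hL : ∀ w, ∃ v, L v = w ∧ ‖v‖ ≤ C * ‖w‖)
    (hE : ∀ a u v, |G (B a u) (L v) + G (L u) (B a v)| ≤ ε * ‖a‖ * ‖u‖ * ‖v‖) :
    ‖B‖ ≤ 2 * C / α * ε := by
  refine B.opNorm_le_bound₂ (by positivity) fun a u => ?_
  obtain ⟨v, hv, hn⟩ := hL (B a u)
  have h1 := (abs_le.1 (hE a u v)).2
  have h2 := (abs_le.1 (hE u a v)).2
  have h3 := (abs_le.1 (hE v a u)).1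
  rw [hB u a, hB u v, hG (L a)] at h2
  rw [hB v a, hG (L a)] at h3
  rw [hG (L u)] at h1
  have h0 : 0 ≤ ε * ‖a‖ * ‖u‖ := by positivity
  have h4 : G (B a u) (L v) ≤ 2 * (ε * ‖a‖ * ‖u‖) * ‖v‖ := by
    nlinarith [mul_nonneg h0 (norm_nonneg v)]
  rw [hv] at h4
  have h5 : α * ‖B a u‖ ^ 2 ≤ 2 * (ε * ‖a‖ * ‖u‖) * (C * ‖B a u‖) :=
    (hp _).trans (h4.trans (mul_le_mul_of_nonneg_left hn (by positivity)))
  rcases (norm_nonneg (B a u)).eq_or_lt with h | h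
  · rw [← h]; positivity
  · have h6 : α * ‖B a u‖ ≤ 2 * (ε * ‖a‖ * ‖u‖) * C := by
      refine le_of_mul_le_mul_right ?_ h
      nlinarith
    have h7 : 2 * C / α * ε * ‖a‖ * ‖u‖ = 2 * (ε * ‖a‖ * ‖u‖) * C / α := by ring
    rw [h7, le_div_iff₀ hα]
    linarith

variable [IsScalarTower ℝ ℂ Y] [FiniteDimensional ℂ Y]

/-- the second order jet of a holomorphic map -/
lemma hol {φ : Y → Y} {y : Y} (h : ∀ᶠ w in 𝓝 y, DifferentiableAt ℂ φ w) :
    (∀ a u, fderiv ℂ (fderiv ℂ φ) y a u = fderiv ℂ (fderiv ℂ φ) y u a) ∧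
    (∀ a, HasDerivAt (fun t : ℝ => φ (y + t • a)) (fderiv ℂ φ y a) 0) ∧
    ∀ a u, HasDerivAt (fun t : ℝ => fderiv ℂ φ (y + t • a) u)
      (fderiv ℂ (fderiv ℂ φ) y a u) 0 := by
  have : CompleteSpace Y := FiniteDimensional.complete ℂ Y
  obtain ⟨U, hU, hUo, hy⟩ := _root_.eventually_nhds_iff.1 h
  have hd : DifferentiableOn ℂ φ U := fun w hw => (hU w hw).differentiableWithinAt
  have h3 : DifferentiableAt ℂ (fderiv ℂ φ) y :=
    (MP_caab05_ag.GB.OsgAux.diff_fderiv hUo hd).differentiableAt (hUo.mem_nhds hy)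
  have h4 : AnalyticAt ℂ φ y := MP_caab05_ag.GB.osg _ _ φ U hUo hd y hy
  refine ⟨fun a u => ?_, fun a => ?_, fun a u => ?_⟩
  · exact (h4.contDiffAt (n := ⊤)).isSymmSndFDerivAt (by simp) a u
  · exact line (h.self_of_nhds.hasFDerivAt.restrictScalars ℝ) a
  · have h5 := (h3.hasFDerivAt.clm_apply (hasFDerivAt_const u y)).restrictScalars ℝ
    simpa using line h5 a

end JetAux

open JetAux

variable {Y : Type} [NormedAddCommGroup Y] [NormedSpace ℂ Y] [NormedSpace ℝ Y]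
  [IsScalarTower ℝ ℂ Y] [FiniteDimensional ℂ Y]

theorem jet : JetStmt Y := by
  intro g c R R' hR hg
  have : ProperSpace Y := FiniteDimensional.proper ℂ Y
  obtain ⟨α, hα, β, -, hb⟩ := hg.bounds hR
  obtain ⟨C, hC, hi⟩ := hg.iso_bound hg hR hR
  obtain ⟨M, hM, h2⟩ := two hR hg.smooth
  have hs : closedBall c R ⊆ ball c R' := closedBall_subset_ball hR
  have hC0 : 0 ≤ C := by linarith
  refine ⟨2 * C / α * (3 * M * C ^ 2), by positivity, fun φ y hy hy' hφ => ?_,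
    fun ξ y hy hξ => ?_⟩
  · obtain ⟨j1, j2, j3⟩ := hol (hφ.mono fun w hw => hw.1)
    obtain ⟨i1, i2⟩ := hi φ y hy hy' hφ
    set L := fderiv ℂ φ y with hL
    have hsur : Function.Surjective L :=
      (LinearMap.injective_iff_surjective (f := (L : Y →ₗ[ℂ] Y))).1
        ((injective_iff_map_eq_zero L).2 fun u hu => by
          have := i2 u
          rw [hu, norm_zero, mul_zero] at this
          exact norm_le_zero_iff.1 this)
    rw [mul_assoc]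
    refine braid (g (φ y)) _ L hα hC0 (by positivity) (hg.symm _ (hs hy')) (fun u => (hb _ hy' u).1)
      j1 (fun w => ?_) fun a u v => ?_
    · obtain ⟨v, hv⟩ := hsur w
      exact ⟨v, hv, hv ▸ i2 v⟩
    obtain ⟨a1, -, a3, -⟩ := h2 y hy
    obtain ⟨b1, b2, -, -⟩ := h2 _ hy'
    have k1 : HasDerivAt (fun t : ℝ => g (φ (y + t • a))) (fderiv ℝ g (φ y) (L a)) 0 :=
      b1.hasFDerivAt.comp_hasDerivAt_of_eq (0 : ℝ) (j2 a) (by simp)
    have k2 := (k1.clm_apply (j3 a u)).clm_apply (j3 a v)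
    have k3 := ((line a1.hasFDerivAt a).clm_apply (hasDerivAt_const (0 : ℝ) u)).clm_apply
      (hasDerivAt_const (0 : ℝ) v)
    have k4 := k2.unique (k3.congr_of_eventuallyEq ((line_ev a hφ).mono fun t ht => ht.2 u v))
    simp only [zero_smul, add_zero, map_zero, add_apply, ← hL] at k4
    set D := fderiv ℝ g (φ y) with hD
    set δ := ‖L - 1‖ with hδ
    set η := ‖φ y - y‖ with hη
    have hδ0 : 0 ≤ δ := norm_nonneg _
    have hη0 : 0 ≤ η := norm_nonneg _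
    have l1 : ∀ x, ‖x - L x‖ ≤ δ * ‖x‖ := fun x => by
      rw [norm_sub_rev]
      exact (L - 1).le_opNorm x
    have l2 : ∀ x, ‖L x‖ ≤ C * ‖x‖ := L.le_of_opNorm_le i1
    have m1 := bil _ (a3 _ hy' a) (le_refl ‖u‖) (le_refl ‖v‖)
    have m2 := bil _ ((b2 (a - L a)).trans (mul_le_mul_of_nonneg_left (l1 a) hM))
      (le_refl ‖u‖) (le_refl ‖v‖)
    have m0 := (b2 (L a)).trans (mul_le_mul_of_nonneg_left (l2 a) hM)
    have m3 := bil _ m0 (l1 u) (le_refl ‖v‖)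
    have m4 := bil _ m0 (l2 u) (l1 v)
    rw [norm_sub_rev y, ← hη] at m1
    simp only [map_sub, sub_apply] at m1 m2 m3 m4
    have n0 : 0 ≤ M * ‖a‖ * ‖u‖ * ‖v‖ := by positivity
    have n1 : 1 ≤ C ^ 2 := one_le_pow₀ hC
    have n2 : C ≤ C ^ 2 := by nlinarith
    have n3 : η + δ + C * δ + C ^ 2 * δ ≤ 3 * C ^ 2 * (η + δ) := by nlinarith
    have n4 := mul_le_mul_of_nonneg_left n3 n0
    rw [abs_le] at m1 m2 m3 m4 ⊢
    constructor <;> linarith [m1.1, m1.2, m2.1, m2.2, m3.1, m3.2, m4.1, m4.2]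
  · obtain ⟨j1, j2, j3⟩ := hol (hξ.mono fun w hw => hw.1)
    set L := fderiv ℂ ξ y with hL
    rw [mul_assoc]
    refine braid (g y) _ (fun v => v) hα hC0 (by positivity) (hg.symm _ (hs hy))
      (fun u => (hb _ hy u).1) j1 (fun w => ⟨w, rfl, le_mul_of_one_le_left (norm_nonneg _) hC⟩)
      fun a u v => ?_
    obtain ⟨a1, a2, -, a4⟩ := h2 y hy
    obtain ⟨D, d1, d2⟩ := a4 a _ _ (j2 a)
    have cu := hasDerivAt_const (0 : ℝ) u
    have cv := hasDerivAt_const (0 : ℝ) v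
    have k1 := line a1.hasFDerivAt a
    have k2 := (((d2.clm_apply cu).clm_apply cv).add ((k1.clm_apply (j3 a u)).clm_apply cv)).add
      ((k1.clm_apply cu).clm_apply (j3 a v))
    have k4 := k2.unique ((hasDerivAt_const (0 : ℝ) (0 : ℝ)).congr_of_eventuallyEq
      ((line_ev a hξ).mono fun t ht => ht.2 u v))
    simp only [zero_smul, add_zero, map_zero, add_apply, ← hL] at k4 d1
    set δ := ‖L‖ with hδ
    set η := ‖ξ y‖ with hη
    have hδ0 : 0 ≤ δ := norm_nonneg _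
    have hη0 : 0 ≤ η := norm_nonneg _
    have l2 : ∀ x, ‖L x‖ ≤ δ * ‖x‖ := L.le_opNorm
    have m1 := bil _ (d1.trans (mul_le_mul_of_nonneg_left (add_le_add le_rfl (l2 a)) hM))
      (le_refl ‖u‖) (le_refl ‖v‖)
    have m2 := bil _ (a2 a) (l2 u) (le_refl ‖v‖)
    have m3 := bil _ (a2 a) (le_refl ‖u‖) (l2 v)
    have n0 : 0 ≤ M * ‖a‖ * ‖u‖ * ‖v‖ := by positivity
    have n1 : 1 ≤ C ^ 2 := one_le_pow₀ hC
    have n3 : η + 3 * δ ≤ 3 * C ^ 2 * (η + δ) := by nlinarith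
    have n4 := mul_le_mul_of_nonneg_left n3 n0
    rw [abs_le] at m1 m2 m3 ⊢
    constructor <;> linarith [m1.1, m1.2, m2.1, m2.2, m3.1, m3.2]

end Pool.Agent.Lib.MP_813db1_ag.HS.E
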