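import Pool.Agent.Lib.MP_813db1_ag.HS.E.Basic

/-! The span of the limit fields is an invariant family of commuting Killing fields. -/

namespace Pool.Agent.Lib.MP_813db1_ag.HS.E

open Set Filter Topology Metric Matrix

noncomputable section

variable {X Z Y : Type} [TopologicalSpace X] [ConnectedSpace X]
  [NormedAddCommGroup Z] [InnerProductSpace ℂ Z]
  [NormedAddCommGroup Y] [NormedSpace ℂ Y] [NormedSpace ℝ Y] [IsScalarTower ℝ ℂ Y]
  [FiniteDimensional ℂ Y]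

namespace KillAux

variable {P : PAtlas X Z Y} {Ψ : P.ι → Z → Y → X} {k l : P.ι} {ξ η : Y → Y} {y y' : Y}

omit [FiniteDimensional ℂ Y] in
lemma fd_smul (c : ℝ) (h : DifferentiableAt ℂ ξ y) : fderiv ℂ (c • ξ) y = c • fderiv ℂ ξ y :=
  (h.hasFDerivAt.const_smul c).fderiv

variable (P k) in
/-- holomorphic Killing fields on the ball which kill the basic functions -/
def Gd : Submodule ℝ (Y → Y) where
  carrier := {ξ | (∀ y ∈ P.B k, DifferentiableAt ℂ ξ y ∧ Kil (P.g k) ξ y) ∧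
    (∀ y, y ∉ P.B k → ξ y = 0) ∧ ∀ F f, Basic P F f → ∀ y ∈ P.B k, DifferentiableAt ℝ (f k) y →
      fderiv ℝ (f k) y (ξ y) = 0}
  zero_mem' := ⟨fun y _ => ⟨differentiableAt_const _, fun u v => by simp⟩, fun _ _ => rfl,
    fun _ _ _ _ _ _ => by simp⟩
  add_mem' := by
    rintro ξ η ⟨a1, a2, a3⟩ ⟨b1, b2, b3⟩
    refine ⟨fun y hy => ⟨(a1 y hy).1.add (b1 y hy).1, fun u v => ?_⟩,
      fun y hy => by simp [a2 y hy, b2 y hy], fun F f h y hy d => ?_⟩
    · have e1 := (a1 y hy).2 u v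
      have e2 := (b1 y hy).2 u v
      simp only [fderiv_add (a1 y hy).1 (b1 y hy).1, Pi.add_apply, map_add, _root_.add_apply]
      linarith
    · rw [Pi.add_apply, map_add, a3 F f h y hy d, b3 F f h y hy d, add_zero]
  smul_mem' := by
    rintro c ξ ⟨a1, a2, a3⟩
    refine ⟨fun y hy => ⟨(a1 y hy).1.const_smul c, fun u v => ?_⟩,
      fun y hy => by simp [a2 y hy], fun F f h y hy d => ?_⟩
    · have e1 := (a1 y hy).2 u v
      simp only [fd_smul c (a1 y hy).1, Pi.smul_apply, map_smul, _root_.smul_apply, smul_eq_mul]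
      linear_combination c * e1
    · rw [Pi.smul_apply, map_smul, a3 F f h y hy d, smul_zero]

omit [ConnectedSpace X] [FiniteDimensional ℂ Y] in
lemma jet_zero (hJ : JetStmt Y) (hG : GronStmt Y) (h : ξ ∈ Gd P k) (hy : y ∈ P.B k)
    (h0 : ξ y = 0) (h1 : fderiv ℂ ξ y = 0) : ξ = 0 := by
  funext w
  by_cases hw : w ∈ P.B k
  swap
  · exact h.2.1 w hw
  have hR : max (dist y (P.yc k)) (dist w (P.yc k)) < P.yr k := max_lt hy hw
  obtain ⟨K, K0, -, hK⟩ := hJ (P.g k) (P.yc k) _ _ hR (P.met k)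
  obtain ⟨C, -, hC⟩ := hG K ‖w - y‖ K0
  have hs := (convex_closedBall (P.yc k) (max (dist y (P.yc k)) (dist w (P.yc k)))).segment_subset
    (mem_closedBall.2 (le_max_left _ _)) (mem_closedBall.2 (le_max_right _ _))
  have := hC ξ y w le_rfl fun v hv => by
    have e : ∀ᶠ u in 𝓝 v, DifferentiableAt ℂ ξ u ∧ Kil (P.g k) ξ u :=
      Filter.mem_of_superset ((P.B_open k).mem_nhds (closedBall_subset_ball hR (hs hv))) h.1
    exact ⟨e.mono fun _ a => a.1, hK ξ v (hs hv) e⟩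
  rw [h0, h1, norm_zero, norm_zero, add_zero, mul_zero] at this
  exact norm_le_zero_iff.1 ((le_add_of_nonneg_right (norm_nonneg _)).trans this)

variable (P k) in
/-- the first jet at the centre -/
def jet : Gd P k →ₗ[ℝ] Y × (Y →L[ℂ] Y) where
  toFun ξ := (ξ.1 (P.yc k), fderiv ℂ ξ.1 (P.yc k))
  map_add' ξ η := Prod.ext rfl (fderiv_add (ξ.2.1 _ (P.yc_mem k)).1 (η.2.1 _ (P.yc_mem k)).1)
  map_smul' c ξ := Prod.ext rfl (fd_smul c (ξ.2.1 _ (P.yc_mem k)).1)

omit [ConnectedSpace X] in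
lemma gd_fin (hJ : JetStmt Y) (hG : GronStmt Y) : FiniteDimensional ℝ (Gd P k) := by
  have : Module.Finite ℝ Y := Module.Finite.trans ℂ Y
  have : Module.Finite ℝ (Y →L[ℂ] Y) := Module.Finite.trans ℂ _
  refine FiniteDimensional.of_injective (jet P k) ((injective_iff_map_eq_zero _).2 fun ξ h => ?_)
  exact Subtype.ext (jet_zero hJ hG ξ.2 (P.yc_mem k) (congrArg Prod.fst h) (congrArg Prod.snd h))

variable (P Ψ k) in
/-- the span of the limit fields -/
def NN : Submodule ℝ (Y → Y) := Submodule.span ℝ {ξ | Lim P Ψ k ξ}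

omit [ConnectedSpace X] [FiniteDimensional ℂ Y] in
lemma nn_le (hL : LimStmt X Z Y) (hD : Dev P Ψ) : NN P Ψ k ≤ Gd P k :=
  Submodule.span_le.2 fun ξ h => by
    obtain ⟨a, b, c, -⟩ := hL P Ψ hD k ξ h
    exact ⟨fun y hy => ⟨a.differentiableAt ((P.B_open k).mem_nhds hy), b y hy⟩, h.1, c⟩

omit [ConnectedSpace X] [FiniteDimensional ℂ Y] in
lemma comm_left (hL : LimStmt X Z Y) (hD : Dev P Ψ) (hy : y ∈ P.B k)
    (h : ∀ ξ, Lim P Ψ k ξ → fderiv ℂ ξ y (η y) = fderiv ℂ η y (ξ y)) (hξ : ξ ∈ NN P Ψ k) :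
    fderiv ℂ ξ y (η y) = fderiv ℂ η y (ξ y) := by
  induction hξ using Submodule.span_induction with
  | mem x hx => exact h x hx
  | zero => simp
  | add a b ha hb e1 e2 =>
    rw [fderiv_add ((nn_le hL hD ha).1 y hy).1 ((nn_le hL hD hb).1 y hy).1, _root_.add_apply,
      Pi.add_apply, map_add, e1, e2]
  | smul c a ha e =>
    rw [fd_smul c ((nn_le hL hD ha).1 y hy).1, _root_.smul_apply, Pi.smul_apply,
      ContinuousLinearMap.map_smul_of_tower, e]

omit [ConnectedSpace X] [FiniteDimensional ℂ Y] in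
lemma nn_comm (hL : LimStmt X Z Y) (hD : Dev P Ψ) (hy : y ∈ P.B k) (hξ : ξ ∈ NN P Ψ k)
    (hη : η ∈ NN P Ψ k) : fderiv ℂ ξ y (η y) = fderiv ℂ η y (ξ y) :=
  comm_left hL hD hy (fun a ha => (comm_left hL hD hy
    (fun b hb => (hL P Ψ hD k b hb).2.2.2 a ha y hy) hη).symm) hξ

omit [ConnectedSpace X] [FiniteDimensional ℂ Y] in
lemma nn_move (hX : LimExStmt X Z Y) (hD : Dev P Ψ) {γ : Mot Z} (h : Rel P Ψ k l γ y y')
    (hξ : ξ ∈ NN P Ψ k) : ∃ ξ' ∈ NN P Ψ l,
      ∀ᶠ w in 𝓝 y, fderiv ℂ (rm P Ψ k l γ) w (ξ w) = ξ' (rm P Ψ k l γ w) := by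
  induction hξ using Submodule.span_induction with
  | mem x hx =>
    obtain ⟨ξ', a, b⟩ := (hX P Ψ hD).2 k l γ y y' x h hx
    exact ⟨ξ', Submodule.subset_span a, b⟩
  | zero => exact ⟨0, zero_mem _, Eventually.of_forall fun w => by simp⟩
  | add a b _ _ e1 e2 =>
    obtain ⟨a', a1, a2⟩ := e1
    obtain ⟨b', b1, b2⟩ := e2
    exact ⟨a' + b', add_mem a1 b1, (a2.and b2).mono fun w hw => by
      rw [Pi.add_apply, map_add, hw.1, hw.2, Pi.add_apply]⟩
  | smul c a _ e =>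
    obtain ⟨a', a1, a2⟩ := e
    exact ⟨c • a', Submodule.smul_mem _ c a1, a2.mono fun w hw => by
      rw [Pi.smul_apply, ContinuousLinearMap.map_smul_of_tower, hw, Pi.smul_apply]⟩

omit [ConnectedSpace X] [FiniteDimensional ℂ Y] in
lemma comb_zero (hJ : JetStmt Y) (hG : GronStmt Y) (hL : LimStmt X Z Y) (hD : Dev P Ψ) {r : ℕ}
    (b : Module.Basis (Fin r) ℝ (NN P Ψ k)) (hy : y ∈ P.B k) (c : Fin r → ℝ)
    (h0 : (∑ a, c a • (b a).1) y = 0) (h1 : fderiv ℂ (∑ a, c a • (b a).1) y = 0) : c = 0 := by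
  have e := jet_zero hJ hG (Submodule.sum_mem _ fun a _ =>
    Submodule.smul_mem _ (c a) (nn_le hL hD (b a).2)) hy h0 h1
  funext a
  refine Fintype.linearIndependent_iff.1 b.linearIndependent c (Subtype.ext ?_) a
  simpa using e

omit [ConnectedSpace X] [FiniteDimensional ℂ Y] in
lemma mat (hJ : JetStmt Y) (hG : GronStmt Y) (hL : LimStmt X Z Y) (hX : LimExStmt X Z Y)
    (hD : Dev P Ψ) {γ : Mot Z} (h : Rel P Ψ k l γ y y') {r s : ℕ}
    (b : Module.Basis (Fin r) ℝ (NN P Ψ k)) (b' : Module.Basis (Fin s) ℝ (NN P Ψ l)) :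
    ∃ C : Matrix (Fin r) (Fin s) ℝ, (∀ c, c ᵥ* C = 0 → c = 0) ∧
      ∀ᶠ w in 𝓝 y, ∀ a, fderiv ℂ (rm P Ψ k l γ) w ((b a).1 w) =
        ∑ j, C a j • (b' j).1 (rm P Ψ k l γ w) := by
  choose ξ' h1 h2 using fun a => nn_move hX hD h (b a).2
  have e : ∀ᶠ w in 𝓝 y, ∀ a, fderiv ℂ (rm P Ψ k l γ) w ((b a).1 w) =
      ∑ j, b'.repr ⟨ξ' a, h1 a⟩ j • (b' j).1 (rm P Ψ k l γ w) := by
    filter_upwards [eventually_all.2 h2] with w hw a
    have := congrFun (congrArg Subtype.val (b'.sum_repr ⟨ξ' a, h1 a⟩)) (rm P Ψ k l γ w)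
    rw [hw a]
    simpa only [AddSubmonoidClass.coe_finsetSum, SetLike.val_smul, Finset.sum_apply,
      Pi.smul_apply] using this.symm
  refine ⟨Matrix.of fun a j => b'.repr ⟨ξ' a, h1 a⟩ j, fun c hc => ?_, e⟩
  have z : (∑ a, c a • (b a).1) =ᶠ[𝓝 y] fun _ => 0 := by
    filter_upwards [e, (h.liso hD).eventually, (P.B_open k).mem_nhds h.1] with w a1 a2 a3
    refine a2.inj ((P.met k).pos w a3) ?_
    simp only [Finset.sum_apply, Pi.smul_apply, map_sum, ContinuousLinearMap.map_smul_of_tower, a1,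
      Finset.smul_sum, smul_smul]
    rw [Finset.sum_comm]
    refine Finset.sum_eq_zero fun j _ => ?_
    have := congrFun hc j
    simp only [vecMul, dotProduct, Matrix.of_apply, Pi.zero_apply] at this
    rw [← Finset.sum_smul, this, zero_smul]
  exact comb_zero hJ hG hL hD b h.1 c z.self_of_nhds (by rw [z.fderiv_eq]; simp)

end KillAux

open KillAux in
theorem kill (hJ : JetStmt Y) (hG : GronStmt Y) (hL : LimStmt X Z Y) (hX : LimExStmt X Z Y)
    (hR : RankStmt Y) : KillStmt X Z Y := by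
  intro P Ψ hD
  by_cases hT : ∀ k, Triv P Ψ k
  · exact Or.inl hT
  obtain ⟨k0, h0⟩ := not_forall.1 hT
  have fin : ∀ k, FiniteDimensional ℝ (NN P Ψ k) := fun k =>
    have := gd_fin (P := P) (k := k) hJ hG
    Submodule.finiteDimensional_of_le (nn_le hL hD)
  have le : ∀ k l γ y y', Rel P Ψ k l γ y y' →
      Module.finrank ℝ (NN P Ψ k) ≤ Module.finrank ℝ (NN P Ψ l) := fun k l γ y y' h => by
    obtain ⟨C, hC, -⟩ := mat hJ hG hL hX hD h (Module.finBasis ℝ _) (Module.finBasis ℝ _)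
    simpa using LinearMap.finrank_le_finrank_of_injective (f := C.vecMulLinear)
      ((injective_iff_map_eq_zero _).2 hC)
  have rk : ∀ l, Module.finrank ℝ (NN P Ψ l) = Module.finrank ℝ (NN P Ψ k0) :=
    hD.conn (k := k0) _ rfl fun k l γ y y' h e =>
      e ▸ le_antisymm (le _ _ _ _ _ h.symm) (le _ _ _ _ _ h)
  let b := fun l => Module.finBasisOfFinrankEq ℝ (NN P Ψ l) (rk l)
  have g : ∀ l a, (b l a).1 ∈ Gd P l := fun l a => nn_le hL hD (b l a).2
  refine Or.inr ⟨_, fun l a => (b l a).1, ?_, fun l a y hy => ((g l a).1 y hy).1.differentiableWithinAt,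
    fun l a c y hy => nn_comm hL hD hy (b l a).2 (b l c).2, fun l a y hy => ((g l a).1 y hy).2,
    fun F f h l a => (g l a).2.2 F f h, fun l O h1 h2 h3 => ?_, fun k l γ y y' h => ?_⟩
  · obtain ⟨ξ, a, y, -, c⟩ := (hX P Ψ hD).1 k0 h0
    refine Module.finrank_pos_iff_exists_ne_zero.2 ⟨⟨ξ, Submodule.subset_span a⟩, fun e => c ?_⟩
    exact congrFun (congrArg Subtype.val e) y
  · refine hR (P.g l) O _ _ h1 h2 (fun y hy => (P.met l).pos y (h3 hy))
      (fun a y hy => ((g l a).1 y (h3 hy)).1.differentiableWithinAt)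
      (fun a c y hy => nn_comm hL hD (h3 hy) (b l a).2 (b l c).2)
      (fun a y hy => ((g l a).1 y (h3 hy)).2) fun y hy c e1 e2 => ?_
    refine comb_zero hJ hG hL hD (b l) (h3 hy) c (by simpa using e1) ?_
    rw [(HasFDerivAt.sum fun a _ => ((g l a).1 y (h3 hy)).1.hasFDerivAt.const_smul (c a)).fderiv]
    ext v
    simpa using e2 v
  · obtain ⟨C, hC, e⟩ := mat hJ hG hL hX hD h (b k) (b l)
    refine ⟨C, fun hd => ?_, e⟩
    obtain ⟨c, c1, c2⟩ := Matrix.exists_vecMul_eq_zero_iff.2 hd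
    exact c1 (hC c c2)

end

end Pool.Agent.Lib.MP_813db1_ag.HS.E
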