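import Pool.Agent.Lib.MP_813db1_ag.HS.E.Basic

/-! Local properties of the limits of rescaled holonomy maps. -/

namespace Pool.Agent.Lib.MP_813db1_ag.HS.E

open Set Filter Topology Metric

noncomputable section

namespace LimAux

/-- difference quotients along a moving direction -/
lemma quot {V W : Type} [NormedAddCommGroup V] [NormedSpace ℝ V] [NormedAddCommGroup W]
    [NormedSpace ℝ W] {Φ : V → W} {Φ' : V →L[ℝ] W} {p d₀ : V} (h : HasFDerivAt Φ Φ' p)
    {α : Type} {l : Filter α} {s : α → ℝ} {d : α → V} (hs : ∀ j, 0 < s j)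
    (hs0 : Tendsto s l (𝓝 0)) (hd : Tendsto d l (𝓝 d₀)) :
    Tendsto (fun j => (s j)⁻¹ • (Φ (p + s j • d j) - Φ p)) l (𝓝 (Φ' d₀)) := by
  refine (hasFDerivWithinAt_univ.2 h).lim ?_ (Eventually.of_forall fun _ => mem_univ _) ?_
  · simpa using hs0.smul hd
  · refine hd.congr fun j => ?_
    rw [inv_smul_smul₀ (hs j).ne']

variable {X Z Y : Type} [TopologicalSpace X]
  [NormedAddCommGroup Z] [InnerProductSpace ℂ Z]
  [NormedAddCommGroup Y] [NormedSpace ℂ Y] [NormedSpace ℝ Y] [IsScalarTower ℝ ℂ Y]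
  {P : PAtlas X Z Y} {Ψ : P.ι → Z → Y → X} {k : P.ι}

/-- the data of a limit field in a convenient form -/
lemma data (hM : MontelStmt Y) (hD : Dev P Ψ) {ξ : Y → Y} (h : Lim P Ψ k ξ) :
    ∃ (𝓤 : Ultrafilter ℕ) (t : ℕ → Z) (s : ℕ → ℝ) (F : ℕ → Y → Y), (∀ j, 0 < s j) ∧
      Tendsto s 𝓤 (𝓝 0) ∧ (∀ j w, rm P Ψ k k (tr (t j)) w = w + s j • F j w) ∧
      (∀ R < P.yr k, ∀ᶠ j in (𝓤 : Filter ℕ), ∀ y ∈ ball (P.yc k) R,
        Rel P Ψ k k (tr (t j)) y (rm P Ψ k k (tr (t j)) y)) ∧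
      ∀ y ∈ P.B k, DifferentiableAt ℂ ξ y ∧ Tendsto (fun j => F j y) 𝓤 (𝓝 (ξ y)) ∧
        (∀ u, Tendsto (fun j => fderiv ℂ (F j) y u) 𝓤 (𝓝 (fderiv ℂ ξ y u))) ∧
        ∀ᶠ j in (𝓤 : Filter ℕ), Rel P Ψ k k (tr (t j)) y (rm P Ψ k k (tr (t j)) y) ∧
          ∀ u, fderiv ℂ (rm P Ψ k k (tr (t j))) y u = u + s j • fderiv ℂ (F j) y u := by
  obtain ⟨-, 𝓤, t, s, hs, hs0, hR⟩ := h
  have he : ∀ j w, rm P Ψ k k (tr (t j)) w =
      w + s j • ((s j)⁻¹ • (rm P Ψ k k (tr (t j)) w - w)) := fun j w => by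
    rw [smul_inv_smul₀ (hs j).ne', add_sub_cancel]
  refine ⟨𝓤, t, s, fun j y => (s j)⁻¹ • (rm P Ψ k k (tr (t j)) y - y), hs, hs0, he,
    fun R hlt => (hR R hlt).1, fun y hy => ?_⟩
  obtain ⟨R, h1, h2⟩ := exists_between (show dist y (P.yc k) < P.yr k from hy)
  have hyR : y ∈ ball (P.yc k) R := h1
  obtain ⟨h3, h4⟩ := hR R h2
  have h5 : ∀ᶠ j in (𝓤 : Filter ℕ), DifferentiableOn ℂ
      (fun y => (s j)⁻¹ • (rm P Ψ k k (tr (t j)) y - y)) (ball (P.yc k) R) :=
    h3.mono fun j hj w hw =>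
      ((((hj w hw).liso hD).diff.fun_sub differentiableAt_id).fun_const_smul
        (s j)⁻¹).differentiableWithinAt
  obtain ⟨h6, h7⟩ := hM.2 𝓤 _ ξ (P.yc k) R h5 h4
  refine ⟨h6.differentiableAt (isOpen_ball.mem_nhds hyR), h4.tendsto_at hyR, fun u => ?_, ?_⟩
  · exact ((ContinuousLinearMap.apply ℂ Y u).continuous.tendsto _).comp (h7 y hyR)
  · filter_upwards [h3, h5] with j hj hj'
    refine ⟨hj y hyR, fun u => ?_⟩
    have h8 := (hj'.differentiableAt (isOpen_ball.mem_nhds hyR)).hasFDerivAt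
    have h9 := (hasFDerivAt_id (𝕜 := ℂ) y).fun_add (h8.fun_const_smul (s j))
    have h10 : rm P Ψ k k (tr (t j)) = fun w => id w +
        s j • ((s j)⁻¹ • (rm P Ψ k k (tr (t j)) w - w)) := funext (he j)
    rw [← h10] at h9
    rw [h9.fderiv]
    simp

end LimAux

variable {X Z Y : Type} [TopologicalSpace X]
  [NormedAddCommGroup Z] [InnerProductSpace ℂ Z]
  [NormedAddCommGroup Y] [NormedSpace ℂ Y] [NormedSpace ℝ Y] [IsScalarTower ℝ ℂ Y]

theorem limS (hM : MontelStmt Y) : LimStmt X Z Y := by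
  intro P Ψ hD k ξ hξ
  obtain ⟨𝓤, t, s, F, hs, hs0, he, hR, hy⟩ := LimAux.data hM hD hξ
  refine ⟨fun y h => (hy y h).1.differentiableWithinAt, fun y h u v => ?_,
    fun G f hG y h hf => ?_, fun ξ' hξ' y h => ?_⟩
  · obtain ⟨-, h1, h2, h3⟩ := hy y h
    have hg : HasFDerivAt (P.g k) (fderiv ℝ (P.g k) y) y :=
      (((P.met k).smooth.differentiableOn (by norm_num)).differentiableAt
        ((P.B_open k).mem_nhds h)).hasFDerivAt
    have a0 : HasFDerivAt (fun p : Y × Y × Y => p.1) (ContinuousLinearMap.fst ℝ Y (Y × Y))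
        (y, u, v) := hasFDerivAt_fst
    have a1 := HasFDerivAt.comp (y, u, v) (g := P.g k) (f := fun p : Y × Y × Y => p.1) hg a0
    have a2 : HasFDerivAt (𝕜 := ℝ) (fun p : Y × Y × Y => p.2.1) _ (y, u, v) :=
      hasFDerivAt_snd.fst
    have a3 : HasFDerivAt (𝕜 := ℝ) (fun p : Y × Y × Y => p.2.2) _ (y, u, v) :=
      hasFDerivAt_snd.snd
    have a4 := LimAux.quot ((a1.clm_apply a2).clm_apply a3) hs hs0
      (h1.prodMk_nhds ((h2 u).prodMk_nhds (h2 v)))
    have a5 := tendsto_nhds_unique_of_eventuallyEq a4 (tendsto_const_nhds (x := (0 : ℝ)))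
      (h3.mono fun j hj => by
        have := (hj.1.liso hD).iso u v
        rw [hj.2, hj.2, he] at this
        simp only [Prod.mk_add_mk, Prod.smul_mk, Function.comp_apply, this, sub_self, smul_zero])
    rw [← a5]
    simp
    ring
  · obtain ⟨-, h1, -, h3⟩ := hy y h
    exact tendsto_nhds_unique_of_eventuallyEq (LimAux.quot hf.hasFDerivAt hs hs0 h1)
      (tendsto_const_nhds (x := (0 : ℝ))) (h3.mono fun j hj => by
        have := hG.rel hD hj.1
        rw [he] at this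
        simp only [this, sub_self, smul_zero])
  · obtain ⟨𝓥, t', s', F', hs', hs0', he', hR', hy'⟩ := LimAux.data hM hD hξ'
    obtain ⟨-, h1, h2, h3⟩ := hy y h
    obtain ⟨h4, h5, -, -⟩ := hy' y h
    obtain ⟨R, hR1, hR2⟩ := exists_between (show dist y (P.yc k) < P.yr k from h)
    have hyR : y ∈ ball (P.yc k) R := hR1
    have b1 : ∀ᶠ j in (𝓤 : Filter ℕ), y + s j • F j y ∈ ball (P.yc k) R := by
      refine Tendsto.eventually_mem ?_ (isOpen_ball.mem_nhds hyR)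
      simpa using (hs0.smul h1).const_add y
    have b2 : ∀ᶠ i in (𝓥 : Filter ℕ), y + s' i • F' i y ∈ ball (P.yc k) R := by
      refine Tendsto.eventually_mem ?_ (isOpen_ball.mem_nhds hyR)
      simpa using (hs0'.smul h5).const_add y
    refine tendsto_nhds_unique_of_eventuallyEq (h2 (ξ' y))
      (LimAux.quot (h4.hasFDerivAt.restrictScalars ℝ) hs hs0 h1) ?_
    filter_upwards [b1, h3, hR R hR2] with j c1 c2 c3
    have c4 : y + s j • F j y ∈ P.B k := ball_subset_ball hR2.le c1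
    have c5 := LimAux.quot ((c2.1.liso hD).diff.hasFDerivAt.restrictScalars ℝ) hs' hs0' h5
    have c6 := tendsto_nhds_unique_of_eventuallyEq c5 (hy' _ c4).2.1 (by
      filter_upwards [b2, hR' R hR2] with i d1 d2
      have d3 := (d2 y hyR).trans (c3 _ (by rw [he']; exact d1))
      have d4 := (c3 y hyR).trans (d2 _ (by rw [he]; exact c1))
      rw [tr_comm] at d4
      have d5 := d3.uniq hD d4
      rw [he' i y, he' i, he j y] at d5
      rw [d5, he j y, add_sub_cancel_left, inv_smul_smul₀ (hs' i).ne'])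
    have c7 : fderiv ℂ (rm P Ψ k k (tr (t j))) y (ξ' y) = ξ' (y + s j • F j y) := c6
    rw [← c7, c2.2, add_sub_cancel_left, inv_smul_smul₀ (hs j).ne']

end

end Pool.Agent.Lib.MP_813db1_ag.HS.E
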