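import Pool.Agent.Lib.MP_813db1_ag.HS.E.Basic

/-! Existence and transport of the limit fields. -/

namespace Pool.Agent.Lib.MP_813db1_ag.HS.E

open Set Filter Topology Metric

noncomputable section

variable {X Z Y : Type} [TopologicalSpace X]
  [NormedAddCommGroup Z] [InnerProductSpace ℂ Z]
  [NormedAddCommGroup Y] [NormedSpace ℂ Y] [NormedSpace ℝ Y] [IsScalarTower ℝ ℂ Y]

namespace LimExAux

variable {P : PAtlas X Z Y} {Ψ : P.ι → Z → Y → X} {k l : P.ι}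

lemma diff (hD : Dev P Ψ) {γ : Mot Z} {c : Y} {R : ℝ} (a : ℝ)
    (h : ∀ y ∈ ball c R, Rel P Ψ k k γ y (rm P Ψ k k γ y)) :
    DifferentiableOn ℂ (fun y => a • (rm P Ψ k k γ y - y)) (ball c R) := fun y hy =>
  ((((h y hy).liso hD).diff.sub differentiableAt_id).const_smul a).differentiableWithinAt

lemma mk (hE : ExtStmt X Z Y) (hM : MontelStmt Y) (hD : Dev P Ψ) {y₀ : Y} {ρ R₀ C₀ : ℝ}
    (hρ : 0 < ρ) (hs : ball y₀ ρ ⊆ closedBall (P.yc k) R₀) (hR : R₀ < P.yr k) (hC : 0 ≤ C₀)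
    (𝓤 : Ultrafilter ℕ) (t : ℕ → Z) (s : ℕ → ℝ) (h0 : ∀ j, 0 < s j) (hl : Tendsto s 𝓤 (𝓝 0))
    (h : ∀ᶠ j in (𝓤 : Filter ℕ), Sm P Ψ k y₀ ρ (C₀ * s j) (tr (t j))) :
    ∃ ξ : Y → Y, (∀ y, y ∉ P.B k → ξ y = 0) ∧ ∀ R < P.yr k,
      (∀ᶠ j in (𝓤 : Filter ℕ), ∀ y ∈ ball (P.yc k) R,
        Rel P Ψ k k (tr (t j)) y (rm P Ψ k k (tr (t j)) y)) ∧
      TendstoUniformlyOn (fun j y => (s j)⁻¹ • (rm P Ψ k k (tr (t j)) y - y)) ξ 𝓤
        (ball (P.yc k) R) := by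
  have key : ∀ R < P.yr k, ∃ C, ∀ᶠ j in (𝓤 : Filter ℕ),
      Sm P Ψ k (P.yc k) R (C * s j) (tr (t j)) := fun R hR' => by
    obtain ⟨η, hη, C, -, hC'⟩ := hE P Ψ hD k y₀ ρ (max R R₀) hρ
      (hs.trans (closedBall_subset_closedBall (le_max_right _ _))) (max_lt hR' hR)
    have h1 : Tendsto (fun j => C₀ * s j) 𝓤 (𝓝 0) := by simpa using hl.const_mul C₀
    refine ⟨C * C₀, ?_⟩
    filter_upwards [h, h1.eventually (ge_mem_nhds hη)] with j a b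
    exact (hC' _ _ (mul_nonneg hC (h0 j).le) b a).mono (ball_subset_ball (le_max_left _ _))
      (by rw [mul_assoc])
  obtain ⟨ξ, h1, h2⟩ := hM.1 𝓤 (fun j y => (s j)⁻¹ • (rm P Ψ k k (tr (t j)) y - y)) (P.yc k)
    (P.yr k) fun R hR' => by
      obtain ⟨C, hC'⟩ := key R hR'
      refine ⟨C, hC'.mono fun j a => ⟨diff hD _ fun y hy => (a.rm hD hy).1, fun y hy => ?_⟩⟩
      rw [norm_smul, norm_inv, Real.norm_of_nonneg (h0 j).le, inv_mul_le_iff₀ (h0 j), mul_comm]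
      exact (a.rm hD hy).2
  refine ⟨ξ, h1, fun R hR' => ⟨?_, h2 R hR'⟩⟩
  obtain ⟨C, hC'⟩ := key R hR'
  exact hC'.mono fun j a y hy => (a.rm hD hy).1

lemma ex (hE : ExtStmt X Z Y) (hM : MontelStmt Y) (hD : Dev P Ψ) (hT : ¬ Triv P Ψ k) :
    ∃ ξ, Lim P Ψ k ξ ∧ ∃ y ∈ P.B k, ξ y ≠ 0 := by
  have hr := P.yr_pos k
  have hr2 : 0 < P.yr k / 2 := half_pos hr
  have h1 : ∀ j : ℕ, ∃ (t : Z) (s : ℝ), 0 < s ∧ s ≤ 1 / ((j : ℝ) + 1) ∧
      Sm P Ψ k (P.yc k) (P.yr k / 2) (1 * s) (tr t) ∧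
      ∃ y ∈ ball (P.yc k) (P.yr k / 2), s / 2 < ‖rm P Ψ k k (tr t) y - y‖ := fun j => by
    have h2 : ∃ t : Z, Sm P Ψ k (P.yc k) (P.yr k / 2) (1 / ((j : ℝ) + 1)) (tr t) ∧
        ¬ ∀ y ∈ P.B k, Rel P Ψ k k (tr t) y y := by
      by_contra hc
      refine hT ⟨1 / ((j : ℝ) + 1), by positivity, fun t ht => ?_⟩
      by_contra hc'
      exact hc ⟨t, ht, hc'⟩
    obtain ⟨t, ht, hn⟩ := h2
    set S : Set ℝ := (fun y => ‖rm P Ψ k k (tr t) y - y‖) '' ball (P.yc k) (P.yr k / 2) with hS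
    have hne : S.Nonempty := ⟨_, _, mem_ball_self hr2, rfl⟩
    have hub : ∀ x ∈ S, x ≤ 1 / ((j : ℝ) + 1) := by
      rintro _ ⟨y, hy, rfl⟩
      exact (ht.rm hD hy).2
    have hle : ∀ y ∈ ball (P.yc k) (P.yr k / 2), ‖rm P Ψ k k (tr t) y - y‖ ≤ sSup S :=
      fun y hy => le_csSup ⟨_, hub⟩ ⟨y, hy, rfl⟩
    have hpos : 0 < sSup S := by
      by_contra hc
      refine hn (fix_all hE hD (y := P.yc k) ?_)
      filter_upwards [ball_mem_nhds (P.yc k) hr2] with w hw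
      have h3 := (hle w hw).trans (not_lt.1 hc)
      rw [norm_le_zero_iff, sub_eq_zero] at h3
      have h4 := (ht.rm hD hw).1
      rwa [h3] at h4
    refine ⟨t, sSup S, hpos, csSup_le hne hub, fun y hy => ⟨_, (ht.rm hD hy).1, ?_⟩, ?_⟩
    · rw [one_mul]
      exact hle y hy
    · obtain ⟨_, ⟨y, hy, rfl⟩, h5⟩ := exists_lt_of_lt_csSup hne (half_lt_self hpos)
      exact ⟨y, hy, h5⟩
  choose t s h0 hs hS hy using h1
  have hl : Tendsto s (hyperfilter ℕ) (𝓝 0) :=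
    (squeeze_zero (fun j => (h0 j).le) hs tendsto_one_div_add_atTop_nhds_zero_nat).mono_left
      Nat.hyperfilter_le_atTop
  obtain ⟨ξ, a, b⟩ := mk hE hM hD hr2 ball_subset_closedBall (half_lt_self hr) zero_le_one
    (hyperfilter ℕ) t s h0 hl (Eventually.of_forall hS)
  refine ⟨ξ, ⟨a, hyperfilter ℕ, t, s, h0, hl, b⟩, ?_⟩
  by_contra hc
  obtain ⟨j, hj⟩ := (Metric.tendstoUniformlyOn_iff.1 (b _ (half_lt_self hr)).2 (1 / 2)
    (by norm_num)).exists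
  obtain ⟨y, hy1, hy2⟩ := hy j
  have h6 : ξ y = 0 := by
    by_contra h7
    exact hc ⟨y, ball_subset_ball (half_lt_self hr).le hy1, h7⟩
  have h8 := hj y hy1
  rw [h6, dist_zero_left, norm_smul, norm_inv, Real.norm_of_nonneg (h0 j).le,
    inv_mul_lt_iff₀ (h0 j)] at h8
  linarith

lemma tp (hU : UnifStmt X Z Y) (hE : ExtStmt X Z Y) (hM : MontelStmt Y) (hD : Dev P Ψ)
    {γ : Mot Z} {y y' : Y} {ξ : Y → Y} (h : Rel P Ψ k l γ y y') (hξ : Lim P Ψ k ξ) :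
    ∃ ξ', Lim P Ψ l ξ' ∧
      ∀ᶠ w in 𝓝 y, fderiv ℂ (rm P Ψ k l γ) w (ξ w) = ξ' (rm P Ψ k l γ w) := by
  obtain ⟨-, 𝓤, t, s, h0, hl, hL⟩ := hξ
  obtain ⟨R, hR1, hR2⟩ := exists_between (show dist y (P.yc k) < P.yr k from h.1)
  obtain ⟨R', hR1', hR2'⟩ := exists_between (show dist y' (P.yc l) < P.yr l from h.2.1)
  obtain ⟨ρ, hρ, C, hC, hUn⟩ := hU P Ψ hD k l R R' hR2 hR2'
  obtain ⟨u1, u2⟩ := hUn γ y hR1.le y' hR1'.le h
  obtain ⟨l1, l2⟩ := hL R hR2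
  have hc : ContinuousAt ξ y :=
    (hM.2 𝓤 _ ξ _ R (l1.mono fun j a => diff hD _ a) l2).1.continuousOn.continuousAt
      (isOpen_ball.mem_nhds hR1)
  -- a neighbourhood of `y` on which everything is controlled
  have hN : ∀ᶠ w in 𝓝 y, w ∈ ball (P.yc k) R ∧ w ∈ ball y (ρ / 2) ∧ ‖ξ w‖ < ‖ξ y‖ + 1 :=
    (isOpen_ball.eventually_mem hR1).and ((isOpen_ball.eventually_mem
      (mem_ball_self (half_pos hρ))).and (hc.norm.eventually (gt_mem_nhds (lt_add_one _))))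
  have h1 : Tendsto (fun j => (‖ξ y‖ + 2) * s j) 𝓤 (𝓝 0) := by simpa using hl.const_mul _
  have hJ : ∀ᶠ j in (𝓤 : Filter ℕ), ∀ w, w ∈ ball (P.yc k) R ∧ w ∈ ball y (ρ / 2) ∧
      ‖ξ w‖ < ‖ξ y‖ + 1 → ‖rm P Ψ k k (tr (t j)) w - w‖ ≤ (‖ξ y‖ + 2) * s j ∧
        rm P Ψ k k (tr (t j)) w ∈ ball y ρ ∧
        Rel P Ψ l l (tr (lin γ (t j))) (rm P Ψ k l γ w)
          (rm P Ψ k l γ (rm P Ψ k k (tr (t j)) w)) := by
    filter_upwards [l1, Metric.tendstoUniformlyOn_iff.1 l2 1 one_pos,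
      h1.eventually (gt_mem_nhds (half_pos hρ))] with j a b c w hw
    have e1 : ‖rm P Ψ k k (tr (t j)) w - w‖ ≤ (‖ξ y‖ + 2) * s j := by
      have e2 := b w hw.1
      rw [dist_eq_norm'] at e2
      have e3 := norm_le_norm_add_norm_sub' ((s j)⁻¹ • (rm P Ψ k k (tr (t j)) w - w)) (ξ w)
      rw [norm_smul, norm_inv, Real.norm_of_nonneg (h0 j).le] at e3
      rw [mul_comm, ← inv_mul_le_iff₀ (h0 j)]
      linarith [hw.2.2]
    have e4 : rm P Ψ k k (tr (t j)) w ∈ ball y ρ := by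
      have e5 := dist_triangle (rm P Ψ k k (tr (t j)) w) w y
      have e6 : dist w y < ρ / 2 := hw.2.1
      rw [dist_eq_norm (rm P Ψ k k (tr (t j)) w) w] at e5
      rw [mem_ball]
      linarith
    refine ⟨e1, e4, ?_⟩
    rw [← conj_tr, mul_assoc]
    exact (((u1 w (ball_subset_ball (half_lt_self hρ).le hw.2.1)).symm.trans (a w hw.1)).trans
      (u1 _ e4))
  obtain ⟨ρ', hρ', hb⟩ := Metric.eventually_nhds_iff_ball.1
    (((h.symm.loc hD).2.and ((h.symm.tendsto hD).eventually hN)).and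
      (isOpen_ball.eventually_mem hR1'))
  obtain ⟨ξ', a, b⟩ := mk hE hM hD (C₀ := C * (‖ξ y‖ + 2)) hρ'
    (fun v hv => ball_subset_closedBall (hb v hv).2) hR2' (by positivity) 𝓤
    (fun j => lin γ (t j)) s h0 hl (hJ.mono fun j c w' hw' => by
      obtain ⟨⟨d1, d2⟩, -⟩ := hb w' hw'
      obtain ⟨c1, c2, c3⟩ := c _ d2
      have e : rm P Ψ k l γ (rm P Ψ l k γ⁻¹ w') = w' := by
        have := d1.symm.rm_eq hD
        rwa [inv_inv] at this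
      have f := u2 _ c2 _ (ball_subset_ball (half_lt_self hρ).le d2.2.1)
      rw [e] at c3 f
      refine ⟨_, c3, f.trans ?_⟩
      rw [mul_assoc]
      gcongr)
  refine ⟨ξ', ⟨a, 𝓤, fun j => lin γ (t j), s, h0, hl, b⟩, ?_⟩
  filter_upwards [hN, (h.tendsto hD).eventually (isOpen_ball.eventually_mem hR1'),
    (h.liso hD).eventually] with w hw hw' hd
  have d1 : Tendsto (fun j => rm P Ψ k k (tr (t j)) w - w) 𝓤 (𝓝 0) :=
    squeeze_zero_norm' (hJ.mono fun j c => (c w hw).1) h1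
  have d2 := (hd.diff.hasFDerivAt.restrictScalars ℝ).hasFDerivWithinAt.lim (s := univ) d1
    (Eventually.of_forall fun _ => mem_univ _) (l2.tendsto_at hw.1)
  refine tendsto_nhds_unique d2 (((b R' hR2').2.tendsto_at hw').congr' ?_)
  filter_upwards [hJ] with j c
  rw [(c w hw).2.2.rm_eq hD, add_sub_cancel]

end LimExAux

theorem limEx (hU : UnifStmt X Z Y) (hE : ExtStmt X Z Y) (hM : MontelStmt Y) :
    LimExStmt X Z Y := fun _ _ hD =>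
  ⟨fun _ hT => LimExAux.ex hE hM hD hT, fun _ _ _ _ _ _ h hξ => LimExAux.tp hU hE hM hD h hξ⟩

end

end Pool.Agent.Lib.MP_813db1_ag.HS.E
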