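import Pool.Agent.Lib.MP_813db1_ag.HS.E.St
import Pool.Agent.Lib.MP_caab05_ag.GB.Osg

/-! Montel's theorem along an ultrafilter, and convergence of the derivatives. -/

namespace Pool.Agent.Lib.MP_813db1_ag.HS.E

open Set Filter Topology Metric Pool.Agent.Lib.MP_caab05_ag.GB.OsgAux

variable {Y : Type} [NormedAddCommGroup Y] [NormedSpace ℂ Y] [FiniteDimensional ℂ Y]

namespace MontelAux

lemma unif {𝓕 : Filter ℕ} [𝓕.NeBot] {F : ℕ → Y → Y} {ξ : Y → Y} {c : Y} {R r C : ℝ} (hr : 0 < r)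
    (hF : ∀ᶠ j in 𝓕, DifferentiableOn ℂ (F j) (ball c (R + r)) ∧
      ∀ y ∈ ball c (R + r), ‖F j y‖ ≤ C)
    (hξ : ∀ y ∈ ball c R, Tendsto (fun j => F j y) 𝓕 (𝓝 (ξ y))) :
    TendstoUniformlyOn F ξ 𝓕 (ball c R) := by
  have := FiniteDimensional.proper ℂ Y
  obtain ⟨K, hK, hKC⟩ : ∃ K : ℝ, 0 < K ∧ 2 * C / r ≤ K :=
    ⟨|2 * C / r| + 1, by positivity, by linarith [le_abs_self (2 * C / r)]⟩
  have hL : ∀ᶠ j in 𝓕, ∀ x ∈ ball c R, ∀ y ∈ ball c R, ‖F j y - F j x‖ ≤ K * ‖y - x‖ := by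
    filter_upwards [hF] with j hj x hx y hy
    exact (convex_ball c R).norm_image_sub_le_of_norm_fderiv_le (𝕜 := ℂ)
      (fun z hz => hj.1.differentiableAt
        (isOpen_ball.mem_nhds (ball_sub hz (mem_ball_self hr))))
      (fun z hz => (cauchy hr (hj.1.mono (ball_sub hz))
        fun w hw => hj.2 w (ball_sub hz hw)).trans hKC) hx hy
  rw [Metric.tendstoUniformlyOn_iff]
  intro ε hε
  obtain ⟨t, ht, hf, hc⟩ := finite_approx_of_totallyBounded
    ((isCompact_closedBall c R).totallyBounded.subset ball_subset_closedBall) (ε / (3 * K))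
    (by positivity)
  have h1 : ∀ᶠ j in 𝓕, ∀ y ∈ t, dist (F j y) (ξ y) < ε / 3 :=
    (eventually_all_finite hf).2 fun y hy =>
      Metric.tendsto_nhds.1 (hξ y (ht hy)) _ (by positivity)
  filter_upwards [hL, h1] with j hj hj1 x hx
  obtain ⟨y, hy, hxy⟩ := mem_iUnion₂.1 (hc hx)
  have h2 : K * ‖x - y‖ ≤ ε / 3 := by
    rw [mem_ball_iff_norm, lt_div_iff₀ (by positivity)] at hxy
    linarith
  have h3 : ‖ξ x - ξ y‖ ≤ K * ‖x - y‖ :=
    le_of_tendsto ((hξ x hx).sub (hξ y (ht hy))).norm (hL.mono fun i hi => hi y (ht hy) x hx)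
  have h4 := hj y (ht hy) x hx
  have h5 := hj1 y hy
  rw [← dist_eq_norm] at h3 h4
  linarith [dist_triangle4 (ξ x) (ξ y) (F j y) (F j x), dist_comm (ξ y) (F j y),
    dist_comm (F j y) (F j x)]

lemma der {𝓕 : Filter ℕ} [𝓕.NeBot] {F : ℕ → Y → Y} {ξ : Y → Y} {c : Y} {r : ℝ} (hr : 0 < r)
    (hF : ∀ᶠ j in 𝓕, DifferentiableOn ℂ (F j) (ball c (r + r)))
    (hu : TendstoUniformlyOn F ξ 𝓕 (ball c (r + r))) :
    ∃ D, HasFDerivAt ξ D c ∧ Tendsto (fun j => fderiv ℂ (F j) c) 𝓕 (𝓝 D) := by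
  have := FiniteDimensional.complete ℂ Y
  have hs : ball c r ⊆ ball c (r + r) := ball_subset_ball (by linarith)
  have hC : UniformCauchySeqOn (fun n => fderiv ℂ (F n)) 𝓕 (ball c r) := by
    intro u hu'
    obtain ⟨ε, hε, hεu⟩ := Metric.mem_uniformity_dist.1 hu'
    filter_upwards [hu.uniformCauchySeqOn _ (dist_mem_uniformity (ε := ε * r / 4) (by positivity)),
      hF.prod_mk hF] with m hm hd x hx
    have h1 := cauchy (f := fun y => F m.1 y - F m.2 y) (c := x) (M := ε * r / 4) hr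
      ((hd.1.sub hd.2).mono (ball_sub hx)) fun y hy => by
        have : dist (F m.1 y) (F m.2 y) < ε * r / 4 := hm y (ball_sub hx hy)
        rw [dist_eq_norm] at this
        exact this.le
    rw [fderiv_fun_sub (hd.1.differentiableAt (isOpen_ball.mem_nhds (hs hx)))
      (hd.2.differentiableAt (isOpen_ball.mem_nhds (hs hx)))] at h1
    refine hεu ?_
    rw [dist_eq_norm]
    have h2 : 2 * (ε * r / 4) / r = ε / 2 := by field_simp; ring
    linarith
  choose! D hD using fun x (hx : x ∈ ball c r) => CompleteSpace.complete (hC.cauchy_map hx)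
  have hn := ball_mem_nhds c hr
  refine ⟨D c, hasFDerivAt_of_tendstoUniformlyOnFilter
    (f' := fun n => fderiv ℂ (F n)) (l := 𝓕) (f := F) ?_ ?_ ?_, hD c (mem_ball_self hr)⟩
  · exact (hC.tendstoUniformlyOn_of_tendsto hD).tendstoUniformlyOnFilter.mono_right
      (le_principal_iff.2 hn)
  · filter_upwards [hF.prod_mk hn] with n h
    exact (h.1.differentiableAt (isOpen_ball.mem_nhds (hs h.2))).hasFDerivAt
  · filter_upwards [hn] with y hy using hu.tendsto_at (hs hy)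

end MontelAux

open MontelAux in
theorem montel : MontelStmt Y := by
  have := FiniteDimensional.proper ℂ Y
  refine ⟨fun 𝓤 F c R₀ h => ?_, fun 𝓕 _ F ξ c R hF hu => ?_⟩
  · have h1 : ∀ y, ∃ x, (y ∉ ball c R₀ → x = 0) ∧
        (y ∈ ball c R₀ → Tendsto (fun j => F j y) 𝓤 (𝓝 x)) := fun y => by
      by_cases hy : y ∈ ball c R₀
      · obtain ⟨R, hR, hR'⟩ := exists_between (mem_ball.1 hy)
        obtain ⟨C, hC⟩ := h R hR'
        obtain ⟨x, -, hx⟩ := (isCompact_closedBall (0 : Y) C).ultrafilter_le_nhds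
          (𝓤.map fun j => F j y) (le_principal_iff.2
            (hC.mono fun j hj => mem_closedBall_zero_iff.2 (hj.2 y hR)))
        exact ⟨x, fun h => absurd hy h, fun _ => hx⟩
      · exact ⟨0, fun _ => rfl, fun h => absurd h hy⟩
    choose ξ hξ using h1
    refine ⟨ξ, fun y => (hξ y).1, fun R hR => ?_⟩
    obtain ⟨C, hC⟩ := h (R + (R₀ - R) / 2) (by linarith)
    exact unif (by linarith) hC fun y hy => (hξ y).2 (ball_subset_ball hR.le hy)
  · have h1 : ∀ y ∈ ball c R, ∃ D, HasFDerivAt ξ D y ∧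
        Tendsto (fun j => fderiv ℂ (F j) y) 𝓕 (𝓝 D) := fun y hy => by
      obtain ⟨r, hr, hs⟩ := Metric.isOpen_iff.1 isOpen_ball y hy
      rw [← add_halves r] at hs
      exact der (half_pos hr) (hF.mono fun j hj => hj.mono hs) (hu.mono hs)
    refine ⟨fun y hy => ?_, fun y hy => ?_⟩ <;> obtain ⟨D, h2, h3⟩ := h1 y hy
    · exact h2.differentiableAt.differentiableWithinAt
    · rwa [h2.fderiv]

end Pool.Agent.Lib.MP_813db1_ag.HS.E
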