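import Pool.Agent.Lib.MP_813db1_ag.HS.E.Basic

/-! Commuting Killing fields with independent jets are independent at some point. -/

namespace Pool.Agent.Lib.MP_813db1_ag.HS.E

open Set Filter Topology Metric

variable {Y : Type} [NormedAddCommGroup Y] [NormedSpace ℂ Y] [NormedSpace ℝ Y]
  [IsScalarTower ℝ ℂ Y]

theorem rank : RankStmt Y := by
  classical
  intro g O r ξ hO hne hpos hdiff hcomm hkil hjet
  obtain ⟨I, hI, hmax⟩ := Finset.exists_max_image
    (Finset.univ.filter fun I : Finset (Fin r) =>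
      ∃ y ∈ O, LinearIndepOn ℝ (fun a => ξ a y) (I : Set (Fin r))) Finset.card
    ⟨∅, by
      obtain ⟨y, hy⟩ := hne
      simp only [Finset.mem_filter, Finset.mem_univ, true_and]
      exact ⟨y, hy, by simp⟩⟩
  simp only [Finset.mem_filter, Finset.mem_univ, true_and] at hI hmax
  obtain ⟨y0, hy0, hind⟩ := hI
  have hspan : ∀ y ∈ O, LinearIndepOn ℝ (fun a => ξ a y) (I : Set (Fin r)) → ∀ b,
      ξ b y ∈ Submodule.span ℝ (range fun i : (I : Set (Fin r)) => ξ i y) := by
    intro y hy hi b
    rw [show (range fun i : (I : Set (Fin r)) => ξ i y) = (fun a => ξ a y) '' I from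
      (image_eq_range (fun a => ξ a y) _).symm]
    by_contra hb
    have hbI : b ∉ I := fun h => hb (Submodule.subset_span ⟨b, h, rfl⟩)
    have := hmax (insert b I) ⟨y, hy, by
      rw [Finset.coe_insert]
      exact hi.insert hb⟩
    rw [Finset.card_insert_of_notMem hbI] at this
    omega
  refine ⟨y0, hy0, Fintype.linearIndependent_iff.2 fun c hc => ?_⟩
  have hd : ∀ a, HasFDerivAt (ξ a) ((fderiv ℂ (ξ a) y0).restrictScalars ℝ) y0 := fun a =>
    ((hdiff a).differentiableAt (hO.mem_nhds hy0)).hasFDerivAt.restrictScalars ℝ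
  set D : Y →L[ℝ] Y := ∑ a, c a • (fderiv ℂ (ξ a) y0).restrictScalars ℝ with hD
  have hDv : ∀ v, D v = ∑ a, c a • fderiv ℂ (ξ a) y0 v := fun v => by
    simp [hD]
  have hX : HasFDerivAt (fun w => ∑ a, c a • ξ a w) D y0 :=
    HasFDerivAt.fun_sum fun a _ => (hd a).fun_const_smul (c a)
  have hmem : ∀ v, D v ∈ Submodule.span ℝ (range fun i : (I : Set (Fin r)) => ξ i y0) := by
    intro v
    by_contra hv
    have h0 : LinearIndependent ℝ fun o : Option (I : Set (Fin r)) =>
        (Option.casesOn' o (D v) fun i => ξ i y0 : Y) := LinearIndependent.option hind hv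
    have hl : HasDerivAt (fun τ : ℝ => y0 + τ • v) v 0 := by
      simpa using ((hasDerivAt_id (0 : ℝ)).smul_const v).const_add y0
    have hl0 : Tendsto (fun τ : ℝ => y0 + τ • v) (𝓝[≠] 0) (𝓝 y0) := by
      simpa using hl.continuousAt.tendsto.mono_left nhdsWithin_le_nhds
    have h1 : HasDerivAt (fun τ : ℝ => ∑ a, c a • ξ a (y0 + τ • v)) (D v) 0 := by
      have hX' : HasFDerivAt (fun w => ∑ a, c a • ξ a w) D (y0 + (0 : ℝ) • v) := by
        simpa using hX
      exact hX'.comp_hasDerivAt 0 hl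
    have h2 := hasDerivAt_iff_tendsto_slope_zero.1 h1
    simp only [zero_add, zero_smul, add_zero, hc, sub_zero] at h2
    have h3 : Tendsto (fun τ : ℝ => fun o : Option (I : Set (Fin r)) =>
        (Option.casesOn' o (τ⁻¹ • ∑ a, c a • ξ a (y0 + τ • v)) fun i => ξ i (y0 + τ • v) : Y))
        (𝓝[≠] 0) (𝓝 fun o => Option.casesOn' o (D v) fun i => ξ i y0) := by
      refine tendsto_pi_nhds.2 fun o => ?_
      cases o with
      | none => exact h2
      | some i => exact (hd i).continuousAt.tendsto.comp hl0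
    obtain ⟨τ, ht1, ht2⟩ := ((h3.eventually (isOpen_setOfPred_linearIndependent.mem_nhds h0)).and
      (hl0.eventually (hO.mem_nhds hy0))).exists
    have ht3 := linearIndependent_option'.1 ht1
    exact ht3.2 (Submodule.smul_mem _ _ (Submodule.sum_mem _ fun a _ =>
      Submodule.smul_mem _ _ (hspan _ ht2 ht3.1 a)))
  have hker : ∀ w ∈ Submodule.span ℝ (range fun i : (I : Set (Fin r)) => ξ i y0), D w = 0 := by
    intro w hw
    refine (Submodule.span_le (p := LinearMap.ker (D : Y →ₗ[ℝ] Y))).2 ?_ hw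
    rintro _ ⟨i, rfl⟩
    show D (ξ i y0) = 0
    have := congrArg ((fderiv ℂ (ξ i) y0).restrictScalars ℝ) hc
    rw [map_sum, map_zero] at this
    rw [hDv, ← this]
    refine Finset.sum_congr rfl fun a _ => ?_
    rw [map_smul, hcomm a i y0 hy0]
    rfl
  have hskew : ∀ u v, g y0 (D u) v + g y0 u (D v) = 0 := by
    intro u v
    have h1 : ∑ a, c a * (fderiv ℝ g y0 (ξ a y0) u v + g y0 (fderiv ℂ (ξ a) y0 u) v +
        g y0 u (fderiv ℂ (ξ a) y0 v)) = 0 :=
      Finset.sum_eq_zero fun a _ => by rw [hkil a y0 hy0 u v, mul_zero]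
    have h2 : ∑ a, c a * fderiv ℝ g y0 (ξ a y0) u v = 0 := by
      have := congrArg (fun w => fderiv ℝ g y0 w u v) hc
      simpa using this
    simp only [mul_add, Finset.sum_add_distrib, h2, zero_add] at h1
    rw [hDv, hDv, ← h1]
    simp
  have hz : ∀ u, D u = 0 := by
    intro u
    by_contra hu
    have h1 := hskew u (D u)
    rw [hker _ (hmem u), map_zero, add_zero] at h1
    exact (hpos y0 hy0 _ hu).ne' h1
  exact congrFun (hjet y0 hy0 c hc fun v => by rw [← hDv, hz])

end Pool.Agent.Lib.MP_813db1_ag.HS.E
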