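import Pool.Agent.Lib.MP_813db1_ag.HS.E.Basic

/-! Recurrence along rays. -/

namespace Pool.Agent.Lib.MP_813db1_ag.HS.E

open Set Filter Topology Metric

noncomputable section

namespace RecAux

lemma lim_ex {E : Type} [TopologicalSpace E] (𝓤 : Ultrafilter ℕ) {K : Set E} (hK : IsCompact K)
    {f : ℕ → E} (h : ∀ᶠ j in (𝓤 : Filter ℕ), f j ∈ K) : ∃ a, Tendsto f 𝓤 (𝓝 a) := by
  obtain ⟨a, -, ha⟩ := hK.ultrafilter_le_nhds (𝓤.map f) (le_principal_iff.2 h)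
  exact ⟨a, ha⟩

/-- equi-Lipschitz maps with values in a compact set are uniformly Cauchy along an
ultrafilter -/
lemma cauchy {Y : Type} [NormedAddCommGroup Y] (𝓤 : Ultrafilter ℕ) {s K : Set Y}
    (hs : TotallyBounded s) (hK : IsCompact K) {φ : ℕ → Y → Y} {C : ℝ} (hC : 0 < C)
    (h : ∀ᶠ j in (𝓤 : Filter ℕ), (∀ w ∈ s, φ j w ∈ K) ∧
      ∀ w ∈ s, ∀ w' ∈ s, ‖φ j w - φ j w'‖ ≤ C * ‖w - w'‖) {τ : ℝ} (hτ : 0 < τ) :
    ∃ S ∈ (𝓤 : Filter ℕ), ∀ i ∈ S, ∀ j ∈ S, ∀ w ∈ s, ‖φ j w - φ i w‖ ≤ τ := by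
  obtain ⟨T, hTs, hT, hc⟩ := Metric.finite_approx_of_totallyBounded hs (τ / (4 * C))
    (by positivity)
  have h1 : ∀ t ∈ T, ∃ a, ∀ᶠ j in (𝓤 : Filter ℕ), ‖φ j t - a‖ < τ / 4 := fun t ht => by
    obtain ⟨a, ha⟩ := lim_ex 𝓤 hK (f := fun j => φ j t) (h.mono fun j hj => hj.1 t (hTs ht))
    exact ⟨a, (tendsto_iff_norm_sub_tendsto_zero.1 ha).eventually_lt_const (by positivity)⟩
  choose! a ha using h1
  refine ⟨_, h.and ((eventually_all_finite hT).2 ha), fun i hi j hj w hw => ?_⟩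
  obtain ⟨t, ht, hw'⟩ := mem_iUnion₂.1 (hc hw)
  have h2 : C * ‖w - t‖ ≤ τ / 4 := by
    have := mul_le_mul_of_nonneg_left (mem_ball_iff_norm.1 hw').le hC.le
    rwa [show C * (τ / (4 * C)) = τ / 4 by field_simp] at this
  have h3 := hi.1.2 w hw t (hTs ht)
  have h4 := hj.1.2 w hw t (hTs ht)
  have h5 := hi.2 t ht
  have h6 := hj.2 t ht
  have h7 : φ j w - φ i w =
      ((φ j w - φ j t) + (φ j t - a t)) - ((φ i w - φ i t) + (φ i t - a t)) := by abel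
  rw [h7]
  have := norm_sub_le ((φ j w - φ j t) + (φ j t - a t)) ((φ i w - φ i t) + (φ i t - a t))
  have := norm_add_le (φ j w - φ j t) (φ j t - a t)
  have := norm_add_le (φ i w - φ i t) (φ i t - a t)
  linarith

lemma dir {Z : Type} [NormedAddCommGroup Z] [InnerProductSpace ℂ Z] {u v : Z} (hu : ‖u‖ = 1)
    {t σ : ℝ} (ht : 0 < t) (hσ : σ < 1) (h : ‖v - (t : ℂ) • u‖ ≤ σ * t) :
    v ≠ 0 ∧ ‖((‖v‖⁻¹ : ℝ) : ℂ) • v - u‖ ≤ 2 * σ := by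
  have h1 : |‖v‖ - t| ≤ σ * t := by
    have := abs_norm_sub_norm_le v ((t : ℂ) • u)
    rw [norm_smul, hu, mul_one, Complex.norm_of_nonneg ht.le] at this
    exact this.trans h
  have hn : 0 < ‖v‖ := by nlinarith [(abs_le.1 h1).1]
  refine ⟨norm_pos_iff.1 hn, ?_⟩
  have e : ((‖v‖⁻¹ : ℝ) : ℂ) • v - u =
      ((‖v‖⁻¹ - t⁻¹ : ℝ) : ℂ) • v + ((t⁻¹ : ℝ) : ℂ) • (v - (t : ℂ) • u) := by
    rw [smul_sub, smul_smul, ← Complex.ofReal_mul, inv_mul_cancel₀ ht.ne', Complex.ofReal_one,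
      one_smul, Complex.ofReal_sub, sub_smul]
    abel
  have e2 : |‖v‖⁻¹ - t⁻¹| * ‖v‖ = t⁻¹ * |‖v‖ - t| := by
    rw [← abs_of_pos hn, ← abs_mul, abs_of_pos hn, abs_sub_comm, ← abs_of_pos (inv_pos.2 ht),
      ← abs_mul, abs_of_pos (inv_pos.2 ht)]
    congr 1
    field_simp
  have e3 : ∀ a : ℝ, a ≤ σ * t → t⁻¹ * a ≤ σ := fun a ha => by
    rw [inv_mul_le_iff₀ ht, mul_comm]; exact ha
  rw [e]
  refine (norm_add_le _ _).trans ?_
  rw [norm_smul, norm_smul, Complex.norm_real, Complex.norm_real, Real.norm_eq_abs, e2,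
    Real.norm_of_nonneg (inv_pos.2 ht).le]
  linarith [e3 _ h1, e3 _ h]

end RecAux

open RecAux

variable {X Z Y : Type} [TopologicalSpace X] [CompactSpace X]
  [NormedAddCommGroup Z] [InnerProductSpace ℂ Z] [FiniteDimensional ℂ Z]
  [NormedAddCommGroup Y] [NormedSpace ℂ Y] [NormedSpace ℝ Y] [FiniteDimensional ℂ Y]

theorem recS (hU : UnifStmt X Z Y) (hE : ExtStmt X Z Y) : RecStmt X Z Y := by
  intro P Ψ hD k u hu ε hε
  have : ProperSpace Y := FiniteDimensional.proper ℂ Y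
  have : ProperSpace (Z →L[ℂ] Z) := FiniteDimensional.proper ℂ _
  set 𝓤 := hyperfilter ℕ
  have hr := P.yr_pos k
  obtain ⟨x, hx⟩ := lim_ex 𝓤 isCompact_univ (f := fun j : ℕ => Ψ k (-(((j : ℝ) : ℂ) • u)) (P.yc k))
    (Eventually.of_forall fun _ => mem_univ _)
  obtain ⟨l, hl⟩ := P.cover x
  set p : ℕ → Z × Y := fun j => P.e l (Ψ k (-(((j : ℝ) : ℂ) • u)) (P.yc k))
  have hp : Tendsto p 𝓤 (𝓝 (P.e l x)) := ((P.e l).continuousAt hl).tendsto.comp hx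
  have hsrc := hx.eventually ((P.e l).open_source.mem_nhds hl)
  have hγ : ∀ j : ℕ, Ψ k (-(((j : ℝ) : ℂ) • u)) (P.yc k) ∈ (P.e l).source → ∃ γ : Mot Z,
      γ (-(((j : ℝ) : ℂ) • u)) = (p j).1 ∧ Rel P Ψ k l γ (P.yc k) (p j).2 := fun j hj =>
    hD.rel (P.yc_mem k) (P.of_src hj).2 (hD.psi_src hj).symm
  choose! γ hγ using hγ
  obtain ⟨R', hR1, hR2⟩ := exists_between (mem_ball.1 (P.of_src hl).2)
  obtain ⟨R'', hR3, hR4⟩ := exists_between hR2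
  obtain ⟨ρ1, hρ1, C1, hC1, h1⟩ := hU P Ψ hD k l (P.yr k / 2) R' (half_lt_self hr) hR2
  obtain ⟨ρ2, hρ2, C2, hC2, h2⟩ := hU P Ψ hD l k R'' (P.yr k / 2) hR4 (half_lt_self hr)
  have c1 : 0 < C1 := by linarith
  have c2 : 0 < C2 := by linarith
  obtain ⟨ρ, hρ, ρa, ρb, ρc⟩ : ∃ ρ > 0, ρ ≤ ρ1 ∧ ρ ≤ P.yr k / 2 ∧ C1 * ρ ≤ R'' - R' :=
    ⟨min ρ1 (min (P.yr k / 2) ((R'' - R') / C1)),
      lt_min hρ1 (lt_min (half_pos hr) (div_pos (sub_pos.2 hR3) c1)), min_le_left _ _,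
      (min_le_right _ _).trans (min_le_left _ _), by
        rw [mul_comm, ← le_div_iff₀ c1]; exact (min_le_right _ _).trans (min_le_right _ _)⟩
  have hb : ball (P.yc k) ρ ⊆ closedBall (P.yc k) (P.yr k / 2) :=
    ball_subset_closedBall.trans (closedBall_subset_closedBall ρb)
  obtain ⟨η, hη, C, hC, h3⟩ := hE P Ψ hD k (P.yc k) ρ (P.yr k / 2) hρ hb (half_lt_self hr)
  have c3 : 0 < C := by linarith
  obtain ⟨τ, hτ, τa, τb, τc, τd, τe⟩ : ∃ τ > 0, τ < ρ2 ∧ C2 * τ ≤ η ∧ C * (C2 * τ) ≤ ε ∧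
      4 * τ ≤ ε ∧ 4 * τ ≤ 1 := by
    have t0 : ∀ a b : ℝ, 0 < b → ∀ᶠ τ in 𝓝[>] (0 : ℝ), a * τ < b := fun a b hb =>
      nhdsWithin_le_nhds ((by fun_prop : ContinuousAt (fun τ : ℝ => a * τ) 0).eventually_lt
        continuousAt_const (by simpa using hb))
    obtain ⟨τ, a0, a1, a2, a3, a4, a5⟩ := (eventually_mem_nhdsWithin.and ((t0 1 _ hρ2).and
      ((t0 C2 _ hη).and ((t0 (C * C2) _ hε).and ((t0 4 _ hε).and (t0 4 _ one_pos)))))).exists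
    exact ⟨τ, a0, by linarith, a2.le, by linarith, a4.le, a5.le⟩
  have good : ∀ᶠ j in (𝓤 : Filter ℕ),
      (∀ w ∈ ball (P.yc k) ρ, Rel P Ψ k l (γ j) w (rm P Ψ k l (γ j) w)) ∧
      (∀ w ∈ ball (P.yc k) ρ, rm P Ψ k l (γ j) w ∈ closedBall (P.yc l) R'') ∧
      ∀ w ∈ ball (P.yc k) ρ, ∀ w' ∈ ball (P.yc k) ρ,
        ‖rm P Ψ k l (γ j) w - rm P Ψ k l (γ j) w'‖ ≤ C1 * ‖w - w'‖ := by
    filter_upwards [hsrc, hp.snd_nhds.eventually (isOpen_ball.mem_nhds (mem_ball.2 hR1))]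
      with j hj hj'
    obtain ⟨a, b⟩ := h1 (γ j) _ (mem_closedBall_self (half_pos hr).le) _
      (ball_subset_closedBall hj') (hγ j hj).2
    have hs := ball_subset_ball (x := P.yc k) ρa
    refine ⟨fun w hw => a w (hs hw), fun w hw => ?_, fun w hw w' hw' => b w (hs hw) w' (hs hw')⟩
    have := b w (hs hw) _ (mem_ball_self hρ1)
    rw [(hγ j hj).2.rm_eq hD, ← dist_eq_norm] at this
    have t1 := dist_triangle (rm P Ψ k l (γ j) w) (p j).2 (P.yc l)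
    have t2 := mul_le_mul_of_nonneg_left (mem_ball_iff_norm.1 hw).le c1.le
    have t3 := mem_ball.1 hj'
    rw [mem_closedBall]
    linarith
  obtain ⟨S, hS, hS'⟩ := cauchy 𝓤 ((isCompact_closedBall (P.yc k) ρ).totallyBounded.subset
    ball_subset_closedBall) (isCompact_closedBall _ _) c1
    (good.mono fun j hj => hj.2) hτ
  obtain ⟨A, hA⟩ := lim_ex 𝓤 (isCompact_closedBall (0 : Z →L[ℂ] Z) 1) (f := fun j => lin (γ j))
    (Eventually.of_forall fun j => mem_closedBall_zero_iff.2 (norm_lin_le _))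
  have all := hsrc.and (good.and ((show ∀ᶠ j in (𝓤 : Filter ℕ), j ∈ S from hS).and
    (((tendsto_iff_norm_sub_tendsto_zero.1 hA).eventually_lt_const (half_pos hτ)).and
      ((tendsto_iff_norm_sub_tendsto_zero.1 hp.fst_nhds).eventually_lt_const one_pos))))
  obtain ⟨i, i0, i1, i2, i3, i4⟩ := all.exists
  have big : ∀ᶠ j : ℕ in (𝓤 : Filter ℕ), ((i : ℝ) + 2) / τ ≤ j :=
    Nat.hyperfilter_le_atTop (tendsto_natCast_atTop_atTop.eventually_ge_atTop _)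
  obtain ⟨j, ⟨j0, j1, j2, j3, j4⟩, j5⟩ := (all.and big).exists
  rw [div_le_iff₀ hτ] at j5
  have hj : (0 : ℝ) < j := by
    have : (0 : ℝ) < j * τ := lt_of_lt_of_le (by positivity) j5
    exact (mul_pos_iff_of_pos_right hτ).1 this
  have hlin : ‖lin ((γ i)⁻¹ * γ j) - 1‖ ≤ τ := by
    rw [lin_mul, ← lin_inv_mul (γ i), ← mul_sub]
    refine (norm_mul_le _ _).trans ?_
    have t1 := norm_sub_le_norm_sub_add_norm_sub (lin (γ j)) A (lin (γ i))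
    rw [norm_sub_rev A] at t1
    have t2 := mul_le_mul_of_nonneg_right (norm_lin_le (γ i)⁻¹)
      (norm_nonneg (lin (γ j) - lin (γ i)))
    linarith
  have hdir : ‖((γ i)⁻¹ * γ j) 0 - ((j : ℝ) : ℂ) • u‖ ≤ 2 * τ * j := by
    have e1 := mot_sub ((γ i)⁻¹ * γ j) 0 (-(((j : ℝ) : ℂ) • u))
    rw [zero_sub, neg_neg, mot_mul _ _ (-_), (hγ j j0).1] at e1
    have e2 := norm_mot_sub (γ i)⁻¹ (p j).1 (p i).1
    rw [← (hγ i i0).1, mot_inv_apply, (hγ i i0).1, sub_neg_eq_add] at e2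
    have e3 : ((γ i)⁻¹ * γ j) 0 - ((j : ℝ) : ℂ) • u =
        (lin ((γ i)⁻¹ * γ j) - 1) (((j : ℝ) : ℂ) • u) +
          (((γ i)⁻¹ (p j).1 + ((i : ℝ) : ℂ) • u) - ((i : ℝ) : ℂ) • u) := by
      rw [sub_apply, ← e1, one_apply_eq_self]
      abel
    have n1 : ∀ m : ℕ, ‖((m : ℝ) : ℂ) • u‖ = m := fun m => by
      rw [norm_smul, hu, mul_one, Complex.norm_of_nonneg m.cast_nonneg]
    have t1 := (lin ((γ i)⁻¹ * γ j) - 1).le_opNorm (((j : ℝ) : ℂ) • u)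
    have t2 := norm_sub_le ((γ i)⁻¹ (p j).1 + ((i : ℝ) : ℂ) • u) (((i : ℝ) : ℂ) • u)
    have t3 := norm_sub_le_norm_sub_add_norm_sub (p j).1 (P.e l x).1 (p i).1
    rw [norm_sub_rev (P.e l x).1] at t3
    rw [n1] at t1
    rw [n1, e2] at t2
    have t4 := mul_le_mul_of_nonneg_right hlin hj.le
    rw [e3]
    refine (norm_add_le _ _).trans ?_
    linarith
  obtain ⟨d1, d2⟩ := dir hu hj (by linarith) hdir
  refine ⟨(γ i)⁻¹ * γ j, (h3 _ (C2 * τ) (by positivity) τb fun w hw => ?_).mono subset_rfl τc,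
    by linarith, d1, by linarith⟩
  obtain ⟨a, b⟩ := h2 (γ i)⁻¹ _ (i1.2.1 w hw) w (hb hw) (i1.1 w hw).symm
  have t1 := hS' i i2 j j2 w hw
  have hm : rm P Ψ k l (γ j) w ∈ ball (rm P Ψ k l (γ i) w) ρ2 :=
    mem_ball_iff_norm.2 (t1.trans_lt τa)
  refine ⟨_, (j1.1 w hw).trans (a _ hm), ?_⟩
  have := b _ hm _ (mem_ball_self hρ2)
  rw [(i1.1 w hw).symm.rm_eq hD] at this
  exact this.trans (mul_le_mul_of_nonneg_left t1 c2.le)

end

end Pool.Agent.Lib.MP_813db1_ag.HS.E
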