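import Pool.Agent.Lib.MP_813db1_ag.HS.E.Basic

/-! Existence of a tube of compact leaves without holonomy. -/

namespace Pool.Agent.Lib.MP_813db1_ag.HS.E

open Set Filter Topology Metric

noncomputable section

namespace TubeAux

/-- a multiplicative cocycle attached to a finite invariant family of spanning sets -/
theorem cocycle {Z κ : Type} [NormedAddCommGroup Z] [InnerProductSpace ℂ Z] [FiniteDimensional ℂ Z]
    [Finite κ] (F : κ → Set Z) (hF : ∀ k, (F k).Finite) (hs : ∀ k, Submodule.span ℂ (F k) = ⊤) :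
    ∃ (N : ℕ) (c : κ → ℂ), 0 < N ∧ (∀ k, c k ≠ 0) ∧ ∀ k l (γ : Mot Z),
      (∀ t ∈ F k, lin γ t ∈ F l) → (∀ t ∈ F l, lin γ⁻¹ t ∈ F k) → c l = (lin γ).det ^ N * c k := by
  classical
  have := Fintype.ofFinite κ
  let b := Module.finBasis ℂ Z
  have hT : ∀ k, {v : Fin (Module.finrank ℂ Z) → Z | (∀ i, v i ∈ F k) ∧ b.det v ≠ 0}.Finite :=
    fun k => (Finite.pi' fun _ => hF k).subset fun v hv => hv.1
  let T := fun k => (hT k).toFinset
  have hm : ∀ k v, v ∈ T k ↔ (∀ i, v i ∈ F k) ∧ b.det v ≠ 0 := fun k v => (hT k).mem_toFinset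
  have hne : ∀ k, 0 < (T k).card := by
    intro k
    have h1 : ∀ n, n = Module.finrank ℂ (Submodule.span ℂ (F k)) → ∃ f : Fin n → Z,
        (∀ i, f i ∈ F k) ∧ Submodule.span ℂ (range f) = Submodule.span ℂ (F k) ∧
          LinearIndependent ℂ f := by
      rintro n rfl
      exact Submodule.exists_fun_fin_finrank_span_eq ℂ (F k)
    obtain ⟨f, f1, f2, f3⟩ := h1 (Module.finrank ℂ Z) (by rw [hs, finrank_top])
    exact Finset.card_pos.2 ⟨f, (hm k f).2
      ⟨f1, (b.is_basis_iff_det.1 ⟨f3, f2.trans (hs k)⟩).ne_zero⟩⟩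
  have hd : ∀ (γ : Mot Z) v, b.det (fun i => lin γ (v i)) = (lin γ).det * b.det v := fun γ v =>
    b.det_comp (lin γ : Z →ₗ[ℂ] Z) v
  have hmap : ∀ k l (γ : Mot Z), (∀ t ∈ F k, lin γ t ∈ F l) → ∀ v ∈ T k,
      (fun i => lin γ (v i)) ∈ T l := by
    intro k l γ h v hv
    rw [hm] at hv ⊢
    refine ⟨fun i => h _ (hv.1 i), fun h0 => hv.2 ?_⟩
    have := hd γ⁻¹ fun i => lin γ (v i)
    simp only [lin_inv_apply] at this
    rw [show b.det v = b.det fun i => v i from rfl, this, h0, mul_zero]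
  refine ⟨∏ k, (T k).card, fun k => (∏ v ∈ T k, b.det v) ^ ((∏ k, (T k).card) / (T k).card),
    Finset.prod_pos fun k _ => hne k, fun k => pow_ne_zero _
      (Finset.prod_ne_zero_iff.2 fun v hv => ((hm k v).1 hv).2), fun k l γ h h' => ?_⟩
  have h1 : (T k).card = (T l).card :=
    Finset.card_nbij' (fun v i => lin γ (v i)) (fun v i => lin γ⁻¹ (v i)) (hmap k l γ h)
      (hmap l k γ⁻¹ h') (fun v _ => funext fun i => lin_inv_apply γ _)
      fun v _ => funext fun i => lin_apply_inv γ _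
  have h2 : ∏ v ∈ T k, (lin γ).det * b.det v = ∏ v ∈ T l, b.det v :=
    Finset.prod_nbij' (fun v i => lin γ (v i)) (fun v i => lin γ⁻¹ (v i)) (hmap k l γ h)
      (hmap l k γ⁻¹ h') (fun v _ => funext fun i => lin_inv_apply γ _)
      (fun v _ => funext fun i => lin_apply_inv γ _) fun v _ => (hd γ v).symm
  beta_reduce
  rw [← h2, ← h1, Finset.prod_mul_distrib, Finset.prod_const, mul_pow, ← pow_mul,
    Nat.mul_div_cancel' (Finset.dvd_prod_of_mem (fun k => (T k).card) (Finset.mem_univ k))]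

variable {X Z Y : Type} [TopologicalSpace X]
  [NormedAddCommGroup Z] [InnerProductSpace ℂ Z]
  [NormedAddCommGroup Y] [NormedSpace ℂ Y] [NormedSpace ℝ Y]
  {P : PAtlas X Z Y} {Ψ : P.ι → Z → Y → X} {k l : P.ι}

/-- the translations with trivial holonomy are transported by the linear parts -/
theorem lam_map (hE : ExtStmt X Z Y) (hD : Dev P Ψ) {γ : Mot Z} {y y' : Y}
    (h : Rel P Ψ k l γ y y') {t : Z} (ht : ∀ w ∈ P.B k, Rel P Ψ k k (tr t) w w) :
    ∀ w ∈ P.B l, Rel P Ψ l l (tr (lin γ t)) w w := by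
  refine fix_all (y := y') hE hD ((h.symm.loc hD).2.mono fun w hw => ?_)
  have := (hw.trans (ht _ hw.2.1)).trans hw.symm
  rwa [inv_inv, ← mul_assoc, conj_tr] at this

/-- finitely many motions act freely on a small open set, or trivially -/
theorem shrink [T2Space X] (hE : ExtStmt X Z Y) (hD : Dev P Ψ) {S : Set (Mot Z)} (hS : S.Finite)
    {O : Set Y} (h1 : IsOpen O) (h2 : O.Nonempty) (h3 : O ⊆ P.B k) :
    ∃ O' ⊆ O, IsOpen O' ∧ O'.Nonempty ∧ ∀ γ ∈ S, ∀ y ∈ O', ∀ y' ∈ O', Rel P Ψ k k γ y y' →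
      ∀ w ∈ P.B k, Rel P Ψ k k γ w w := by
  induction S, hS using Set.Finite.induction_on with
  | empty => exact ⟨O, Subset.rfl, h1, h2, fun _ h => h.elim⟩
  | @insert γ S _ _ ih =>
    obtain ⟨O', a1, a2, ⟨y, hy⟩, a4⟩ := ih
    by_cases hγ : ∀ w ∈ P.B k, Rel P Ψ k k γ w w
    · exact ⟨O', a1, a2, ⟨y, hy⟩, forall_mem_insert.2 ⟨fun _ _ _ _ _ => hγ, a4⟩⟩
    obtain ⟨y0, hy0, hn⟩ : ∃ y0 ∈ O', ¬ Rel P Ψ k k γ y0 y0 := by
      by_contra hc
      push Not at hc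
      exact hγ (fix_all hE hD (mem_of_superset (a2.mem_nhds hy) hc))
    have he : ∀ᶠ q : Y × Y in 𝓝 (y0, y0), ¬ Rel P Ψ k k γ q.1 q.2 := by
      by_contra hc
      have : (𝓝 (y0, y0) ⊓ 𝓟 {q : Y × Y | Rel P Ψ k k γ q.1 q.2}).NeBot :=
        frequently_iff_neBot.1 hc
      exact hn (Rel.closed hD (F := 𝓝 (y0, y0) ⊓ 𝓟 {q : Y × Y | Rel P Ψ k k γ q.1 q.2})
        ((continuous_fst.tendsto _).mono_left inf_le_left)
        ((continuous_snd.tendsto _).mono_left inf_le_left) (h3 (a1 hy0)) (h3 (a1 hy0))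
        (mem_inf_of_right (mem_principal_self _)))
    obtain ⟨ε, hε, hb⟩ := Metric.eventually_nhds_iff_ball.1 he
    refine ⟨O' ∩ ball y0 ε, inter_subset_left.trans a1, a2.inter isOpen_ball,
      ⟨y0, hy0, mem_ball_self hε⟩, forall_mem_insert.2 ⟨fun u hu u' hu' hr => ?_,
        fun δ hδ u hu u' hu' => a4 δ hδ u hu.1 u' hu'.1⟩⟩
    exact (hb (u, u') (by rw [← ball_prod_same]; exact ⟨hu.2, hu'.2⟩) hr).elim

end TubeAux

variable {X Z Y : Type} [TopologicalSpace X] [T2Space X]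
  [NormedAddCommGroup Z] [InnerProductSpace ℂ Z] [FiniteDimensional ℂ Z]
  [NormedAddCommGroup Y] [NormedSpace ℂ Y] [NormedSpace ℝ Y]

open TubeAux in
theorem tube (hE : ExtStmt X Z Y) (hF : FinStmt X Z Y) (hL : LatStmt X Z Y) : TubeStmt X Z Y := by
  intro P Ψ hD hT k₀ O h1 h2 h3
  have := P.fin
  choose r hr using fun k => hL P Ψ hD k (hT k)
  obtain ⟨R, hR⟩ := Finite.exists_le r
  obtain ⟨N, c, hN, hc, hrel⟩ := cocycle
    (fun k => {t : Z | ‖t‖ ≤ R ∧ ∀ y ∈ P.B k, Rel P Ψ k k (tr t) y y})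
    (fun k => ((hF P Ψ hD k 0 R (P.yr_pos k)).preimage (f := tr) fun _ _ _ _ => tr_inj).subset
      fun t ht => ⟨by rw [tr_zero_apply]; exact ht.1, _, mem_closedBall_self le_rfl, _,
        mem_closedBall_self le_rfl, ht.2 _ (P.yc_mem k)⟩)
    fun k => top_le_iff.1 ((hr k).2.ge.trans
      (Submodule.span_mono fun t ht => ⟨ht.1.trans (hR k), ht.2⟩))
  obtain ⟨y1, hy1⟩ := h2
  obtain ⟨R1, q1, q2⟩ := exists_between (show dist y1 (P.yc k₀) < P.yr k₀ from h3 hy1)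
  obtain ⟨O', a1, a2, ⟨y₀, hy₀⟩, a4⟩ := shrink hE hD (hF P Ψ hD k₀ R1 R q2)
    (h1.inter isOpen_ball) ⟨y1, hy1, q1⟩ (inter_subset_left.trans h3)
  obtain ⟨ρ, hρ, hb⟩ := nhds_basis_closedBall.mem_iff.1 (a2.mem_nhds hy₀)
  have hO : closedBall y₀ ρ ⊆ O := hb.trans (a1.trans inter_subset_left)
  refine ⟨N, c, y₀, ρ, R, hO, hN, hc, fun k l γ y y' h => hrel k l γ
    (fun t ht => ⟨by rw [norm_lin_apply]; exact ht.1, lam_map hE hD h ht.2⟩)
    (fun t ht => ⟨by rw [norm_lin_apply]; exact ht.1, lam_map hE hD h.symm ht.2⟩),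
    hρ, hO.trans h3, fun γ y hy y' hy' h w hw => ?_, fun z => ?_⟩
  · obtain ⟨t, t1, t2⟩ := (hr k₀).1 (γ 0)
    have hy1 := hb (ball_subset_closedBall hy)
    have hy2 := hb (ball_subset_closedBall hy')
    have h4 := h.trans (t2 _ h.2.1)
    have h5 := a4 _ ⟨by rw [mot_mul, tr_apply, add_comm]; exact t1.trans (hR k₀), y,
      ball_subset_closedBall (a1 hy1).2, y', ball_subset_closedBall (a1 hy2).2, h4⟩ y hy1 y' hy2 h4
      w hw
    have := h5.trans (t2 w hw).symm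
    rwa [inv_mul_cancel_left] at this
  · obtain ⟨t, t1, t2⟩ := (hr k₀).1 z
    exact ⟨z + t, t1.trans (hR k₀), fun y hy => by
      rw [← (t2 y hy).2.2 z, tr_apply, add_comm]⟩

end

end Pool.Agent.Lib.MP_813db1_ag.HS.E
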