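import Pool.Agent.Lib.MP_813db1_ag.HS.E.Basic

/-! Uniform domains and Lipschitz constants of the holonomy maps. -/

namespace Pool.Agent.Lib.MP_813db1_ag.HS.E

open Set Filter Topology Metric

variable {X Z Y : Type} [TopologicalSpace X] [T2Space X]
  [NormedAddCommGroup Z] [InnerProductSpace ℂ Z]
  [NormedAddCommGroup Y] [NormedSpace ℂ Y] [NormedSpace ℝ Y] [FiniteDimensional ℂ Y]

theorem unif : UnifStmt X Z Y := by
  intro P Ψ hD k l R R' hR hR'
  have : ProperSpace Y := FiniteDimensional.proper ℂ Y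
  obtain ⟨R1, hR1, hR2⟩ := exists_between hR
  obtain ⟨S1, hS1, hS2⟩ := exists_between hR'
  obtain ⟨C, hC, hb⟩ := (P.met k).iso_bound (P.met l) hR2 hS2
  have hC1 : 0 < C + 1 := by linarith
  refine ⟨min (R1 - R) ((S1 - R') / (C + 1)), lt_min (by linarith) (div_pos (by linarith) hC1),
    C, hC, fun γ y hy y' hy' h => ?_⟩
  set ρ := min (R1 - R) ((S1 - R') / (C + 1)) with hρ
  have m1 : ∀ w ∈ ball y ρ, w ∈ closedBall (P.yc k) R1 := fun w hw => by
    have a1 := (mem_ball.1 hw).trans_le (min_le_left _ _)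
    have a2 := mem_closedBall.1 hy
    have a3 := dist_triangle w y (P.yc k)
    rw [mem_closedBall]
    linarith
  have m2 : ∀ w ∈ ball y ρ, ∀ v, ‖v - y'‖ ≤ (C + 1) * ‖w - y‖ → v ∈ closedBall (P.yc l) S1 :=
    fun w hw v hv => by
      have a1 := (lt_div_iff₀' hC1).1 ((mem_ball.1 hw).trans_le (min_le_right _ _))
      have a2 := mem_closedBall.1 hy'
      have a3 := dist_triangle v y' (P.yc l)
      rw [dist_eq_norm] at a1
      rw [dist_eq_norm v y'] at a3
      rw [mem_closedBall]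
      linarith
  have key : ∀ w ∈ ball y ρ, Rel P Ψ k l γ w (rm P Ψ k l γ w) ∧
      ‖rm P Ψ k l γ w - y'‖ ≤ (C + 1) * ‖w - y‖ := by
    intro w hw
    have hy0 : y ∈ ball y ρ := mem_ball_self (dist_nonneg.trans_lt hw)
    set p : ℝ → Y := fun t => y + t • (w - y) with hp
    have pc : Continuous p := by fun_prop
    have pm : ∀ t ∈ Icc (0 : ℝ) 1, p t ∈ ball y ρ := fun t ht =>
      (convex_ball y ρ).add_smul_sub_mem hy0 hw ht
    have pn : ∀ t ∈ Icc (0 : ℝ) 1, (C + 1) * (t * ‖w - y‖) ≤ (C + 1) * ‖w - y‖ := fun t ht =>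
      mul_le_mul_of_nonneg_left (mul_le_of_le_one_left (norm_nonneg _) ht.2) hC1.le
    have hs : Icc (0 : ℝ) 1 ⊆ {t | Rel P Ψ k l γ (p t) (rm P Ψ k l γ (p t)) ∧
        ‖rm P Ψ k l γ (p t) - y'‖ ≤ (C + 1) * (t * ‖w - y‖)} := by
      refine IsClosed.Icc_subset_of_forall_mem_nhdsWithin ?_ ?_ ?_
      · refine isClosed_iff_ultrafilter.2 fun t u hu hm => ?_
        have ht : t ∈ Icc (0 : ℝ) 1 :=
          isClosed_iff_ultrafilter.1 isClosed_Icc t u hu (mem_of_superset hm inter_subset_right)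
        obtain ⟨v, hv, hlim⟩ := (isCompact_closedBall y' ((C + 1) * ‖w - y‖)).ultrafilter_le_nhds
          (u.map fun τ => rm P Ψ k l γ (p τ)) (le_principal_iff.2 (mem_map.2 (mem_of_superset hm
            fun τ hτ => mem_closedBall_iff_norm.2 (hτ.1.2.trans (pn τ hτ.2)))))
        have hlim' : Tendsto (fun τ => rm P Ψ k l γ (p τ)) u (𝓝 v) := hlim
        have hr : Rel P Ψ k l γ (p t) v := Rel.closed hD (F := u) (pc.continuousAt.tendsto.mono_left hu)
          hlim' (closedBall_subset_ball hR2 (m1 _ (pm t ht)))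
          (closedBall_subset_ball hS2 (m2 w hw v (mem_closedBall_iff_norm.1 hv)))
          (mem_of_superset hm fun τ hτ => hτ.1.1)
        refine ⟨⟨hr.rm hD, ?_⟩, ht⟩
        rw [hr.rm_eq hD]
        have c2 : Continuous fun τ : ℝ => (C + 1) * (τ * ‖w - y‖) := by fun_prop
        exact le_of_tendsto_of_tendsto (hlim'.sub_const y').norm
          (c2.continuousAt.tendsto.mono_left hu) (mem_of_superset hm fun τ hτ => hτ.1.2)
      · have e : p 0 = y := by simp [hp]
        refine ⟨by rw [e]; exact h.rm hD, ?_⟩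
        rw [e, h.rm_eq hD]
        simp
      · rintro t ⟨⟨h1, h2⟩, ht⟩
        have ht' := Ico_subset_Icc_self ht
        obtain ⟨l1, l2⟩ := h1.loc hD
        have b1 := (hb _ _ (m1 _ (pm t ht')) (m2 w hw _ (h2.trans (pn t ht'))) l1).1
        have b2 := l1.diff.hasFDerivAt.isLittleO.bound one_pos
        filter_upwards [nhdsWithin_le_nhds (pc.continuousAt.eventually (l2.and b2)),
          self_mem_nhdsWithin] with τ hτ hgt
        refine ⟨hτ.1, ?_⟩
        have e : ‖p τ - p t‖ = (τ - t) * ‖w - y‖ := by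
          rw [hp]
          simp only [add_sub_add_left_eq_sub, ← sub_smul]
          rw [norm_smul, Real.norm_of_nonneg (sub_nonneg.2 (le_of_lt hgt))]
        have b3 := ((fderiv ℂ (rm P Ψ k l γ) (p t)).le_opNorm (p τ - p t)).trans
          (mul_le_mul_of_nonneg_right b1 (norm_nonneg _))
        have b4 := hτ.2
        have b5 := norm_add₃_le (a := rm P Ψ k l γ (p τ) - rm P Ψ k l γ (p t) -
          fderiv ℂ (rm P Ψ k l γ) (p t) (p τ - p t))
          (b := fderiv ℂ (rm P Ψ k l γ) (p t) (p τ - p t)) (c := rm P Ψ k l γ (p t) - y')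
        rw [sub_add_cancel, sub_add_sub_cancel] at b5
        rw [e] at b3 b4
        linarith
    have := hs (right_mem_Icc.2 zero_le_one)
    simpa [hp] using this
  refine ⟨fun w hw => (key w hw).1, fun w hw w' hw' => ?_⟩
  exact (convex_ball y ρ).norm_image_sub_le_of_norm_fderiv_le (𝕜 := ℂ)
    (fun x hx => ((key x hx).1.liso hD).diff)
    (fun x hx => (hb _ _ (m1 x hx) (m2 x hx _ (key x hx).2) ((key x hx).1.liso hD)).1) hw' hw

end Pool.Agent.Lib.MP_813db1_ag.HS.E
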