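import Pool.Agent.Lib.MP_813db1_ag.HS.E.Dev
import Pool.Agent.Lib.MP_813db1_ag.HS.E.Unif
import Pool.Agent.Lib.MP_813db1_ag.HS.E.Jet
import Pool.Agent.Lib.MP_813db1_ag.HS.E.Gron
import Pool.Agent.Lib.MP_813db1_ag.HS.E.Ext
import Pool.Agent.Lib.MP_813db1_ag.HS.E.Fin
import Pool.Agent.Lib.MP_813db1_ag.HS.E.Rec
import Pool.Agent.Lib.MP_813db1_ag.HS.E.Comm
import Pool.Agent.Lib.MP_813db1_ag.HS.E.Buser
import Pool.Agent.Lib.MP_813db1_ag.HS.E.Trans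
import Pool.Agent.Lib.MP_813db1_ag.HS.E.Montel
import Pool.Agent.Lib.MP_813db1_ag.HS.E.Lim
import Pool.Agent.Lib.MP_813db1_ag.HS.E.LimEx
import Pool.Agent.Lib.MP_813db1_ag.HS.E.Rank
import Pool.Agent.Lib.MP_813db1_ag.HS.E.Kill
import Pool.Agent.Lib.MP_813db1_ag.HS.E.Tube

/-! The alternative: a tube of compact leaves, or an invariant family of Killing fields. -/

namespace Pool.Agent.Lib.MP_813db1_ag.HS.E

open Set Metric

variable {X Z Y : Type} [TopologicalSpace X] [T2Space X] [CompactSpace X] [ConnectedSpace X]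
  [NormedAddCommGroup Z] [InnerProductSpace ℂ Z] [FiniteDimensional ℂ Z]
  [NormedAddCommGroup Y] [NormedSpace ℂ Y] [NormedSpace ℝ Y] [IsScalarTower ℝ ℂ Y]
  [FiniteDimensional ℂ Y]

theorem alt (P : PAtlas X Z Y) : ∃ Ψ, Dev P Ψ ∧ ((∃ r ξ, Fields P Ψ r ξ) ∨
    ∀ k₀ (O : Set Y), IsOpen O → O.Nonempty → O ⊆ P.B k₀ →
      ∃ N c y₀ ρ R, closedBall y₀ ρ ⊆ O ∧ Tube P Ψ N c k₀ y₀ ρ R) := by
  have hU : UnifStmt X Z Y := unif
  have hE : ExtStmt X Z Y := ext jet gron hU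
  have hF : FinStmt X Z Y := fin hU
  obtain ⟨Ψ, hD⟩ := dev P
  refine ⟨Ψ, hD, ?_⟩
  rcases kill jet gron (limS montel) (limEx hU hE montel) rank P Ψ hD with h | h
  · exact Or.inr (tube hE hF (lat (trans hF (recS hU hE) (comm hU hE) buser)) P Ψ hD h)
  · exact Or.inl h

end Pool.Agent.Lib.MP_813db1_ag.HS.E
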