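import Pool.Agent.Lib.MP_813db1_ag.HS.StmtE
import Pool.Agent.Lib.MP_813db1_ag.HS.Calc

/-! Product covers give product atlases. -/

namespace Pool.Agent.Lib.MP_813db1_ag.HS

open Complex Matrix Filter Topology Set Metric
open scoped ContDiff ComplexOrder

noncomputable section

namespace AtlAux

/-- a holomorphic map with block derivative, unitary along the first factor, is a product of a
motion and a map of the second factor. -/
lemma prodLoc {Z Y : Type} [NormedAddCommGroup Z] [InnerProductSpace ℂ Z] [FiniteDimensional ℂ Z]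
    [NormedAddCommGroup Y] [NormedSpace ℂ Y] [CompleteSpace Y] (T : Z × Y → Z × Y) (p0 : Z × Y)
    (h : ∀ᶠ p in 𝓝 p0, AnalyticAt ℂ T p ∧
      (∀ v, (fderiv ℂ T p (v, 0)).2 = 0 ∧ ‖(fderiv ℂ T p (v, 0)).1‖ = ‖v‖) ∧
      ∀ y, (fderiv ℂ T p (0, y)).1 = 0) :
    ∃ γ : E.Mot Z, ∀ᶠ p in 𝓝 p0, T p = (γ p.1, (T (p0.1, p.2)).2) := by
  obtain ⟨ρ, hρ, hb⟩ := Metric.eventually_nhds_iff_ball.1 h
  have hcZ : CompleteSpace Z := FiniteDimensional.complete ℂ Z
  have hs : StrictConvexSpace ℝ Z := by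
    let _ : InnerProductSpace ℝ Z := InnerProductSpace.complexToReal
    exact UniformConvexSpace.toStrictConvexSpace
  have h0 : p0 ∈ ball p0 ρ := mem_ball_self hρ
  have hc : IsPreconnected (ball p0 ρ) := (convex_ball p0 ρ).isPreconnected
  have hA : ∀ v, ∀ p ∈ ball p0 ρ, (fderiv ℂ T p (v, 0)).1 = (fderiv ℂ T p0 (v, 0)).1 := by
    intro v p hp
    refine Complex.eqOn_of_isPreconnected_of_isMaxOn_norm (f := fun q => (fderiv ℂ T q (v, 0)).1)
      hc isOpen_ball (fun q hq => ?_) h0 (fun q hq => ?_) hp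
    · exact (((hb q hq).1.fderiv.differentiableAt.clm_apply
        (differentiableAt_const _)).fst).differentiableWithinAt
    · exact (((hb q hq).2.1 v).2.trans ((hb p0 h0).2.1 v).2.symm).le
  let A : Z →L[ℂ] Z :=
    (ContinuousLinearMap.fst ℂ Z Y) ∘L (fderiv ℂ T p0) ∘L (ContinuousLinearMap.inl ℂ Z Y)
  let A1 : Z →ₗᵢ[ℂ] Z := ⟨A.toLinearMap, fun v => ((hb p0 h0).2.1 v).2⟩
  let A2 : Z ≃ₗᵢ[ℂ] Z := A1.toLinearIsometryEquiv rfl
  refine ⟨E.tr ((T p0).1 - A p0.1) * A2.toAffineIsometryEquiv, ?_⟩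
  filter_upwards [ball_mem_nhds p0 hρ] with p hp
  refine Prod.ext ?_ ?_
  · have hd : ∀ q ∈ ball p0 ρ, HasFDerivAt (fun q : Z × Y => (T q).1 - A q.1)
        (0 : Z × Y →L[ℂ] Z) q := by
      intro q hq
      have h1 := ((hb q hq).1.differentiableAt.hasFDerivAt.fst).sub
        (A.hasFDerivAt.comp q (hasFDerivAt_fst (𝕜 := ℂ) (p := q)))
      refine h1.congr_fderiv ?_
      refine ContinuousLinearMap.ext fun w => ?_
      have e : w = (w.1, 0) + (0, w.2) := by simp
      show (fderiv ℂ T q w).1 - (fderiv ℂ T p0 (w.1, 0)).1 = 0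
      rw [← hA w.1 q hq]
      conv_lhs => rw [e, map_add, Prod.fst_add, (hb q hq).2.2]
      simp
    have h2 := isOpen_ball.is_const_of_fderiv_eq_zero (𝕜 := ℂ) hc
      (fun q hq => (hd q hq).differentiableAt.differentiableWithinAt)
      (fun q hq => (hd q hq).fderiv) hp h0
    show (T p).1 = (T p0).1 - A p0.1 + A p.1
    rw [← h2, sub_add_cancel]
  · have hm : ∀ z ∈ ball p0.1 ρ, (z, p.2) ∈ ball p0 ρ := by
      intro z hz
      rw [← ball_prod_same] at hp ⊢
      exact ⟨hz, hp.2⟩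
    have hd : ∀ z ∈ ball p0.1 ρ, HasFDerivAt (fun z : Z => (T (z, p.2)).2) (0 : Z →L[ℂ] Y) z := by
      intro z hz
      have h1 := ((hb _ (hm z hz)).1.differentiableAt.hasFDerivAt.comp z
        (hasFDerivAt_prodMk_left (𝕜 := ℂ) z p.2)).snd
      refine h1.congr_fderiv ?_
      exact ContinuousLinearMap.ext fun v => ((hb _ (hm z hz)).2.1 v).1
    have hp1 : p.1 ∈ ball p0.1 ρ := by
      rw [← ball_prod_same] at hp
      exact hp.1
    exact isOpen_ball.is_const_of_fderiv_eq_zero (𝕜 := ℂ) (convex_ball p0.1 ρ).isPreconnected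
      (fun q hq => (hd q hq).differentiableAt.differentiableWithinAt)
      (fun q hq => (hd q hq).fderiv) hp1 (mem_ball_self hρ)

variable {ι : Type} [Fintype ι] [DecidableEq ι]

omit [DecidableEq ι] in
lemma ipV_eq (H : Mat ι) (a b : V ι) : ipV H a b = a ⬝ᵥ H *ᵥ star b := by
  simp only [ipV, dotProduct, mulVec, Finset.mul_sum, Pi.star_apply]
  refine Finset.sum_congr rfl fun i _ => Finset.sum_congr rfl fun j _ => ?_
  ring

omit [DecidableEq ι] in
lemma ipV_pull (J H : Mat ι) (a b : V ι) : ipV (pull J H) a b = ipV H (J *ᵥ a) (J *ᵥ b) := by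
  have e : J.map star *ᵥ star b = star (J *ᵥ b) := by
    ext i
    simp [mulVec, dotProduct]
  rw [ipV_eq, ipV_eq, pull, ← mulVec_mulVec, ← mulVec_mulVec, e, dotProduct_mulVec,
    vecMul_transpose]

omit [DecidableEq ι] in
lemma ipV_symm {H : Mat ι} (h : H.IsHermitian) (a b : V ι) : (ipV H a b).re = (ipV H b a).re := by
  have e : ipV H a b = star (ipV H b a) := by
    simp only [ipV, star_sum, star_mul', star_star]
    rw [Finset.sum_comm]
    refine Finset.sum_congr rfl fun i _ => Finset.sum_congr rfl fun j _ => ?_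
    rw [h.apply]
    ring
  rw [e]
  rfl

omit [DecidableEq ι] in
lemma ipV_pos {H : Mat ι} (h : H.PosDef) {a : V ι} (ha : a ≠ 0) : 0 < (ipV H a a).re := by
  have h1 := h.re_dotProduct_pos (x := star a) (star_ne_zero.2 ha)
  rw [star_star] at h1
  rw [ipV_eq]
  exact h1

lemma met {G : V ι → Mat ι} {U U' : Set (V ι)} (h : KOn G U) (hU : U' ⊆ U) :
    E.Met (fun y => rb (G y)) U' where
  smooth := by
    refine contDiffOn_clm_apply.2 fun u => contDiffOn_clm_apply.2 fun v => ?_
    intro y hy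
    refine ContDiffAt.contDiffWithinAt ?_
    have h1 : ContDiffAt ℝ 2 (fun y => ipV (G y) u v) y := by
      unfold ipV
      refine ContDiffAt.sum fun i _ => ContDiffAt.sum fun j _ => ?_
      exact (((h.1.1 y (hU hy) i j).of_le (by decide)).mul contDiffAt_const).mul
        contDiffAt_const
    exact Complex.reCLM.contDiff.contDiffAt.comp y h1
  symm := fun y hy u v => ipV_symm (h.1.2.1 y (hU hy)) u v
  pos := fun y hy u hu => ipV_pos (h.2 y (hU hy)) hu

/-- the norm of a flat vector -/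
lemma ipV_rows {s : Finset ι} {H : Mat ι} (h : Rows s 1 H) {a : V ι} (ha : yp s a = 0) :
    (ipV H a a).re = ‖(split s a).1‖ ^ 2 := by
  have h0 : ∀ i, i ∉ s → a i = 0 := fun i hi => congrFun ha ⟨i, hi⟩
  have e : ipV H a a = ∑ i : {i // i ∈ s}, a i.1 * star (a i.1) := by
    rw [ipV, Finset.sum_coe_sort s (fun i => a i * star (a i)),
      ← Finset.sum_subset (Finset.subset_univ s) (fun i _ hi => by simp [h0 i hi])]
    refine Finset.sum_congr rfl fun i hi => ?_
    simp [h i hi]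
  rw [e, EuclideanSpace.norm_sq_eq, Complex.re_sum]
  refine Finset.sum_congr rfl fun i _ => ?_
  rw [RCLike.star_def, Complex.mul_conj, Complex.ofReal_re, Complex.normSq_eq_norm_sq]
  rfl

lemma blk_yp {s : Finset ι} {J : Mat ι} (h : Blk s J) {a : V ι} (ha : yp s a = 0) :
    yp s (J *ᵥ a) = 0 := by
  funext p
  refine Finset.sum_eq_zero fun i _ => ?_
  by_cases hi : i ∈ s
  · exact mul_eq_zero_of_left (h p.1 i (by simp [hi, p.2])) _
  · exact mul_eq_zero_of_right _ (congrFun ha ⟨i, hi⟩)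

lemma blk_zp {s : Finset ι} {J : Mat ι} (h : Blk s J) {a : V ι} (ha : zp s a = 0) :
    zp s (J *ᵥ a) = 0 := by
  funext p
  refine Finset.sum_eq_zero fun i _ => ?_
  by_cases hi : i ∈ s
  · exact mul_eq_zero_of_right _ (congrFun ha ⟨i, hi⟩)
  · exact mul_eq_zero_of_left (h p.1 i (by simp [hi, p.2])) _

/-- the local product form of a change of coordinates -/
lemma loc (s : Finset ι) (τ : V ι → V ι) (w0 : V ι)
    (h : ∀ᶠ w in 𝓝 w0, AnalyticAt ℂ τ w ∧ Blk s (jac τ w) ∧
      ∃ H, Rows s 1 H ∧ Rows s 1 (pull (jac τ w) H)) :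
    ∃ γ : E.Mot (ZZ s), ∀ᶠ w in 𝓝 w0,
      split s (τ w) = (γ (split s w).1, yp s (τ (glue s (zp s w0) (yp s w)))) := by
  have ht : Tendsto (split s).symm (𝓝 (split s w0)) (𝓝 w0) := by
    have := (split s).symm.continuous.tendsto (split s w0)
    rwa [ContinuousLinearEquiv.symm_apply_apply] at this
  obtain ⟨γ, hγ⟩ := prodLoc (fun p => split s (τ ((split s).symm p))) (split s w0) (by
    filter_upwards [ht.eventually h] with p hp
    obtain ⟨h1, h2, H, h3, h4⟩ := hp
    have hd : ∀ q, fderiv ℂ (fun p => split s (τ ((split s).symm p))) p q =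
        split s (jac τ ((split s).symm p) *ᵥ (split s).symm q) := by
      intro q
      have := ((split s).hasFDerivAt.comp p (h1.differentiableAt.hasFDerivAt.comp p
        (split s).symm.hasFDerivAt)).fderiv
      rw [jac_mulVec]
      exact congrArg (fun L => L q) this
    refine ⟨((split s).analyticAt _).comp (h1.comp ((split s).symm.analyticAt _)),
      fun v => ?_, fun y => ?_⟩
    · have hy : yp s ((split s).symm (v, 0)) = 0 := yp_glue s _ _
      have hy' := blk_yp h2 hy
      rw [hd]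
      refine ⟨hy', ?_⟩
      have e := ipV_rows h4 hy
      rw [ipV_pull, ipV_rows h3 hy', ContinuousLinearEquiv.apply_symm_apply] at e
      exact (pow_left_inj₀ (norm_nonneg _) (norm_nonneg _) two_ne_zero).1 e
    · have hz : zp s ((split s).symm (0, y)) = 0 := zp_glue s _ _
      rw [hd, split_apply, blk_zp h2 hz]
      rfl)
  refine ⟨γ, ?_⟩
  filter_upwards [((split s).continuous.tendsto w0).eventually hγ] with w hw
  rw [ContinuousLinearEquiv.symm_apply_apply] at hw
  exact hw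

end AtlAux

open AtlAux in
theorem atlS (hT : TrvS) (hA : RepA) (hR : RowsS) : AtlS := by
  intro ι X _ _ _ M g C s hK hP
  have hrows : Rows' C s 1 g := hR.rows ι X M C s 1 g hK one_pos fun a z hz => by
    simpa using hP.1 a z (C.ball_sub a le_rfl hz)
  refine ⟨fun a => met (hrows.kon a) (ball_subset_ball (by have := C.pos a; linarith)), ?_⟩
  intro a b x hxa hxb
  obtain ⟨ha1, ha2⟩ := (C.mem_pch s a x).1 hxa
  obtain ⟨hb1, hb2⟩ := (C.mem_pch s b x).1 hxb
  have hta : Tendsto (C.e a).symm (𝓝 (C.e a x)) (𝓝 x) := (C.e a).tendsto_symm ha1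
  have htg : ∀ᶠ w in 𝓝 (C.e a x), w ∈ (C.e a).target :=
    (C.e a).open_target.mem_nhds ((C.e a).map_source ha1)
  obtain ⟨γ, hγ⟩ := loc s (C.e b ∘ (C.e a).symm) (C.e a x) (by
    filter_upwards [htg, hta.eventually ((C.e b).open_source.mem_nhds hb1)] with w h1 h2
    have h3 := (C.e a).map_target h1
    have h4 := (C.e a).right_inv h1
    have h5 := M.hol _ (C.mem a) _ (C.mem b) _ h3 h2
    have h6 := hP.2 a b _ h3 h2
    have h7 := (hA ι X M).repF_tr g _ (C.mem a) _ (C.mem b) _ h3 h2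
    have h8 := hP.1 a w h1
    unfold tj at h6 h7
    rw [h4] at h5 h6 h7
    rw [h7] at h8
    exact ⟨h5, h6, _, hP.1 b _ ((C.e b).map_source h2), h8⟩)
  have hgl : AnalyticAt ℂ (fun y : YY s => glue s (zp s (C.e a x)) y) (yp s (C.e a x)) :=
    ((split s).symm.analyticAt _).comp
      (f := fun y : YY s => (WithLp.toLp 2 (zp s (C.e a x)), y))
      (analyticAt_const.prod analyticAt_id)
  have hφ : AnalyticAt ℂ (fun y : YY s => yp s ((C.e b ∘ (C.e a).symm) (glue s (zp s (C.e a x)) y)))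
      (yp s (C.e a x)) := by
    have h1 : AnalyticAt ℂ (C.e b ∘ (C.e a).symm) (glue s (zp s (C.e a x)) (yp s (C.e a x))) := by
      rw [glue_zp_yp]
      exact M.hol _ (C.mem a) _ (C.mem b) _ ha1 hb1
    exact analyticAt_snd.comp (((split s).analyticAt _).comp (h1.comp hgl))
  have hev : ∀ᶠ x' in 𝓝 x, C.pch s b x' = (γ (C.pch s a x').1,
      yp s ((C.e b ∘ (C.e a).symm) (glue s (zp s (C.e a x)) (C.pch s a x').2))) := by
    filter_upwards [((C.e a).continuousAt ha1).eventually hγ, (C.e a).open_source.mem_nhds ha1]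
      with x' h1 h2
    rw [Function.comp_apply, (C.e a).left_inv h2] at h1
    exact h1
  refine ⟨γ, fun y => yp s ((C.e b ∘ (C.e a).symm) (glue s (zp s (C.e a x)) y)), ?_, hev⟩
  have h1 := (hT ι X M g g C s 1 a b x _ hP hrows ha1 hb1 (by have := C.pos a; linarith)
    (by have := C.pos b; linarith) hφ (hev.mono fun x' h => congrArg Prod.snd h)).2
  have hg : Tendsto (fun y : YY s => glue s (zp s (C.e a x)) y) (𝓝 (yp s (C.e a x)))
      (𝓝 (C.e a x)) := by
    have := hgl.continuousAt.tendsto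
    rwa [glue_zp_yp] at this
  filter_upwards [(hta.comp hg).eventually h1, hg.eventually htg, hφ.eventually_analyticAt]
    with y h2 h3 h4
  refine ⟨h4.differentiableAt, fun u v => ?_⟩
  rw [Function.comp_apply, (C.e a).right_inv h3, yp_glue] at h2
  show rb _ _ _ = rb _ _ _
  rw [rb_apply, rb_apply, h2, ipV_pull, jac_mulVec, jac_mulVec]
  rfl

end

end Pool.Agent.Lib.MP_813db1_ag.HS
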