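import Pool.Agent.Lib.MP_813db1_ag.HS.StmtE
import Pool.Agent.Lib.MP_813db1_ag.HS.Calc

/-! The Bochner argument: there are no invariant transversal fields. -/

namespace Pool.Agent.Lib.MP_813db1_ag.HS

open MeasureTheory Complex Matrix Filter Topology Set Metric
open scoped ContDiff ComplexOrder

noncomputable section

namespace BochAux

variable {τ : Type} [Fintype τ] [DecidableEq τ] {q : ℕ}

/-- the Gram matrix. -/
def gr (H : Mat τ) (x : Fin q → V τ) : Matrix (Fin q) (Fin q) ℂ :=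
  Matrix.of fun a b => ipV H (x a) (x b)

omit [DecidableEq τ] in
theorem gr_eq (H : Mat τ) (x : Fin q → V τ) : gr H x = Matrix.of x * H * (Matrix.of x)ᴴ := by
  ext a b
  simp only [gr, ipV, Matrix.of_apply, Matrix.mul_apply, conjTranspose_apply, Finset.sum_mul]
  rw [Finset.sum_comm]
  exact Finset.sum_congr rfl fun i _ => Finset.sum_congr rfl fun j _ => by ring

omit [DecidableEq τ] in
theorem gr_dep (H : Mat τ) {x : Fin q → V τ} (h : ¬ LinearIndependent ℂ x) : (gr H x).det = 0 := by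
  obtain ⟨c, h1, i, h2⟩ := Fintype.not_linearIndependent_iff.1 h
  refine Matrix.exists_vecMul_eq_zero_iff.1 ⟨c, fun e => h2 (congrFun e i), ?_⟩
  have h3 : c ᵥ* Matrix.of x = 0 := by
    rw [← h1, Matrix.vecMul_eq_sum]
    rfl
  rw [gr_eq, ← Matrix.vecMul_vecMul, ← Matrix.vecMul_vecMul, h3, Matrix.zero_vecMul,
    Matrix.zero_vecMul]

omit [DecidableEq τ] in
theorem gr_pull (J H : Mat τ) (T : Matrix (Fin q) (Fin q) ℝ) (x x' : Fin q → V τ)
    (h : ∀ j, J *ᵥ x j = ∑ i, T j i • x' i) :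
    (gr (pull J H) x).det.re = T.det ^ 2 * (gr H x').det.re := by
  have h1 : Matrix.of x * Jᵀ = T.map ofRealHom * Matrix.of x' := by
    ext j p
    have := congrFun (h j) p
    simpa [Matrix.mul_apply, Matrix.mulVec, dotProduct, Finset.sum_apply, mul_comm] using this
  have h2 : J.map star * (Matrix.of x)ᴴ = (Matrix.of x')ᴴ * (T.map ofRealHom)ᴴ := by
    rw [← conjTranspose_mul, ← h1, conjTranspose_mul]
    rfl
  have h3 : gr (pull J H) x = T.map ofRealHom * gr H x' * (T.map ofRealHom)ᴴ := by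
    rw [gr_eq, gr_eq, pull]
    calc Matrix.of x * (Jᵀ * H * J.map star) * (Matrix.of x)ᴴ
        = Matrix.of x * Jᵀ * H * (J.map star * (Matrix.of x)ᴴ) := by simp only [Matrix.mul_assoc]
      _ = _ := by rw [h1, h2]; simp only [Matrix.mul_assoc]
  have h4 : (T.map ofRealHom).det = (T.det : ℂ) := (ofRealHom.map_det T).symm
  rw [h3, det_mul, det_mul, det_conjTranspose, h4]
  have h5 : (T.det : ℂ) * (gr H x').det * star (T.det : ℂ) = ((T.det ^ 2 : ℝ) : ℂ) * (gr H x').det := by
    simp only [RCLike.star_def, conj_ofReal, ofReal_pow]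
    ring
  rw [h5, re_ofReal_mul]

theorem kon_mono {G : V τ → Mat τ} {U U' : Set (V τ)} (h : KOn G U) (e : U' ⊆ U) : KOn G U' :=
  ⟨⟨fun z hz => h.1.1 z (e hz), fun z hz => h.1.2.1 z (e hz), fun z hz => h.1.2.2 z (e hz)⟩,
    fun z hz => h.2 z (e hz)⟩

variable {ι : Type} [Fintype ι] [DecidableEq ι]

theorem yp_smooth (s : Finset ι) : ContDiff ℝ ∞ (yp s : V ι → YY s) :=
  contDiff_pi.2 fun i => contDiff_apply ℝ ℂ i.1

end BochAux

open BochAux in
theorem bochS (hA : RepA) (hV : VolS) (hR : RowsS) (hU : UBasS) (hS : SubS)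
    (hT : TrvS) (hG : GenS) (hC : CocS) : BochS := by
  intro ι X _ _ _ _ _ _ _ _ M g μ u C s q ξ hg hμ F hP K
  have A := hA ι X M
  have := ((hV ι X M g hg).2 μ hμ).fin
  obtain ⟨ε, h1, hε⟩ := ((F.tr.eventually (gt_mem_nhds (lt_add_one (s.card : ℝ)))).and
    (Ioc_mem_nhdsGT one_pos)).exists
  have sol := F.sol ε hε
  have hv := F.vpos ε hε
  have hone := F.one ε hε
  set h := M.hm g ε (u ε) with hh
  have hK : M.IsK h := sol.2.1
  have c0 : ∀ v : X → ℝ, M.Ck ∞ v → Continuous v := fun v hv =>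
    A.cont v fun e he z hz => (hv e he z hz).of_le (by simp)
  have c1 : Continuous fun x => ε * trm (h x) (g x) :=
    continuous_const.mul (c0 _ (A.ck_trm h g hK fun e he => (hg e he).1.1))
  have c2 : Continuous (M.den μ g ε (u ε)) := (Real.continuous_exp.comp (c0 _ sol.1)).div_const _
  have ci : ∀ v : X → ℝ, Continuous v → Integrable v μ := fun v hv =>
    hv.integrable_of_hasCompactSupport (HasCompactSupport.of_compactSpace v)
  have i1 : ∀ c : ℝ, Integrable (fun x => c * M.den μ g ε (u ε) x) μ := fun c =>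
    ci _ (continuous_const.mul c2)
  have i2 : Integrable (fun x => ε * trm (h x) (g x) * M.den μ g ε (u ε) x) μ := ci _ (c1.mul c2)
  have dpos : ∀ x, 0 < M.den μ g ε (u ε) x := fun x => div_pos (Real.exp_pos _) hv
  obtain ⟨x0, hx0⟩ : ∃ x0, ε * trm (h x0) (g x0) < s.card + 1 := by
    by_contra hn
    push Not at hn
    have h2 := integral_mono (i1 _) i2 fun x => mul_le_mul_of_nonneg_right (hn x) (dpos x).le
    rw [integral_const_mul, hone, mul_one] at h2
    exact absurd h1 (not_lt.2 h2)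
  obtain ⟨-, RH, hric⟩ := hU ι X M g C s ε (u ε) hg hP hε.1 sol
  have RG : Rows' C s 1 g := hR.rows ι X M C s 1 g hg one_pos fun a z hz => by
    simpa using hP.1 a z (C.ball_sub a le_rfl hz)
  have b34 : ∀ a, 3 * C.r a ≤ 4 * C.r a := fun a => by linarith [C.pos a]
  have SB := fun a (ρ : Mat {i // i ∉ s}) => hS _ q (ball 0 (3 * C.r a)) (C.trv s h a) (ξ a) ρ
    isOpen_ball (kon_mono (RH.kon a) (ball_subset_ball (b34 a))) (K.an a)
  have ym : ∀ a (z : V ι), ‖z‖ < 3 * C.r a → yp s z ∈ ball (0 : YY s) (3 * C.r a) := fun a z hz =>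
    mem_ball_zero_iff.2 ((norm_lt_iff s (C.r3 a) z).1 hz).2
  have key := hC ι X M g h μ C
    (fun a z => (gr (C.trv s h a (yp s z)) fun j => ξ a j (yp s z)).det.re)
    (fun x => q + s.card - ε * trm (h x) (g x)) hg hK hμ (continuous_const.sub c1)
    (fun a z hz => ⟨(SB a 0 _ (ym a z (mem_ball_zero_iff.1 hz))).1.comp z (yp_smooth s).contDiffAt,
      (SB a 0 _ (ym a z (mem_ball_zero_iff.1 hz))).2.1⟩)
    (fun a => measure_mono_null (fun z hz => by
      exact ⟨hz.1, fun hl => ((SB a 0 _ (ym a z (mem_ball_zero_iff.1 hz.1))).2.2 hl).1.ne' hz.2⟩)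
      (hG ι X M g C s ε (u ε) q ξ x0 hg hP hε.1 sol hx0 K a))
    (fun a b x ha hb ra rb => by
      obtain ⟨φ, T, h2, h3, h4, h5⟩ := K.cov a b x ha hb ra rb
      have h6 := (hT ι X M g h C s ε a b x φ hP RH ha hb (ra.trans_le (b34 a))
        (rb.trans_le (b34 b)) h2 h4).2
      have h7 : Tendsto (fun x' => yp s (C.e a x')) (𝓝 x) (𝓝 (yp s (C.e a x))) :=
        ((yp_smooth s).continuous.tendsto _).comp ((C.e a).continuousAt ha)
      refine ⟨T.det ^ 2, by positivity, ?_⟩
      filter_upwards [h4, h6, h7.eventually h5] with x' e1 e2 e3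
      rw [e2]
      refine gr_pull _ _ T _ _ fun j => ?_
      rw [jac_mulVec, e3, e1])
    (fun a x ha ra hD => by
      have hy := ym a _ ra
      have hy4 := ball_subset_ball (b34 a) hy
      have hz4 : C.e a x ∈ ball (0 : V ι) (4 * C.r a) := mem_ball_zero_iff.2 (ra.trans_le (b34 a))
      have hl : LinearIndependent ℂ fun j => ξ a j (yp s (C.e a x)) := by
        by_contra hn
        exact hD (by rw [gr_dep _ hn, zero_re])
      obtain ⟨s1, -, s2⟩ := SB a ((ε : ℂ) • C.trv s g a (yp s (C.e a x))) _ hy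
      have s3 := (s2 hl).2 (((RG.kon a).2 _ hy4).posSemidef.smul (by exact_mod_cast hε.1.le))
        (hric a _ hy4).2
      have hd : (M.repF h (C.e a) (C.e a x)).det ≠ 0 :=
        ((hK _ (C.mem a)).2 _ ((C.e a).map_source ha)).det_pos.ne'
      have he : (ε : ℂ) ≠ 0 := by exact_mod_cast hε.1.ne'
      obtain ⟨r1, -, r2, -, r3, -⟩ := RH.ent a _ hz4
      obtain ⟨g1, -, g2, -, g3, -⟩ := RG.ent a _ hz4
      have t1 := hR.tr ι s _ _ _ _ he hd r1 r2 g1 g2
      rw [r3, g3] at t1
      obtain ⟨l1, l2, l3⟩ := (hR.der ι s (fun w => (Real.log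
        (gr (C.trv s h a w) fun j => ξ a j w).det.re : ℂ)) (C.e a x)).2
        (ofRealCLM.contDiff.contDiffAt.comp _ ((s1.log hD).of_le (by norm_cast)))
      have t2 := hR.tr ι s _ _ _ _ he hd r1 r2 l1 l2
      rw [r3, l3, zero_div, mul_zero, zero_add] at t2
      have t3 : ε * trm (h x) (g x) =
          s.card + trm (C.trv s h a (yp s (C.e a x))) ((ε : ℂ) • C.trv s g a (yp s (C.e a x))) := by
        rw [← A.trm_rep h g _ (C.mem a) x ha, trm, t1, trm, smul_mul_assoc, trace_smul, smul_eq_mul,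
          ← re_ofReal_mul, mul_add, add_re]
        congr 1
        rw [ofReal_one, mul_left_comm, mul_one_div_cancel he, mul_one, natCast_re]
      rw [t3]
      exact le_of_eq_of_le (by ring) (s3.trans_eq (congrArg re t2).symm))
  have e1 : ∀ x, (q + s.card - ε * trm (h x) (g x)) * rat h g x = M.vol μ g ε *
      ((q + s.card) * M.den μ g ε (u ε) x - ε * trm (h x) (g x) * M.den μ g ε (u ε) x) := by
    intro x
    rw [sol.2.2 x, Atl.den]
    field_simp
  simp only [e1] at key
  rw [integral_const_mul, integral_sub (i1 _) i2, integral_const_mul, hone, mul_one] at key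
  have hq : (1 : ℝ) ≤ q := by exact_mod_cast K.pos
  exact absurd key (not_le.2 (mul_pos hv (by linarith)))

end

end Pool.Agent.Lib.MP_813db1_ag.HS
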