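import Pool.Agent.Lib.MP_813db1_ag.HS.StmtE
import Pool.Agent.Lib.MP_813db1_ag.HS.Calc2

/-! Integration of the Laplacian of the logarithm of a section of a flat line bundle. -/

namespace Pool.Agent.Lib.MP_813db1_ag.HS

open MeasureTheory Complex Matrix Filter Topology Set Metric
open scoped ContDiff ComplexOrder

namespace CocAux

variable {ι X : Type} [Fintype ι] [DecidableEq ι] [TopologicalSpace X] {M : Atl ι X}

omit [DecidableEq ι] in
theorem ck_iff {k : WithTop ℕ∞} {u : X → ℝ} : M.Ck k u ↔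
    ∀ e ∈ M.A, ∀ z ∈ e.target, ContDiffAt ℝ k (fun z => u (e.symm z)) z := by
  classical
  exact forall₄_congr fun _ _ _ _ => contDiffAt_ofReal

omit [DecidableEq ι] in
theorem ck_le {k l : WithTop ℕ∞} {u : X → ℝ} (h : M.Ck k u) (hl : l ≤ k) : M.Ck l u :=
  fun e he z hz => (h e he z hz).of_le hl

theorem germ {u v : X → ℝ} {x : X} {c : ℝ} (h : ∀ᶠ y in 𝓝 x, u y = v y + c) (H : X → Mat ι) :
    M.dfn u x = M.dfn v x ∧ M.lap H u x = M.lap H v x := by
  have h1 : fn u (M.ch x) =ᶠ[𝓝 (M.ch x x)] fun z => fn v (M.ch x) z + c :=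
    (((M.ch x).tendsto_symm (M.mem x)).eventually h).mono fun z hz => by simp [fn, hz]
  have h2 : ∀ k, dz (fun z => fn v (M.ch x) z + c) k = dz (fn v (M.ch x)) k := fun k => by
    ext z
    simp [dz, fderiv_add_const]
  have h3 : ∀ k, dzb (fun z => fn v (M.ch x) z + c) k = dzb (fn v (M.ch x)) k := fun k => by
    ext z
    simp [dzb, fderiv_add_const]
  refine ⟨funext fun k => (dz_congr h1 k).trans (congrFun (h2 k) _), ?_⟩
  rw [Atl.lap, Atl.lap, Atl.ddc, Atl.ddc, levi_congr h1, levi, levi]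
  simp only [h3]

theorem dfn_const (c : ℝ) (x : X) : M.dfn (fun _ => c) x = 0 := funext fun k => dz_const _ k _

theorem sum_grad {κ : Type} [Fintype κ] {θ v : κ → X → ℝ} (hθ : ∀ i, M.Ck ∞ (θ i))
    (h1 : ∀ x, ∑ i, θ i x = 1) (H : X → Mat ι) (x : X) (β : V ι)
    (h : ∀ i, x ∈ tsupport (θ i) → M.dfn (v i) x = β) : ∑ i, M.grad H (v i) (θ i) x = 0 := by
  have e1 : ∀ i, M.grad H (v i) (θ i) x = (grL (H x) β (M.dfn (θ i) x)).re := fun i => by
    by_cases hx : x ∈ tsupport (θ i)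
    · rw [Atl.grad, h i hx]
    · have : M.dfn (θ i) x = 0 := (germ (c := 0) (v := fun _ => 0)
        ((notMem_tsupport_iff_eventuallyEq.1 hx).mono fun y hy => by simpa using hy) H).1.trans
        (dfn_const 0 x)
      simp [Atl.grad, this, grL]
  have e2 : ∀ k, ∑ i, M.dfn (θ i) x k = 0 := fun k => by
    have := dz_sum (z := M.ch x x) Finset.univ (F := fun i => fn (θ i) (M.ch x))
      (fun i _ => (hθ i _ (M.ch_mem x) _ ((M.ch x).map_source (M.mem x))).differentiableAt
        (by simp)) k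
    refine this.symm.trans ((congrArg (dz · k _) (funext fun z => ?_)).trans (dz_const 1 k _))
    simp only [fn]
    rw [← ofReal_sum, h1, ofReal_one]
  simp only [e1, grL]
  rw [← re_sum, Finset.sum_comm]
  have : ∀ p, ∑ i, ∑ j, (H x)⁻¹ j p * β p * star (M.dfn (θ i) x j) = 0 := fun p => by
    rw [Finset.sum_comm]
    refine Finset.sum_eq_zero fun j _ => ?_
    rw [← Finset.mul_sum, ← star_sum, e2, star_zero, mul_zero]
  simp only [this, Finset.sum_const_zero, zero_re]

theorem lap_log (b : RepB' M) {E : X → ℝ} (hE : M.Ck 2 E) (H : X → Mat ι) (x : X) {δ : ℝ}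
    (h : 0 < E x + δ) : M.lap H (fun y => Real.log (E y + δ)) x =
      (E x + δ)⁻¹ * M.lap H E x - (E x + δ)⁻¹ ^ 2 * M.grad H E E x := by
  have e1 : deriv (fun t : ℝ => Real.log (t + δ)) = fun t => (t + δ)⁻¹ := by
    ext t
    rw [deriv_comp_add_const, Real.deriv_log]
  have e2 : deriv (fun t : ℝ => (t + δ)⁻¹) (E x) = -((E x + δ)⁻¹ ^ 2) := by
    rw [deriv_comp_add_const (f := fun t : ℝ => t⁻¹), deriv_inv, inv_pow]
  rw [b.lap_comp H E (fun t => Real.log (t + δ)) x hE
    ((contDiffAt_id.add contDiffAt_const).log h.ne'), e1, e2]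
  ring

end CocAux

open CocAux in
theorem cocS (ha : RepA) (hb : RepB) (hp : PouS) (hv : VolS) (hG : GreenS) (hm : MatS) :
    CocS := by
  intro ι X _ _ _ _ _ _ _ M g h μ C D f hg hh hμ hf hD hZ hc hL
  have ra := ha ι X M
  have rb := hb ι X M
  have v := (hv ι X M g hg).2 μ hμ
  have := v.fin
  have := v.pos
  have cont : ∀ u, M.Ck ∞ u → Continuous u := fun u hu => ra.cont u (ck_le hu (by simp))
  have ci : ∀ u : X → ℝ, Continuous u → Integrable u μ := fun u hu =>
    hu.integrable_of_hasCompactSupport (HasCompactSupport.of_compactSpace _)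
  have hpd := ((ra.isK_iff h).1 hh).2
  have cR := cont _ (ra.ck_rat h g (fun e he => (hh e he).1.1) hg)
  have R0 : ∀ x, 0 ≤ rat h g x := fun x =>
    (div_pos (hm.det ι _ (hpd x)).1 (hm.det ι _ (((ra.isK_iff g).1 hg).2 x)).1).le
  let O : Fin C.n → Set X := fun a => (C.e a).source ∩ C.e a ⁻¹' ball 0 (3 * C.r a)
  have hO : ∀ a, IsOpen (O a) := fun a => (C.e a).isOpen_inter_preimage isOpen_ball
  have cov : ∀ x, ∃ a, x ∈ O a := fun x => by
    obtain ⟨a, h1, h2⟩ := C.cover x
    exact ⟨a, h1, mem_ball_zero_iff.2 (by have := C.pos a; linarith)⟩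
  obtain ⟨χ, hχ, hχ1⟩ := hp ι X M (Fin C.n) O hO cov
  let E : X → ℝ := fun x => ∑ a, χ a x * D a (C.e a x)
  have hE : M.Ck ∞ E := by
    have : ∀ a, M.Ck ∞ fun x => χ a x * D a (C.e a x) := fun a => ra.ck_loc ⊤ _ fun x => by
      by_cases hx : x ∈ tsupport (χ a)
      · have h1 := (hχ a).2.2 hx
        refine ⟨C.e a, C.mem a, h1.1, contDiffAt_ofReal.2
          (((ck_iff.1 (hχ a).1 _ (C.mem a) _ ((C.e a).map_source h1.1)).mul
            (hD a _ h1.2).1).congr_of_eventuallyEq ?_)⟩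
        filter_upwards [(C.e a).open_target.mem_nhds ((C.e a).map_source h1.1)] with z hz
        rw [(C.e a).right_inv hz]
      · refine ⟨M.ch x, M.ch_mem x, M.mem x,
          (contDiffAt_const (c := 0)).congr_of_eventuallyEq ?_⟩
        filter_upwards [((M.ch x).tendsto_symm (M.mem x)).eventually
          (notMem_tsupport_iff_eventuallyEq.1 hx)] with z hz
        simp [fn, hz]
    exact ck_iff.2 fun e he z hz => ContDiffAt.sum fun a _ => ck_iff.1 (this a) e he z hz
  have loc : ∀ x, ∃ (N : Set X) (a : Fin C.n) (s : X → ℝ), IsOpen N ∧ x ∈ N ∧ N ⊆ O a ∧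
      M.Ck ∞ s ∧ (∀ y, 0 < s y) ∧ ∀ y ∈ N, E y = D a (C.e a y) * s y := fun x => by
    obtain ⟨a, hx⟩ := cov x
    have : ∀ b, ∃ c > 0, ∀ᶠ y in 𝓝 x, χ b y * D b (C.e b y) = D a (C.e a y) * (c * χ b y) := by
      intro b
      by_cases hb : x ∈ tsupport (χ b)
      · have h1 := (hχ b).2.2 hb
        obtain ⟨c, h2, h3⟩ := hc b a x h1.1 hx.1 (mem_ball_zero_iff.1 h1.2)
          (mem_ball_zero_iff.1 hx.2)
        exact ⟨c, h2, h3.mono fun y hy => by rw [hy]; ring⟩
      · exact ⟨1, one_pos, (notMem_tsupport_iff_eventuallyEq.1 hb).mono fun y hy => by simp [hy]⟩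
    choose c c0 hc' using this
    obtain ⟨N, h1, h2, h3⟩ := _root_.eventually_nhds_iff.1
      ((eventually_all.2 hc').and ((hO a).mem_nhds hx))
    refine ⟨N, a, fun y => ∑ b, c b * χ b y, h2, h3, fun y hy => (h1 y hy).2,
      ck_iff.2 fun e he z hz => ContDiffAt.sum fun b _ =>
        contDiffAt_const.mul (ck_iff.1 (hχ b).1 e he z hz), fun y => ?_, fun y hy => ?_⟩
    · obtain ⟨b, hb, h4⟩ := Finset.exists_ne_zero_of_sum_ne_zero ((hχ1 y).trans_ne one_ne_zero)
      exact Finset.sum_pos' (fun b _ => mul_nonneg (c0 b).le ((hχ b).2.1 y))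
        ⟨b, hb, mul_pos (c0 b) (((hχ b).2.1 y).lt_of_ne' h4)⟩
    · rw [Finset.mul_sum]
      exact Finset.sum_congr rfl fun b _ => (h1 y hy).1 b
  choose N A s hN hxN hNO hs s0 hEs using loc
  have E0 : ∀ x, 0 ≤ E x := fun x => by
    rw [hEs x x (hxN x)]
    exact mul_nonneg (hD _ _ (hNO x (hxN x)).2).2 (s0 x x).le
  have ae : ∀ᵐ x ∂μ, E x ≠ 0 := by
    have : ∀ a, ∀ᵐ x ∂μ, x ∈ O a → D a (C.e a x) ≠ 0 := fun a => by
      obtain ⟨S, h1, h2, h3⟩ := exists_measurable_superset_of_null (hZ a)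
      have h4 := v.lint _ (C.mem a) (S ∩ ball 0 (3 * C.r a)) (h2.inter measurableSet_ball)
        (inter_subset_right.trans (C.ball_sub a (by norm_num))) fun _ => 1
      rw [setLIntegral_one, setLIntegral_measure_zero _ _
        (measure_mono_null inter_subset_left h3)] at h4
      refine measure_mono_null (fun x hx => ?_) h4
      have hx' : ¬(x ∈ O a → D a (C.e a x) ≠ 0) := hx
      push Not at hx'
      exact ⟨hx'.1.1, h1 ⟨hx'.1.2, hx'.2⟩, hx'.1.2⟩
    filter_upwards [ae_all_iff.2 this] with x hx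
    rw [hEs x x (hxN x)]
    exact mul_ne_zero (hx _ (hNO x (hxN x))) (s0 x x).ne'
  let w : X → X → ℝ := fun p y => Real.log (s p y)
  have hw : ∀ p, M.Ck ∞ (w p) := fun p => ck_iff.2 fun e he z hz =>
    (ck_iff.1 (hs p) e he z hz).log (s0 p _).ne'
  have cmp : ∀ p x, x ∈ N p → ∃ c, ∀ᶠ y in 𝓝 x, w p y = w x y + c := fun p x hx => by
    have h1 := hNO p hx
    have h2 := hNO x (hxN x)
    obtain ⟨c, c0, h3⟩ := hc _ _ x h2.1 h1.1 (mem_ball_zero_iff.1 h2.2) (mem_ball_zero_iff.1 h1.2)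
    obtain ⟨U, h4, h5, h6⟩ := _root_.eventually_nhds_iff.1
      (h3.and (((hN p).inter (hN x)).mem_nhds ⟨hx, hxN x⟩))
    have h7 : EqOn (s p) (fun y => s x y * c) U := by
      refine Measure.eqOn_open_of_ae_eq (μ := μ) ((ae_restrict_iff' h5.measurableSet).2 ?_) h5
        (cont _ (hs p)).continuousOn ((cont _ (hs x)).mul continuous_const).continuousOn
      filter_upwards [ae] with y hy hU
      have h8 := hEs p y (h4 y hU).2.1
      have h9 := hEs x y (h4 y hU).2.2
      rw [(h4 y hU).1] at h9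
      refine mul_left_cancel₀ (left_ne_zero_of_mul (h8 ▸ hy)) ?_
      rw [← h8, h9]
      ring
    refine ⟨Real.log c, eventually_of_mem (h5.mem_nhds h6) fun y hy => ?_⟩
    simp only [w]
    rw [h7 hy, Real.log_mul (s0 x y).ne' c0.ne']
  obtain ⟨t, ht⟩ := isCompact_univ.elim_finite_subcover N hN fun x _ => mem_iUnion.2 ⟨x, hxN x⟩
  obtain ⟨θ, hθ, hθ1⟩ := hp ι X M t (fun i => N i) (fun i => hN i) fun x => by
    simpa using ht (mem_univ x)
  have G := fun u u' (hu : M.Ck ∞ u) (hu' : M.Ck ∞ u') => hG.real ι X M g h μ u u' hg hh hμ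
    (ck_le hu (by norm_cast)) (ck_le hu' (by norm_cast))
  let Λ : X → ℝ := fun x => ∑ i, θ i x * M.lap h (w i) x
  have cΛ : Continuous Λ := continuous_finsetSum _ fun i _ =>
    (cont _ (hθ i).1).mul (G _ _ (hw i) (hθ i).1).1
  have Λ1 : ∀ x, Λ x = M.lap h (w x) x := fun x => by
    rw [← one_mul (M.lap h (w x) x), ← hθ1 x, Finset.sum_mul]
    refine Finset.sum_congr rfl fun i _ => ?_
    by_cases hx : θ i x = 0
    · simp [hx]
    · obtain ⟨c, h1⟩ := cmp i x ((hθ i).2.2 (subset_tsupport _ hx))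
      rw [(germ h1 h).2]
  have Λ0 : ∫ x, Λ x * rat h g x ∂μ = 0 := by
    have h1 := integral_finsetSum (μ := μ) Finset.univ (f := fun (i : t) x =>
      (θ i x * M.lap h (w i) x + M.grad h (w i) (θ i) x) * rat h g x) fun i _ => ci _
        ((((cont _ (hθ i).1).mul (G _ _ (hw i) (hθ i).1).1).add
          (G _ _ (hw i) (hθ i).1).2.1).mul cR)
    rw [Finset.sum_eq_zero fun (i : t) _ => (G _ _ (hw i) (hθ i).1).2.2] at h1
    refine Eq.trans (integral_congr_ae (Eventually.of_forall fun x => ?_)) h1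
    have h2 := sum_grad (v := fun i : t => w i) (fun i => (hθ i).1) hθ1 h x (M.dfn (w x) x)
      fun i hi => by
        obtain ⟨c, h1⟩ := cmp i x ((hθ i).2.2 hi)
        exact (germ h1 h).1
    simp only
    rw [← Finset.sum_mul, Finset.sum_add_distrib, h2, add_zero]
  have hE2 : M.Ck 2 E := ck_le hE (by norm_cast)
  have key : ∀ x, E x ≠ 0 → f x + Λ x ≤ M.lap h (fun y => Real.log (E y + 0)) x := fun x hx => by
    have h1 := hNO x (hxN x)
    have h2 : D (A x) (C.e (A x) x) ≠ 0 := left_ne_zero_of_mul (hEs x x (hxN x) ▸ hx)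
    have h3 := (C.e (A x)).map_source h1.1
    have d1 : ContDiffAt ℝ 2 (fun z => (Real.log (D (A x) z) : ℂ)) (C.e (A x) x) :=
      contDiffAt_ofReal.2 (((hD _ _ h1.2).1.log h2).of_le (by norm_cast))
    have d2 : ContDiffAt ℝ 2 (fn (w x) (C.e (A x))) (C.e (A x) x) :=
      (hw x _ (C.mem _) _ h3).of_le (by norm_cast)
    have e1 : fn (fun y => Real.log (E y + 0)) (C.e (A x)) =ᶠ[𝓝 (C.e (A x) x)]
        fun z => (Real.log (D (A x) z) : ℂ) + fn (w x) (C.e (A x)) z := by
      filter_upwards [(C.e (A x)).open_target.mem_nhds h3,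
        ((C.e (A x)).tendsto_symm h1.1).eventually ((hN x).mem_nhds (hxN x)),
        (hD _ _ h1.2).1.continuousAt.eventually_ne h2] with z z1 z2 z3
      simp only [fn, w]
      rw [add_zero, hEs x _ z2, (C.e (A x)).right_inv z1, Real.log_mul z3 (s0 x _).ne', ofReal_add]
    rw [← rb.lap_rep h _ _ (C.mem _) x h1.1 ((d1.add d2).congr_of_eventuallyEq e1), Λ1,
      ← rb.lap_rep h _ _ (C.mem _) x h1.1 d2, lapL, lapL, levi_congr e1, levi_add d1 d2,
      Matrix.add_mul, trace_add, add_re]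
    exact add_le_add_left (hL _ x h1.1 (mem_ball_zero_iff.1 h1.2) h2) _
  have cE := cont E hE
  have cF : Continuous fun x => (f x + Λ x) * rat h g x := (hf.add cΛ).mul cR
  have step : ∀ δ > 0, ∫ x, E x / (E x + δ) * ((f x + Λ x) * rat h g x) ∂μ ≤ 0 := fun δ hδ => by
    have p : ∀ x, 0 < E x + δ := fun x => add_pos_of_nonneg_of_pos (E0 x) hδ
    obtain ⟨h1, -, h2⟩ := G (fun y => Real.log (E y + δ)) (fun _ => 1) (ck_iff.2 fun e he z hz =>
      ((ck_iff.1 hE e he z hz).add contDiffAt_const).log (p _).ne')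
      (ck_iff.2 fun _ _ _ _ => contDiffAt_const)
    simp only [Atl.grad, dfn_const, grL, Pi.zero_apply, star_zero, mul_zero,
      Finset.sum_const_zero, zero_re, add_zero, one_mul] at h2
    refine (integral_mono_ae (ci _ ((cE.div (cE.add continuous_const) fun x => (p x).ne').mul cF))
      (ci _ (h1.mul cR)) ?_).trans_eq h2
    filter_upwards [ae] with x hx
    have q : 0 < E x := (E0 x).lt_of_ne' hx
    change E x / (E x + δ) * ((f x + Λ x) * rat h g x) ≤ _ * rat h g x
    rw [← mul_assoc]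
    refine mul_le_mul_of_nonneg_right ((mul_le_mul_of_nonneg_left (key x hx)
      (div_pos q (p x)).le).trans ?_) (R0 x)
    rw [lap_log rb hE2 h x (p x), lap_log rb hE2 h x (by simpa using q), add_zero]
    have h3 : (E x + δ)⁻¹ ≤ (E x)⁻¹ := inv_anti₀ q (by linarith)
    have h4 := mul_le_mul_of_nonneg_right (mul_le_mul_of_nonneg_left h3 (inv_pos.2 (p x)).le)
      (rb.grad_nonneg h E x (hpd x))
    have h5 : E x / (E x + δ) * ((E x)⁻¹ * M.lap h E x - (E x)⁻¹ ^ 2 * M.grad h E E x) =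
        (E x + δ)⁻¹ * M.lap h E x - (E x + δ)⁻¹ * (E x)⁻¹ * M.grad h E E x := by
      field_simp
    rw [h5, sq]
    linarith
  have lim := tendsto_integral_of_dominated_convergence (μ := μ)
    (F := fun (k : ℕ) x => E x / (E x + 1 / (k + 1)) * ((f x + Λ x) * rat h g x))
    (f := fun x => (f x + Λ x) * rat h g x) (fun x => ‖(f x + Λ x) * rat h g x‖)
    (fun k => ((cE.div (cE.add continuous_const) fun x =>
      (add_pos_of_nonneg_of_pos (E0 x) Nat.one_div_pos_of_nat).ne').mul cF).aestronglyMeasurable)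
    (ci _ cF.norm) (fun k => Eventually.of_forall fun x => by
      have p := add_pos_of_nonneg_of_pos (E0 x) (Nat.one_div_pos_of_nat (α := ℝ) (n := k))
      rw [norm_mul, Real.norm_of_nonneg (div_nonneg (E0 x) p.le)]
      exact mul_le_of_le_one_left (norm_nonneg _)
        ((div_le_one p).2 (le_add_of_nonneg_right Nat.one_div_pos_of_nat.le)))
    (by
      filter_upwards [ae] with x hx
      have := ((tendsto_const_nhds (x := E x)).div ((tendsto_const_nhds (x := E x)).add
        (tendsto_one_div_add_atTop_nhds_zero_nat (𝕜 := ℝ))) (by simpa using hx)).mul_const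
        ((f x + Λ x) * rat h g x)
      rwa [add_zero, div_self hx, one_mul] at this)
  have fin := le_of_tendsto' lim fun k => step _ Nat.one_div_pos_of_nat
  simp only [add_mul] at fin
  rwa [integral_add (ci (fun x => f x * rat h g x) (hf.mul cR))
    (ci (fun x => Λ x * rat h g x) (cΛ.mul cR)), Λ0, add_zero] at fin

end Pool.Agent.Lib.MP_813db1_ag.HS
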