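import Pool.Agent.Lib.MP_813db1_ag.HS.StmtE
import Pool.Agent.Lib.MP_813db1_ag.HS.Calc2

/-! Commuting holomorphic fields that preserve a volume form with positive curvature. -/

namespace Pool.Agent.Lib.MP_813db1_ag.HS

open Complex Matrix Filter Topology Set
open scoped ContDiff ComplexOrder

noncomputable section

namespace CplxAux

variable {τ : Type} [Fintype τ] [DecidableEq τ] {Ψ : V τ → ℂ} {ξ η : V τ → V τ} {y : V τ}

/-- the moment map -/
def mu (Ψ : V τ → ℂ) (ξ : V τ → V τ) (w : V τ) : ℂ :=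
  ∑ i, (ξ w i * dz Ψ i w + dz (fun v => ξ v i) i w)

omit [DecidableEq τ] in
theorem cd (h : AnalyticAt ℂ ξ y) (i : τ) : ContDiffAt ℝ 2 (fun w => ξ w i) y :=
  ((analyticAt_pi_iff.1 h i).restrictScalars (𝕜 := ℝ)).contDiffAt

omit [DecidableEq τ] in
theorem ev (h : AnalyticAt ℂ ξ y) : ∀ᶠ w in 𝓝 y, DifferentiableAt ℂ ξ w :=
  h.eventually_analyticAt.mono fun _ e => e.differentiableAt

theorem dzb_mu (hΨ : ContDiffAt ℝ 2 Ψ y) (h : AnalyticAt ℂ ξ y) (l : τ) :
    dzb (mu Ψ ξ) l y = ∑ i, ξ y i * levi Ψ y i l := by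
  have d := fun i => (cd h i).differentiableAt two_ne_zero
  refine (dzb_sum _ (fun i _ => ((d i).fun_mul (differentiableAt_dz hΨ i)).fun_add
    (differentiableAt_dz (cd h i) i)) l).trans (Finset.sum_congr rfl fun i _ => ?_)
  have e : levi (fun w => ξ w i) y = 0 := levi_hol ((ev h).mono fun w e => differentiableAt_pi.1 e i)
  rw [dzb_add ((d i).fun_mul (differentiableAt_dz hΨ i)) (differentiableAt_dz (cd h i) i),
    dzb_mul (d i) (differentiableAt_dz hΨ i), dzb_hol (differentiableAt_pi.1 h.differentiableAt i),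
    ← dz_dzb_comm hΨ, ← dz_dzb_comm (cd h i), ← levi_apply, ← levi_apply, e]
  simp

theorem dz_mu (hΨ : ContDiffAt ℝ 2 Ψ y) (h : AnalyticAt ℂ ξ y) (l : τ) :
    dz (mu Ψ ξ) l y = ∑ i, (dz (fun w => ξ w i) l y * dz Ψ i y + ξ y i * dz (dz Ψ i) l y +
      dz (dz (fun w => ξ w i) l) i y) := by
  have d := fun i => (cd h i).differentiableAt two_ne_zero
  refine (dz_sum _ (fun i _ => ((d i).fun_mul (differentiableAt_dz hΨ i)).fun_add
    (differentiableAt_dz (cd h i) i)) l).trans (Finset.sum_congr rfl fun i _ => ?_)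
  rw [dz_add ((d i).fun_mul (differentiableAt_dz hΨ i)) (differentiableAt_dz (cd h i) i),
    dz_mul (d i) (differentiableAt_dz hΨ i), dz_dz_comm (cd h i)]

theorem dz_br (h : AnalyticAt ℂ ξ y) (h' : AnalyticAt ℂ η y) (i : τ) :
    dz (fun w => ∑ l, η w l * dz (fun v => ξ v i) l w) i y =
      ∑ l, (dz (fun w => η w l) i y * dz (fun v => ξ v i) l y +
        η y l * dz (dz (fun v => ξ v i) l) i y) := by
  have d := fun i => (cd h' i).differentiableAt two_ne_zero
  exact (dz_sum _ (fun l _ => (d l).fun_mul (differentiableAt_dz (cd h i) l)) i).trans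
    (Finset.sum_congr rfl fun l _ => dz_mul (d l) (differentiableAt_dz (cd h i) l) i)

theorem sym (hΨ : ContDiffAt ℝ 2 Ψ y) (h : AnalyticAt ℂ ξ y) (h' : AnalyticAt ℂ η y)
    (hb : ∀ᶠ w in 𝓝 y, fderiv ℂ ξ w (η w) = fderiv ℂ η w (ξ w)) :
    ∑ l, η y l * dz (mu Ψ ξ) l y = ∑ l, ξ y l * dz (mu Ψ η) l y := by
  have b : ∀ i, (fun w => ∑ l, η w l * dz (fun v => ξ v i) l w) =ᶠ[𝓝 y]
      fun w => ∑ l, ξ w l * dz (fun v => η v i) l w := fun i => by
    filter_upwards [hb, ev h, ev h'] with w e e1 e2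
    have := congrFun e i
    rw [← jac_mulVec, ← jac_mulVec] at this
    simpa only [mulVec, dotProduct, jac_eq_dz e1, jac_eq_dz e2, mul_comm] using this
  have b1 : ∑ i, ∑ l, η y l * dz (fun v => ξ v i) l y * dz Ψ i y =
      ∑ i, ∑ l, ξ y l * dz (fun v => η v i) l y * dz Ψ i y :=
    Finset.sum_congr rfl fun i _ => by
      rw [← Finset.sum_mul, ← Finset.sum_mul]
      exact congrArg (· * _) (b i).eq_of_nhds
  have b2 := Finset.sum_congr (rfl : (Finset.univ : Finset τ) = _) fun i _ =>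
    ((dz_br h h' i).symm.trans (dz_congr (b i) i)).trans (dz_br h' h i)
  have b3 : ∑ i, ∑ l, dz (fun w => η w l) i y * dz (fun v => ξ v i) l y =
      ∑ i, ∑ l, dz (fun w => ξ w l) i y * dz (fun v => η v i) l y := by
    rw [Finset.sum_comm]
    simp only [mul_comm]
  have b4 : ∑ l, ∑ i, η y l * (ξ y i * dz (dz Ψ i) l y) =
      ∑ l, ∑ i, ξ y l * (η y i * dz (dz Ψ i) l y) := by
    rw [Finset.sum_comm]
    exact Finset.sum_congr rfl fun i _ => Finset.sum_congr rfl fun l _ => by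
      rw [dz_dz_comm hΨ]
      ring
  simp only [Finset.sum_add_distrib] at b2
  rw [Finset.sum_comm, Finset.sum_comm (f := fun i l => ξ y l * _ * _)] at b1
  rw [Finset.sum_comm (f := fun i l => η y l * _), Finset.sum_comm (f := fun i l => ξ y l * _)] at b2
  simp only [dz_mu hΨ h, dz_mu hΨ h', Finset.mul_sum, mul_add, Finset.sum_add_distrib,
    ← mul_assoc _ _ (dz Ψ _ y)]
  linear_combination b1 + b4 + b2 - b3

theorem pair {ψ : V τ → ℝ} (hψ : ContDiffAt ℝ 2 ψ y) (h : AnalyticAt ℂ ξ y)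
    (h0 : ∀ᶠ w in 𝓝 y, fderiv ℝ ψ w (ξ w) + 2 * (trace (jac ξ w)).re = 0) (v : V τ) :
    ∑ l, v l * dz (mu (fun w => (ψ w : ℂ)) ξ) l y =
      -star (ξ y ⬝ᵥ levi (fun w => (ψ w : ℂ)) y *ᵥ star v) := by
  have e : mu (fun w => (ψ w : ℂ)) ξ =ᶠ[𝓝 y] fun w => -star (mu (fun w => (ψ w : ℂ)) ξ w) := by
    filter_upwards [h0, ev h, hψ.eventually (by simp)] with w e e1 e2
    have e3 : fderiv ℝ (fun w => (ψ w : ℂ)) w (ξ w) = (fderiv ℝ ψ w (ξ w) : ℝ) :=
      DFunLike.congr_fun (ofRealCLM.hasFDerivAt.comp w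
        (e2.differentiableAt two_ne_zero).hasFDerivAt).fderiv _
    rw [fderiv_eq_dz] at e3
    have e4 : ((fderiv ℝ ψ w (ξ w) : ℝ) : ℂ) + (trace (jac ξ w) + star (trace (jac ξ w))) = 0 := by
      rw [star_def, add_conj]
      exact_mod_cast e
    simp only [trace, diag, jac_eq_dz e1, star_sum, ← e3, dzb_ofReal, Finset.sum_add_distrib] at e4
    simp only [mu, star_sum, star_add, star_mul', Finset.sum_add_distrib, mul_comm (ξ w _)]
    linear_combination e4
  simp only [dz_congr e, dz_neg, dz_star, dzb_mu (contDiffAt_ofReal.2 hψ) h, dotProduct, mulVec,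
    star_sum, star_mul', Pi.star_apply, star_star, mul_neg, Finset.sum_neg_distrib, Finset.mul_sum]
  rw [Finset.sum_comm]
  exact congrArg _ (Finset.sum_congr rfl fun i _ => Finset.sum_congr rfl fun l _ => by ring)

end CplxAux

open CplxAux in
theorem cplxS : CplxS := by
  intro τ _ _ q ψ ξ y hψ ha he hp hi
  have h2 : ContDiffAt ℝ 2 ψ y := hψ.of_le (WithTop.coe_le_coe.2 (le_top : (2 : ℕ∞) ≤ ⊤))
  generalize hL : levi (fun w => (ψ w : ℂ)) y = L at hp
  have s : ∀ j k, ξ j y ⬝ᵥ L *ᵥ star (ξ k y) = ξ k y ⬝ᵥ L *ᵥ star (ξ j y) := fun j k => by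
    have e := sym (contDiffAt_ofReal.2 h2) (ha j) (ha k) (he.mono fun w e => e.1 k j)
    rw [pair h2 (ha j) (he.mono fun w e => e.2 j), pair h2 (ha k) (he.mono fun w e => e.2 k),
      hL] at e
    exact star_injective (neg_injective e)
  have s2 : ∀ p r : Fin q → ℝ, (∑ j, p j • ξ j y) ⬝ᵥ L *ᵥ star (∑ k, r k • ξ k y) =
      (∑ k, r k • ξ k y) ⬝ᵥ L *ᵥ star (∑ j, p j • ξ j y) := fun p r => by
    simp only [star_sum, star_smul, star_trivial, mulVec_sum, mulVec_smul, sum_dotProduct,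
      dotProduct_sum, smul_dotProduct, dotProduct_smul, Finset.smul_sum]
    rw [Finset.sum_comm]
    exact Finset.sum_congr rfl fun j _ => Finset.sum_congr rfl fun k _ => by
      rw [s, smul_comm]
  rw [Fintype.linearIndependent_iff] at hi ⊢
  intro c hc
  have e : ∑ j, (c j).re • ξ j y = -I • ∑ j, (c j).im • ξ j y := by
    rw [neg_smul, eq_neg_iff_add_eq_zero, Finset.smul_sum, ← Finset.sum_add_distrib, ← hc]
    refine Finset.sum_congr rfl fun j _ => ?_
    conv_rhs => rw [← re_add_im (c j), add_smul, mul_comm, mul_smul]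
    rfl
  have e1 := s2 (fun j => (c j).re) fun j => (c j).im
  rw [e] at e1
  have e2 : ∑ j, (c j).im • ξ j y = 0 := by
    generalize ∑ j, (c j).im • ξ j y = W at e1
    by_contra h
    have e3 := hp.dotProduct_mulVec_pos (star_ne_zero.2 h)
    rw [star_star] at e3
    rw [star_smul, mulVec_smul, smul_dotProduct, dotProduct_smul, star_neg, star_I, neg_neg,
      smul_eq_mul, smul_eq_mul] at e1
    exact e3.ne' (by linear_combination (I / 2) * e1 + (W ⬝ᵥ L *ᵥ star W) * I_mul_I)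
  rw [e2, smul_zero] at e
  exact fun j => Complex.ext (hi _ e j) (hi _ e2 j)

end

end Pool.Agent.Lib.MP_813db1_ag.HS
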