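import Pool.Agent.Lib.MP_813db1_ag.HS.StmtE
import Pool.Agent.Lib.MP_813db1_ag.HS.Calc2

/-! Part E: the invariant fields are generically independent over the complex numbers. -/

namespace Pool.Agent.Lib.MP_813db1_ag.HS

open MeasureTheory Complex Matrix Filter Topology Set Metric
open scoped ContDiff ComplexOrder ENNReal

namespace GenAux

variable {ι X : Type} [Fintype ι] [DecidableEq ι] [TopologicalSpace X]

lemma an_yp (s : Finset ι) (z : V ι) : AnalyticAt ℂ (yp s) z :=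
  analyticAt_pi_iff.2 fun i =>
    (ContinuousLinearMap.proj (R := ℂ) (φ := fun _ : ι => ℂ) i.1).analyticAt z

/-- independence at one point gives independence almost everywhere -/
lemma null (hZ : ZeroS) (s : Finset ι) {q : ℕ} {R : ℝ} (hR : 0 < R) (ξ : Fin q → YY s → YY s)
    (han : ∀ j, AnalyticOnNhd ℂ (ξ j) (ball 0 R)) {y : YY s} (hy : y ∈ ball (0 : YY s) R)
    (hi : LinearIndependent ℂ fun j => ξ j y) :
    volume {z ∈ ball (0 : V ι) R | ¬ LinearIndependent ℂ fun j => ξ j (yp s z)} = 0 := by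
  obtain ⟨L, hL⟩ := (Fintype.linearCombination ℂ fun j => ξ j y).exists_leftInverse_of_injective
    (LinearMap.ker_eq_bot.2 (linearIndependent_iff_injective_fintypeLinearCombination.1 hi))
  have hLe : ∀ j, L (ξ j y) = Pi.single j 1 := fun j => by
    have h := LinearMap.congr_fun hL (Pi.single j 1)
    simpa using h
  let f : V ι → ℂ := fun z => (Matrix.of fun j => L (ξ j (yp s z))).det
  have hf : AnalyticOnNhd ℂ f (ball 0 R) := fun z hz => by
    have hz' : yp s z ∈ ball (0 : YY s) R :=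
      mem_ball_zero_iff.2 ((norm_lt_iff s hR z).1 (mem_ball_zero_iff.1 hz)).2
    have h1 : ∀ j i, AnalyticAt ℂ (fun w => L (ξ j (yp s w)) i) z := fun j i =>
      analyticAt_pi_iff.1 (((LinearMap.toContinuousLinearMap L).analyticAt _).comp
        ((han j _ hz').comp (an_yp s z))) i
    simp only [f, Matrix.det_apply', Matrix.of_apply]
    exact Finset.analyticAt_fun_sum _ fun σ _ => analyticAt_const.mul
      (Finset.analyticAt_fun_prod _ fun i _ => h1 _ _)
  have h0 := hZ ι _ f isOpen_ball (convex_ball _ _).isPreconnected hf ⟨glue s 0 y,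
    mem_ball_zero_iff.2 ((norm_glue_lt s hR _ _).2 ⟨by simpa using hR, mem_ball_zero_iff.1 hy⟩), by
      have : (Matrix.of fun j => L (ξ j y)) = 1 := by
        ext j i
        rw [Matrix.of_apply, hLe, Matrix.one_apply, Pi.single_apply]
        simp only [eq_comm]
      simp only [f, yp_glue, this, det_one]
      exact one_ne_zero⟩
  refine measure_mono_null (fun z hz => ?_) h0
  refine ⟨hz.1, ?_⟩
  by_contra h
  exact hz.2 (LinearIndependent.of_comp L (Matrix.linearIndependent_rows_of_det_ne_zero h))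

/-- an invertible real matrix keeps independence -/
lemma indep_mat {q : ℕ} {τ : Type} (v : Fin q → V τ) (T : Matrix (Fin q) (Fin q) ℝ)
    (hT : T.det ≠ 0) (hv : LinearIndependent ℂ v) :
    LinearIndependent ℂ fun j => ∑ i, T j i • v i := by
  rw [Fintype.linearIndependent_iff] at hv ⊢
  intro c hc
  have hd : (T.map Complex.ofRealHom).det ≠ 0 := by
    rw [← RingHom.mapMatrix_apply, ← RingHom.map_det]
    simpa using hT
  have h1 : c ᵥ* T.map Complex.ofRealHom = 0 := by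
    funext i
    refine hv _ ?_ i
    rw [← hc]
    simp only [Finset.smul_sum, vecMul, dotProduct, Finset.sum_smul, Matrix.map_apply]
    rw [Finset.sum_comm]
    refine Finset.sum_congr rfl fun j _ => Finset.sum_congr rfl fun k _ => ?_
    rw [mul_smul]
    rfl
  exact congrFun (Matrix.eq_zero_of_vecMul_eq_zero hd h1)

variable {M : Atl ι X} {g : X → Mat ι} {C : Cov M} {s : Finset ι} {q : ℕ}
  {ξ : Fin C.n → Fin q → YY s → YY s}

/-- independence passes to overlapping charts -/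
lemma pass (hZ : ZeroS) (hK : C.KillX s g q ξ) {a b : Fin C.n} {x : X} (ha : x ∈ (C.e a).source)
    (hb : x ∈ (C.e b).source) (ha' : ‖C.e a x‖ < 3 * C.r a) (hb' : ‖C.e b x‖ < 3 * C.r b)
    (h : volume {z ∈ ball (0 : V ι) (3 * C.r b) |
      ¬ LinearIndependent ℂ fun j => ξ b j (yp s z)} = 0) :
    volume {z ∈ ball (0 : V ι) (3 * C.r a) |
      ¬ LinearIndependent ℂ fun j => ξ a j (yp s z)} = 0 := by
  obtain ⟨φ, T, -, hT, h1, h2⟩ := hK.cov a b x ha hb ha' hb'
  have hca : ContinuousAt (C.e a) x := (C.e a).continuousAt ha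
  have h3 := ((an_yp s (C.e a x)).continuousAt.tendsto.comp hca.tendsto).eventually h2
  have h4 : ∀ᶠ x' in 𝓝 x, ‖C.e a x'‖ < 3 * C.r a :=
    hca.norm.eventually_lt continuousAt_const ha'
  have hs : Tendsto (C.e b).symm (𝓝 (C.e b x)) (𝓝 x) := (C.e b).tendsto_symm hb
  by_contra hne
  refine ((volume : Measure (V ι)).measure_pos_of_mem_nhds (x := C.e b x) ?_).ne' h
  filter_upwards [hs.eventually h1, hs.eventually h3, hs.eventually h4,
    (C.e b).eventually_right_inverse' hb, isOpen_ball.mem_nhds (mem_ball_zero_iff.2 hb')]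
    with z e1 e2 e3 e4 e5
  refine ⟨e5, fun hi => hne (null hZ s (C.r3 a) (ξ a) (hK.an a)
    (y := yp s (C.e a ((C.e b).symm z)))
    (mem_ball_zero_iff.2 ((norm_lt_iff s (C.r3 a) _).1 e3).2) ?_)⟩
  rw [e4] at e1
  refine LinearIndependent.of_comp (fderiv ℂ φ (yp s (C.e a ((C.e b).symm z)))).toLinearMap ?_
  have h5 := indep_mat _ T hT hi
  rw [e1] at h5
  exact (congrArg (fun v : Fin q → YY s => LinearIndependent ℂ v) (funext e2)).mpr h5

/-- the property spreads over a connected space -/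
lemma spread [PreconnectedSpace X] (Q : Fin C.n → Prop) {k : Fin C.n} (h0 : Q k)
    (h : ∀ a b x, x ∈ (C.e a).source → x ∈ (C.e b).source → ‖C.e a x‖ < 3 * C.r a →
      ‖C.e b x‖ < 3 * C.r b → Q b → Q a) (l : Fin C.n) : Q l := by
  by_contra hl
  have hne : ∀ j, ∃ x, x ∈ (C.pch ∅ j).source := fun j => by
    have h0 : (0 : V ι) ∈ (C.e j).target :=
      C.ball_sub j (c := 3) (by norm_num) (mem_ball_self (C.r3 j))
    refine ⟨(C.e j).symm 0, (C.mem_pch ∅ j _).2 ⟨(C.e j).map_target h0, ?_⟩⟩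
    rw [(C.e j).right_inv h0, norm_zero]
    exact C.r3 j
  obtain ⟨x, -, hx1, hx2⟩ := isPreconnected_univ (⋃ j ∈ {j | Q j}, (C.pch ∅ j).source)
    (⋃ j ∈ {j | ¬ Q j}, (C.pch ∅ j).source) (isOpen_biUnion fun j _ => (C.pch ∅ j).open_source)
    (isOpen_biUnion fun j _ => (C.pch ∅ j).open_source)
    (fun x _ => by
      obtain ⟨j, h1, h2⟩ := C.cover x
      have hj := (C.mem_pch ∅ j x).2 ⟨h1, by have := C.pos j; linarith⟩
      by_cases hq : Q j
      · exact Or.inl (mem_biUnion (show j ∈ {j | Q j} from hq) hj)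
      · exact Or.inr (mem_biUnion (show j ∈ {j | ¬ Q j} from hq) hj))
    (by
      obtain ⟨x, hx⟩ := hne k
      exact ⟨x, mem_univ _, mem_biUnion (show k ∈ {j | Q j} from h0) hx⟩)
    (by
      obtain ⟨x, hx⟩ := hne l
      exact ⟨x, mem_univ _, mem_biUnion (show l ∈ {j | ¬ Q j} from hl) hx⟩)
  obtain ⟨i, hi, hxi⟩ := mem_iUnion₂.1 hx1
  obtain ⟨j, hj, hxj⟩ := mem_iUnion₂.1 hx2
  rw [C.mem_pch] at hxi hxj
  exact hj (h j i x hxj.1 hxi.1 hxj.2 hxi.2 hi)

/-- positivity of the difference -/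
lemma pd_sub (hM : MatS) {τ : Type} [Fintype τ] [DecidableEq τ] {H G : Mat τ} {ε : ℝ}
    (hε : 0 < ε) (hH : H.PosDef) (hG : G.PosDef) (h : ε * trm H G < 1) :
    (H - (ε : ℂ) • G).PosDef := by
  have h1 := (hM.le_trm τ H G hH hG.posSemidef).smul (a := (ε : ℂ)) (by exact_mod_cast hε.le)
  have h2 := hH.smul (a := ((1 - ε * trm H G : ℝ) : ℂ)) (by exact_mod_cast sub_pos.2 h)
  convert h2.add_posSemidef h1 using 1
  push_cast
  module

end GenAux

open GenAux in
theorem genS (hM : MatS) (hA : RepA) (hR : RowsS) (hU : UBasS) (hZ : ZeroS) (hC : CplxS) :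
    GenS := by
  intro ι X _ _ _ _ _ _ M g C s ε u q ξ x0 hg hP hε hS hx0 hK
  obtain ⟨hb, hH, hric⟩ := hU ι X M g C s ε u hg hP hε hS
  have hG : Rows' C s 1 g := hR.rows ι X M C s 1 g hg one_pos fun a z hz => by
    simpa using hP.1 a z (C.ball_sub a le_rfl hz)
  have hA' := hA ι X M
  obtain ⟨a, ha, ha'⟩ := C.cover x0
  refine spread _ (k := a) ?_ fun a b x h1 h2 h3 h4 => pass hZ hK h1 h2 h3 h4
  have hr := C.pos a
  have h34 : ∀ w ∈ ball (0 : YY s) (3 * C.r a), w ∈ ball (0 : YY s) (4 * C.r a) :=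
    fun w hw => ball_subset_ball (by linarith) hw
  set H := C.trv s (M.hm g ε u) a with hHd
  set G := C.trv s g a with hGd
  have kH : KOn H (ball 0 (4 * C.r a)) := hH.kon a
  have kG : KOn G (ball 0 (4 * C.r a)) := hG.kon a
  have hz0 : C.e a x0 ∈ ball (0 : V ι) (4 * C.r a) := mem_ball_zero_iff.2 (by linarith)
  have hy0 : yp s (C.e a x0) ∈ ball (0 : YY s) (3 * C.r a) :=
    mem_ball_zero_iff.2 ((norm_lt_iff s (C.r3 a) _).1 (by linarith)).2
  have hε' : (ε : ℂ) ≠ 0 := by exact_mod_cast hε.ne'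
  have h1 : ε * trm (H (yp s (C.e a x0))) (G (yp s (C.e a x0))) < 1 := by
    obtain ⟨e1, -, e2, -, e3, -, -⟩ := hH.ent a _ hz0
    obtain ⟨f1, -, f2, -, f3, -, -⟩ := hG.ent a _ hz0
    have hd := (hS.2.1 _ (C.mem a)).2 _ ((C.e a).map_source ha)
    have h2 := hR.tr ι s _ _ _ _ hε' hd.det_pos.ne' e1 e2 f1 f2
    rw [e3, f3] at h2
    rw [← hA'.trm_rep _ _ _ (C.mem a) _ ha, trm, h2, add_re] at hx0
    have h3 : ((s.card : ℂ) * (((1 : ℝ) : ℂ) / (ε : ℂ))).re = s.card / ε := by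
      rw [show (s.card : ℂ) * (((1 : ℝ) : ℂ) / (ε : ℂ)) = ((s.card / ε : ℝ) : ℂ) by
        push_cast; ring, ofReal_re]
    rw [h3, mul_add, mul_div_cancel₀ _ hε.ne'] at hx0
    unfold trm
    linarith
  have hcont : ContinuousAt (fun w => ε * trm (H w) (G w)) (yp s (C.e a x0)) := by
    have h2 := ((kG.1.1.cd (h34 _ hy0)).mul ((kH.1.1.cd (h34 _ hy0)).inv
      (kH.2 _ (h34 _ hy0)).det_pos.ne')).tr.continuousAt
    exact continuousAt_const.mul (continuous_re.continuousAt.comp h2)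
  obtain ⟨O, hO, hO1, hO2⟩ := _root_.mem_nhds_iff.1 (inter_mem
    (hcont.eventually_lt continuousAt_const h1) (isOpen_ball.mem_nhds hy0))
  obtain ⟨y, hy, hi⟩ := hK.ind a O hO1 ⟨_, hO2⟩ fun w hw => (hO hw).2
  obtain ⟨hy1, hy2⟩ := hO hy
  have sm : ∀ B : YY s → Mat {i // i ∉ s}, KOn B (ball 0 (4 * C.r a)) →
      ∀ w ∈ ball (0 : YY s) (3 * C.r a),
        ContDiffAt ℝ ∞ (fun w => Real.log (B w).det.re) w := fun B hB w hw =>
    reCLM.contDiff.contDiffAt.comp w ((hB.1.1.cd (h34 w hw)).lg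
      (hM.det _ _ (hB.2 w (h34 w hw))).1.ne')
  have hid : ∀ w ∈ ball (0 : YY s) (3 * C.r a), u ((C.e a).symm (glue s 0 w)) =
      Real.log (H w).det.re - Real.log (G w).det.re + s.card * Real.log ε := fun w hw => by
    have hz : glue s 0 w ∈ ball (0 : V ι) (4 * C.r a) := mem_ball_zero_iff.2
      ((norm_glue_lt s (by linarith) _ _).2 ⟨by simpa using hr, mem_ball_zero_iff.1 (h34 w hw)⟩)
    have ht := C.ball_sub a le_rfl hz
    have h2 := hA'.rat_rep (M.hm g ε u) g _ (C.mem a) _ ((C.e a).map_target ht)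
    rw [(C.e a).right_inv ht, (hH.ent a _ hz).2.2.2.2.2.2, (hG.ent a _ hz).2.2.2.2.2.2, yp_glue,
      hS.2.2, ← ofReal_pow, ← ofReal_pow, re_ofReal_mul, re_ofReal_mul, one_pow, one_mul] at h2
    have p1 := (hM.det _ _ (kH.2 w (h34 w hw))).1
    have p2 := (hM.det _ _ (kG.2 w (h34 w hw))).1
    rw [← Real.log_exp (u _), ← h2, Real.log_div (by positivity) p2.ne',
      Real.log_mul (by positivity) p1.ne', Real.log_pow]
    ring
  refine null hZ s (C.r3 a) (ξ a) (hK.an a) hy2 (hC _ q (fun w => Real.log (H w).det.re) (ξ a) y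
    (sm H kH y hy2) (fun j => hK.an a j y hy2) ?_ ?_ hi)
  · filter_upwards [isOpen_ball.mem_nhds hy2] with w hw
    refine ⟨fun i j => hK.comm a i j w hw, fun j => ?_⟩
    have h2 := hK.bas u (fun e he z hz => (hS.1 e he z hz).of_le (by simp)) hb a j w hw
    have h3 := hK.vol a j w hw
    have h4 : (fun w => u ((C.e a).symm (glue s 0 w))) =ᶠ[𝓝 w] fun w =>
        Real.log (H w).det.re - Real.log (G w).det.re + s.card * Real.log ε := by
      filter_upwards [isOpen_ball.mem_nhds hw] with w' hw' using hid w' hw'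
    rw [h4.fderiv_eq, fderiv_add_const, fderiv_fun_sub ((sm H kH w hw).differentiableAt (by simp))
      ((sm G kG w hw).differentiableAt (by simp)), _root_.sub_apply] at h2
    linarith
  · have h2 := (hric a y (h34 y hy2)).2
    rw [ric, neg_eq_iff_eq_neg, neg_sub] at h2
    rw [h2]
    exact pd_sub hM hε (kH.2 y (h34 y hy2)) (kG.2 y (h34 y hy2)) hy1

end Pool.Agent.Lib.MP_813db1_ag.HS
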