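import Pool.Agent.Lib.MP_813db1_ag.HS.StmtE
import Pool.Agent.Lib.MP_813db1_ag.HS.Calc2
import Pool.Agent.Lib.MP_caab05_ag.GB.Osg

/-! The invariant Killing fields in matrix language. -/

namespace Pool.Agent.Lib.MP_813db1_ag.HS

open Complex Matrix Filter Topology Set Metric
open scoped ContDiff ComplexOrder

namespace KBrAux

variable {τ : Type} [Fintype τ] [DecidableEq τ]

omit [DecidableEq τ] in
theorem ipV_eq (H : Mat τ) (a b : V τ) : ipV H a b = a ⬝ᵥ H *ᵥ star b := by
  simp only [ipV, dotProduct, mulVec, Finset.mul_sum, Pi.star_apply]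
  exact Finset.sum_congr rfl fun i _ => Finset.sum_congr rfl fun j _ => by ring

/-- the matrix form of the Killing equation. -/
theorem mat_zero (D G J : Mat τ)
    (h : ∀ u v, (ipV D u v).re + (ipV G (J *ᵥ u) v).re + (ipV G u (J *ᵥ v)).re = 0) :
    D + Jᵀ * G + G * J.map star = 0 := by
  have h1 : ∀ u v, (u ⬝ᵥ (D + Jᵀ * G + G * J.map star) *ᵥ star v).re = 0 := by
    intro u v
    have e : star (J *ᵥ v) = J.map star *ᵥ star v := by
      funext i
      simp [mulVec, dotProduct]
    rw [← h u v, ipV_eq, ipV_eq, ipV_eq, e, add_mulVec, add_mulVec, dotProduct_add, dotProduct_add,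
      add_re, add_re, ← mulVec_mulVec, ← mulVec_mulVec, dotProduct_mulVec u Jᵀ, vecMul_transpose]
  generalize D + Jᵀ * G + G * J.map star = N at h1
  ext i j
  have a := h1 (Pi.single i 1) (Pi.single j 1)
  have b := h1 (Pi.single i I) (Pi.single j 1)
  simp [Pi.star_single] at a b
  exact Complex.ext a b

/-- Killing fields preserve the volume form. -/
theorem vol (hc : CurvS) {G : V τ → Mat τ} {U : Set (V τ)} (hU : IsOpen U) (hG : KOn G U) {y : V τ}
    (hy : y ∈ U) (hd : DifferentiableAt ℝ (fun w => rb (G w)) y) {ξ : V τ → V τ}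
    (h : E.Kil (fun w => rb (G w)) ξ y) :
    fderiv ℝ (fun w => Real.log (G w).det.re) y (ξ y) + 2 * (trace (jac ξ y)).re = 0 := by
  obtain ⟨h1, h2, -⟩ := hc.dlg τ G U hU hG.1.1 hG.2 y hy
  have e1 : ∀ u v, fderiv ℝ (fun w => rb (G w)) y (ξ y) u v =
      (ipV (Matrix.of fun i j => fderiv ℝ (fun w => G w i j) y (ξ y)) u v).re := by
    intro u v
    have a := (hd.hasFDerivAt.clm_apply (hasFDerivAt_const u y)).clm_apply (hasFDerivAt_const v y)
    have b := reCLM.hasFDerivAt.comp y (HasFDerivAt.fun_sum (u := Finset.univ) fun i _ =>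
      HasFDerivAt.fun_sum (u := Finset.univ) fun j _ =>
        ((((hG.1.1 y hy i j).differentiableAt (by simp)).hasFDerivAt.mul_const (u i)).mul_const
          (star (v j))))
    have := congrArg (fun L => L (ξ y)) (a.unique b)
    simp only [ipV, of_apply]
    simpa [mul_comm, mul_left_comm] using this
  have e2 := mat_zero _ (G y) (jac ξ y) fun u v => by
    rw [← e1, jac_mulVec, jac_mulVec]
    exact h u v
  have e3 : fderiv ℝ (fun w => Real.log (G w).det.re) y (ξ y) = (fderiv ℝ (lg G) y (ξ y)).re :=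
    congrArg (fun L => L (ξ y))
      (reCLM.hasFDerivAt.comp y (h1.differentiableAt (by simp)).hasFDerivAt).fderiv
  have hu : IsUnit (G y).det := (hG.2 y hy).isUnit.map detMonoidHom
  rw [add_assoc, add_eq_zero_iff_eq_neg] at e2
  rw [e3, h2, e2, Matrix.neg_mul, Matrix.add_mul, trace_neg, trace_add,
    mul_nonsing_inv_cancel_right _ _ hu, trace_mul_cycle, nonsing_inv_mul _ hu, Matrix.one_mul,
    trace_transpose, show (jac ξ y).map star = (jac ξ y)ᴴᵀ from rfl, trace_transpose,
    trace_conjTranspose]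
  simp
  ring

end KBrAux

open KBrAux in
theorem kbrS (hc : CurvS) (hr : RowsS) : KBrS := by
  intro ι X _ _ _ M g C s h Ψ q ξ hg hp hD hF
  have R := hr.rows ι X M C s 1 g hg one_pos fun a z hz => hp.1 a z (C.ball_sub a le_rfl hz)
  have sub : ∀ a, ball (0 : YY s) (3 * C.r a) ⊆ ball 0 (4 * C.r a) := fun a =>
    ball_subset_ball (by linarith [C.pos a])
  refine ⟨hF.pos, fun a j => MP_caab05_ag.GB.osg _ _ _ _ isOpen_ball (hF.hol a j),
    fun a i j => hF.comm a j i,
    fun a j y hy => vol hc isOpen_ball (R.kon a) (sub a hy)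
      (((h.met a).smooth.contDiffAt (isOpen_ball.mem_nhds hy)).differentiableAt two_ne_zero)
      (hF.kil a j y hy), fun u hu hb a j y hy => ?_, hF.ind, fun a b x xa xb na nb => ?_⟩
  · have hd : ∀ a, ∀ z ∈ ball (0 : V ι) (4 * C.r a), DifferentiableAt ℝ (fn u (C.e a)) z :=
      fun a z hz => (hu _ (C.mem a) z (C.ball_sub a le_rfl hz)).differentiableAt one_ne_zero
    have h4 : ∀ a, 0 < 4 * C.r a := fun a => by linarith [C.pos a]
    refine hF.bas u (fun a w => u ((C.e a).symm (glue s 0 w))) (fun a z hz w hw => ?_) a j y hy ?_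
    · have hz' : ‖WithLp.ofLp z‖ < 3 * C.r a := hz
      have := hr.const ι s _ _ (fun z hz => ⟨hd a z hz, hb a z hz⟩) (glue s (WithLp.ofLp z) w)
        (mem_ball_zero_iff.2 ((norm_glue_lt s (h4 a) _ _).2
          ⟨by linarith [C.pos a], mem_ball_zero_iff.1 (sub a hw)⟩))
      rw [yp_glue] at this
      exact ofReal_injective this
    · refine differentiableAt_ofReal.1 (DifferentiableAt.comp (g := fn u (C.e a)) y
        (hd a _ (mem_ball_zero_iff.2 ((norm_glue_lt s (h4 a) _ _).2
          ⟨by simpa using h4 a, mem_ball_zero_iff.1 (sub a hy)⟩)))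
        (differentiableAt_pi.2 fun i => ?_))
      unfold glue
      split_ifs <;> fun_prop
  · have he : ∀ a, ((C.pa s h).e a).source = (C.pch s a).source := fun _ => rfl
    obtain ⟨γ, h1, h2⟩ := E.Dev.ofTrans (P := C.pa s h) (k := a) (l := b) (x := x) hD
      (by rw [he]; exact (C.mem_pch s a x).2 ⟨xa, na⟩)
      (by rw [he]; exact (C.mem_pch s b x).2 ⟨xb, nb⟩)
    obtain ⟨T, t1, t2⟩ := hF.cov a b γ _ _ h1
    obtain ⟨O, o1, o2, o3⟩ := _root_.eventually_nhds_iff.1 (h1.liso hD)
    exact ⟨_, T, MP_caab05_ag.GB.osg _ _ _ O o2 (fun w hw => (o1 w hw).1.differentiableWithinAt) _ o3,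
      t1, h2.mono fun x' hx' => congrArg Prod.snd hx', t2⟩

end Pool.Agent.Lib.MP_813db1_ag.HS
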