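import Pool.Agent.Lib.MP_813db1_ag.HS.StmtE
import Pool.Agent.Lib.MP_813db1_ag.HS.Calc2
import Pool.Agent.Lib.MP_813db1_ag.HS.Vol

/-! The volume bound on a smaller tube. -/

set_option autoImplicit false

namespace Pool.Agent.Lib.MP_813db1_ag.HS

open MeasureTheory Complex Matrix Filter Topology Set Metric
open scoped ContDiff ComplexOrder ENNReal

namespace TMeasAux

/-- a local biholomorphism distorts integrals by a bounded factor. -/
theorem chg {τ : Type} [Fintype τ] [DecidableEq τ] {φ : V τ → V τ} {y : V τ}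
    (h : AnalyticAt ℂ φ y) (h0 : (jac φ y).det ≠ 0) : ∃ T, IsOpen T ∧ y ∈ T ∧ ContinuousOn φ T ∧
      ∃ B : ℝ≥0∞, B ≠ ⊤ ∧ ∀ f : V τ → ℝ≥0∞, ∫⁻ w in T, f (φ w) ≤ B * ∫⁻ w, f w := by
  have p : 0 < ‖(jac φ y).det‖ ^ 2 := by positivity
  have st : HasStrictFDerivAt φ ((((fderiv ℂ φ y).restrictScalars ℝ).toContinuousLinearEquivOfDetNeZero
      (by rw [Vol.det_real]; exact p.ne') : V τ ≃L[ℝ] V τ) : V τ →L[ℝ] V τ) y :=
    h.hasStrictFDerivAt.restrictScalars ℝ
  have c : ContinuousAt (fun w => ‖(jac φ w).det‖ ^ 2) y :=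
    (cdM_jac (n := 0) h).det.continuousAt.norm.pow 2
  obtain ⟨T, t1, t2, t3⟩ := _root_.eventually_nhds_iff.1 (st.eventually_left_inverse.and
    (h.eventually_analyticAt.and (c.eventually (lt_mem_nhds (half_lt_self p)))))
  have q : ENNReal.ofReal (‖(jac φ y).det‖ ^ 2 / 2) ≠ 0 := (ENNReal.ofReal_pos.2 (half_pos p)).ne'
  refine ⟨T, t2, t3, fun w hw => (t1 w hw).2.1.continuousAt.continuousWithinAt,
    (ENNReal.ofReal (‖(jac φ y).det‖ ^ 2 / 2))⁻¹, ENNReal.inv_ne_top.2 q, fun f => ?_⟩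
  refine le_trans ?_ (mul_le_mul_right (setLIntegral_le_lintegral (φ '' T) f) _)
  rw [lintegral_image_eq_lintegral_abs_det_fderiv_mul volume t2.measurableSet
    (f' := fun w => (fderiv ℂ φ w).restrictScalars ℝ) (fun w hw =>
      ((t1 w hw).2.1.differentiableAt.hasFDerivAt.restrictScalars ℝ).hasFDerivWithinAt)
    (fun w hw v hv e => by rw [← (t1 w hw).1, e, (t1 v hv).1]),
    ← lintegral_const_mul' _ _ (ENNReal.inv_ne_top.2 q)]
  refine setLIntegral_mono' t2.measurableSet fun w hw => ?_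
  rw [← mul_assoc]
  refine le_mul_of_one_le_left' ?_
  rw [← ENNReal.inv_mul_cancel q ENNReal.ofReal_ne_top, Vol.det_real]
  exact mul_le_mul_right (ENNReal.ofReal_le_ofReal ((t1 w hw).2.2.le.trans (le_abs_self _))) _

theorem cyp {ι : Type} [Fintype ι] (s : Finset ι) : Continuous (yp s : V ι → YY s) :=
  continuous_pi fun i => continuous_apply i.1

end TMeasAux

open TMeasAux

theorem tmeasS (hv : VolS) (hr : RowsS) : TMeasS := by
  intro ι X _ _ _ _ _ _ _ M g μ C s a0 N y1 δ W Yc mu hg hμ _ hT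
  classical
  have d0 := half_pos hT.δpos
  have d1 := half_lt_self hT.δpos
  have cY : ∀ x ∈ W, ContinuousAt Yc x := fun x hx => by
    obtain ⟨b, b1, b2⟩ := C.cover x
    obtain ⟨φ, h1, -, h3, -⟩ := hT.loc b x hx b1 b2
    exact (h1.continuousAt.comp (f := fun x' => yp s (C.e b x'))
      ((cyp s).continuousAt.comp ((C.e b).continuousAt b1))).congr (EventuallyEq.symm h3)
  have op : IsOpen {x | x ∈ W ∧ Yc x ∈ ball y1 (δ / 2)} := isOpen_iff_mem_nhds.2 fun x hx =>
    inter_mem (hT.opn.mem_nhds hx.1) (cY x hx.1 (isOpen_ball.mem_nhds hx.2))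
  have loc : ∀ x ∈ W, ∃ O ∈ 𝓝 x, ∃ B : ℝ≥0∞, B ≠ ⊤ ∧ ∀ f : YY s → ℝ≥0∞, Measurable f →
      ∫⁻ x' in O, f (Yc x') ∂μ ≤ B * ∫⁻ y, f y := by
    intro x hx
    obtain ⟨b, b1, b2⟩ := C.cover x
    obtain ⟨φ, h1, h2, h3, -⟩ := hT.loc b x hx b1 b2
    have r0 := C.pos b
    have sb : ball (0 : V ι) (C.r b) ⊆ (C.e b).target := by
      simpa using C.ball_sub b (c := 1) (by norm_num)
    have pd : (C.trv s g b (yp s (C.e b x))).PosDef :=
      ((hg _ (C.mem b)).2 _ (sb (mem_ball_zero_iff.2 ((norm_glue_lt s r0 0 _).2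
        ⟨by simpa using r0, ((norm_lt_iff s r0 _).1 b2).2⟩)))).submatrix Subtype.val_injective
    have h0 : (jac φ (yp s (C.e b x))).det ≠ 0 := fun e => by
      have := pd.det_pos.ne'
      rw [h2.self_of_nhds.1, pull, det_mul, det_mul, det_transpose, e, zero_mul, zero_mul] at this
      exact this rfl
    obtain ⟨T, t1, t2, t3, B, B0, hB⟩ := chg h1 h0
    have m := (C.e b).map_source b1
    have c : ContinuousAt (fun z => (M.repF g (C.e b) z).det.re) (C.e b x) :=
      continuous_re.continuousAt.comp ((hg _ (C.mem b)).1.1.det m).continuousAt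
    obtain ⟨S, s1, s2, s3⟩ := _root_.eventually_nhds_iff.1 ((((C.e b).tendsto_symm b1).eventually h3).and
      ((c.eventually (gt_mem_nhds (lt_add_one _))).and
        (((cyp s).continuousAt.eventually_mem (t1.mem_nhds t2)).and
          (isOpen_ball.mem_nhds (mem_ball_zero_iff.2 b2)))))
    have s4 : S ⊆ ball 0 (C.r b) := fun z hz => (s1 z hz).2.2.2
    refine ⟨(C.e b).source ∩ C.e b ⁻¹' S, inter_mem ((C.e b).open_source.mem_nhds b1)
      ((C.e b).continuousAt b1 (s2.mem_nhds s3)),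
      ENNReal.ofReal ((M.repF g (C.e b) (C.e b x)).det.re + 1) *
        (volume (ball (0 : V {i // i ∈ s}) (C.r b)) * B),
      ENNReal.mul_ne_top ENNReal.ofReal_ne_top (ENNReal.mul_ne_top measure_ball_lt_top.ne B0),
      fun f hf => ?_⟩
    have mF : Measurable (T.indicator fun w => f (T.piecewise φ (fun _ => 0) w)) :=
      (hf.comp (t3.measurable_piecewise continuousOn_const t1.measurableSet)).indicator
        t1.measurableSet
    have e1 : ∫⁻ w, T.indicator (fun w => f (T.piecewise φ (fun _ => 0) w)) w = ∫⁻ w in T, f (φ w) := by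
      rw [lintegral_indicator t1.measurableSet]
      exact setLIntegral_congr_fun t1.measurableSet fun w hw => by
        simp only [piecewise_eq_of_mem _ _ _ hw]
    rw [((hv ι X M g hg).2 μ hμ).lint _ (C.mem b) S s2.measurableSet (s4.trans sb), mul_assoc,
      mul_assoc]
    refine le_trans ?_ (mul_le_mul_right (mul_le_mul_right ((setLIntegral_le_lintegral
      (ball 0 (C.r b)) _).trans (e1.le.trans (hB f))) _) _)
    rw [← (hr.norm ι s _ r0).2 _ mF, ← lintegral_const_mul' _ _ ENNReal.ofReal_ne_top]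
    refine le_trans (setLIntegral_mono' s2.measurableSet fun z hz => ?_) (lintegral_mono_set s4)
    obtain ⟨a1, a2, a3, -⟩ := s1 z hz
    rw [a1, (C.e b).right_inv (sb (s4 hz)), indicator_of_mem a3, piecewise_eq_of_mem _ _ _ a3]
    exact mul_le_mul_left (ENNReal.ofReal_le_ofReal a2.le) _
  obtain ⟨B, B0, hB⟩ := (hT.cpt _ (isCompact_closedBall y1 (δ / 2))
    (closedBall_subset_ball d1)).isCompact.induction_on
    (p := fun O => ∃ B : ℝ≥0∞, B ≠ ⊤ ∧ ∀ f : YY s → ℝ≥0∞, Measurable f →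
      ∫⁻ x' in O, f (Yc x') ∂μ ≤ B * ∫⁻ y, f y)
    ⟨0, ENNReal.zero_ne_top, fun f _ => by simp⟩
    (fun _ _ h ⟨B, B0, hB⟩ => ⟨B, B0, fun f hf => (lintegral_mono_set h).trans (hB f hf)⟩)
    (fun _ _ ⟨B, B0, hB⟩ ⟨B', B0', hB'⟩ => ⟨B + B', ENNReal.add_ne_top.2 ⟨B0, B0'⟩, fun f hf =>
      (lintegral_union_le _ _ _).trans (by rw [add_mul]; exact add_le_add (hB f hf) (hB' f hf))⟩)
    fun x hx => (loc x hx.1).imp fun O h => ⟨mem_nhdsWithin_of_mem_nhds h.1, h.2⟩
  refine ⟨B.toReal, hT.Npos, d0, (ball_subset_ball d1.le).trans hT.sub, op, fun x hx => hx.2,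
    fun b x hx => hT.loc b x hx.1, fun K hK h => ?_, fun z y hz hy => ?_, fun f hf => ?_⟩
  · convert hT.cpt K hK (h.trans (ball_subset_ball d1.le)) using 1
    ext x
    exact ⟨fun k => ⟨k.1.1, k.2⟩, fun k => ⟨⟨k.1, h k.2⟩, k.2⟩⟩
  · have := hT.box z y hz (ball_subset_ball d1.le hy)
    exact ⟨⟨this.1, by rwa [this.2]⟩, this.2⟩
  · rw [ENNReal.ofReal_toReal B0, ← lintegral_indicator measurableSet_ball]
    refine le_trans ?_ ((lintegral_mono_set (s := {x | x ∈ W ∧ Yc x ∈ ball y1 (δ / 2)})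
      (t := {x | x ∈ W ∧ Yc x ∈ closedBall y1 (δ / 2)}) fun x hx => ⟨hx.1, ball_subset_closedBall hx.2⟩).trans
      (hB _ (hf.indicator measurableSet_ball)))
    exact setLIntegral_mono' op.measurableSet fun x hx => by rw [indicator_of_mem hx.2]

end Pool.Agent.Lib.MP_813db1_ag.HS
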