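import Pool.Agent.Lib.MP_813db1_ag.HS.StmtE

/-! Basic forms transform by the transversal part of the change of charts. -/

namespace Pool.Agent.Lib.MP_813db1_ag.HS

open Complex Matrix Filter Topology Set Metric
open scoped ContDiff ComplexOrder

namespace TrvAux

variable {ι X : Type} [Fintype ι] [DecidableEq ι] {s : Finset ι}

theorem sum_red (f : ι → ℂ) (h : ∀ p ∈ s, f p = 0) : ∑ p, f p = ∑ p : {i // i ∉ s}, f p := by
  rw [← Fintype.sum_subtype_add_sum_subtype (· ∈ s) f,
    Finset.sum_eq_zero fun (p : {i // i ∈ s}) _ => h p p.2, zero_add]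

theorem pull_sub {J : Mat ι} (hJ : Blk s J) (H : Mat ι) :
    ((pull J H).submatrix Subtype.val Subtype.val : Mat {i // i ∉ s}) =
      pull (J.submatrix Subtype.val Subtype.val) (H.submatrix Subtype.val Subtype.val) := by
  ext i j
  simp only [pull, submatrix_apply, Matrix.mul_apply, transpose_apply, map_apply]
  rw [sum_red (s := s) _ fun q hq => by rw [hJ q j (iff_of_true hq j.2), star_zero, mul_zero]]
  refine Finset.sum_congr rfl fun q _ => ?_
  rw [sum_red (s := s) _ fun p hp => by rw [hJ p i (iff_of_true hp i.2), zero_mul]]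

theorem jac_sub {τ : V ι → V ι} {φ : YY s → YY s} {w : V ι} (hτ : DifferentiableAt ℂ τ w)
    (hφ : DifferentiableAt ℂ φ (yp s w)) (h : ∀ᶠ v in 𝓝 w, yp s (τ v) = φ (yp s v)) :
    (jac τ w).submatrix Subtype.val Subtype.val = jac φ (yp s w) := by
  let Y : V ι →L[ℂ] YY s := ContinuousLinearMap.pi fun i => ContinuousLinearMap.proj i.1
  have e : Y.comp (fderiv ℂ τ w) = (fderiv ℂ φ (yp s w)).comp Y :=
    ((Y.hasFDerivAt.comp w hτ.hasFDerivAt).congr_of_eventuallyEq
      (h.mono fun v hv => hv.symm)).unique (hφ.hasFDerivAt.comp w Y.hasFDerivAt)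
  ext p i
  have e2 : Y (Pi.single i.1 1) = Pi.single i 1 := by
    funext k
    change Pi.single (M := fun _ => ℂ) i.1 1 k.1 = _
    simp only [Pi.single_apply, Subtype.ext_iff]
  have e3 := congrFun (ContinuousLinearMap.ext_iff.1 e (Pi.single i.1 1)) p
  rw [ContinuousLinearMap.comp_apply, ContinuousLinearMap.comp_apply, e2] at e3
  exact e3

variable [TopologicalSpace X] {M : Atl ι X}

theorem pt (hA : RepA' M) {g B : X → Mat ι} {C : Cov M} {c : ℝ} {a b : Fin C.n} {x : X}
    {φ : YY s → YY s} (hP : C.Prod g s) (hR : Rows' C s c B) (ha : x ∈ (C.e a).source)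
    (hb : x ∈ (C.e b).source) (na : ‖C.e a x‖ < 4 * C.r a) (nb : ‖C.e b x‖ < 4 * C.r b)
    (hφ : AnalyticAt ℂ φ (yp s (C.e a x)))
    (h : ∀ᶠ x' in 𝓝 x, yp s (C.e b x') = φ (yp s (C.e a x'))) :
    C.trv s B a (yp s (C.e a x)) =
      pull (jac φ (yp s (C.e a x))) (C.trv s B b (yp s (C.e b x))) := by
  rw [← (hR.ent a _ (mem_ball_zero_iff.2 na)).2.2.2.2.1,
    ← (hR.ent b _ (mem_ball_zero_iff.2 nb)).2.2.2.2.1,
    hA.repF_tr B _ (C.mem a) _ (C.mem b) x ha hb, pull_sub (hP.2 a b x ha hb), tj,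
    jac_sub (M.hol _ (C.mem a) _ (C.mem b) x ha hb).differentiableAt hφ.differentiableAt]
  filter_upwards [((C.e a).tendsto_symm ha).eventually h,
    (C.e a).open_target.mem_nhds ((C.e a).map_source ha)] with v h1 h2
  rw [Function.comp_apply, h1, (C.e a).right_inv h2]

end TrvAux

theorem trvS (hA : RepA) : TrvS := by
  intro ι X _ _ _ M g B C s c a b x φ hP hR ha hb na nb hφ h
  have hA := hA ι X M
  refine ⟨fun h0 => ?_, ?_⟩
  · have := ((hR.kon a).2 _ (mem_ball_zero_iff.2 ((norm_lt_iff s (by linarith [C.pos a]) _).1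
      na).2)).det_pos.ne'
    rw [TrvAux.pt hA hP hR ha hb na nb hφ h, pull, det_mul, det_mul, det_transpose, h0, zero_mul,
      zero_mul] at this
    exact this rfl
  · have ca := (C.e a).continuousAt ha
    have cb := (C.e b).continuousAt hb
    have cy : ContinuousAt (fun x' => yp s (C.e a x')) x :=
      continuousAt_pi.2 fun i => continuousAt_pi.1 ca i.1
    filter_upwards [(C.e a).open_source.mem_nhds ha, (C.e b).open_source.mem_nhds hb,
      ca.norm.eventually_lt continuousAt_const na, cb.norm.eventually_lt continuousAt_const nb,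
      cy.eventually hφ.eventually_analyticAt, h.eventually_nhds] with x' h1 h2 h3 h4 h5 h6
      using TrvAux.pt hA hP hR h1 h2 h3 h4 h5 h6

end Pool.Agent.Lib.MP_813db1_ag.HS
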