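import Pool.Agent.Lib.MP_813db1_ag.HS.StmtE
import Pool.Agent.Lib.MP_813db1_ag.HS.E.Alt
import Pool.Agent.Lib.MP_813db1_ag.HS.E.Trv
import Pool.Agent.Lib.MP_813db1_ag.HS.E.Atl
import Pool.Agent.Lib.MP_813db1_ag.HS.E.KBr
import Pool.Agent.Lib.MP_813db1_ag.HS.E.Cplx
import Pool.Agent.Lib.MP_813db1_ag.HS.E.Coc
import Pool.Agent.Lib.MP_813db1_ag.HS.E.Gen
import Pool.Agent.Lib.MP_813db1_ag.HS.E.Boch
import Pool.Agent.Lib.MP_813db1_ag.HS.E.TBr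
import Pool.Agent.Lib.MP_813db1_ag.HS.E.TMeas

/-! Part E: assembly. -/

namespace Pool.Agent.Lib.MP_813db1_ag.HS

open Set Metric

theorem tubeX_of (h1 : AtlS) (h2 : KBrS) (h3 : BochS) (h4 : TBrS) (h5 : TMeasS) : TubeXS := by
  intro ι X _ _ _ _ _ _ _ _ M g μ u C s hg hμ _ hF hP
  have h := h1 ι X M g C s hg hP
  obtain ⟨Ψ, hD, ⟨q, ξ, hξ⟩ | hT⟩ := E.alt (C.pa s h)
  · exact (h3 ι X M g μ u C s q ξ hg hμ hF hP (h2 ι X M g C s h Ψ q ξ hg hP hD hξ)).elim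
  · obtain ⟨a0, -⟩ := C.cover (Classical.arbitrary X)
    obtain ⟨N, c, y1, δ, R, hs, hT⟩ := hT a0 (ball 0 (C.r a0)) isOpen_ball
      (nonempty_ball.2 (C.pos a0))
      (ball_subset_ball (show C.r a0 ≤ 3 * C.r a0 by have := C.pos a0; linarith))
    obtain ⟨W, Yc, mu, h0⟩ := h4 ι X M g C s h Ψ N c a0 y1 δ R hg hP hD hT hs
    obtain ⟨B, hB⟩ := h5 ι X M g μ C s a0 N y1 δ W Yc mu hg hμ hP h0
    exact ⟨a0, N, y1, δ / 2, B, _, Yc, mu, hB⟩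

theorem tubeX (hM : MatS) (hC : CurvS) (hA : RepA) (hB : RepB) (hP : PouS) (hV : VolS)
    (hG : GreenS) (hR : RowsS) (hU : UBasS) (hS : SubS) (hZ : ZeroS) : TubeXS :=
  tubeX_of (atlS (trvS hA) hA hR) (kbrS hC hR)
    (bochS hA hV hR hU hS (trvS hA) (genS hM hA hR hU hZ cplxS) (cocS hA hB hP hV hG hM))
    (tbrS hA hR) (tmeasS hV hR)

end Pool.Agent.Lib.MP_813db1_ag.HS
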