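import Pool.Agent.Lib.MP_813db1_ag.HS.E.St

/-! Elementary calculus of motions, local isometries and the leaf relation. -/

namespace Pool.Agent.Lib.MP_813db1_ag.HS.E

open Set Filter Topology Metric

noncomputable section

section mot

variable {Z : Type} [NormedAddCommGroup Z] [InnerProductSpace ℂ Z]

lemma lin_apply (γ : Mot Z) (v : Z) : lin γ v = γ.linearIsometryEquiv v := rfl

lemma mot_sub (γ : Mot Z) (z z' : Z) : γ z - γ z' = lin γ (z - z') := by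
  have := γ.map_vsub z z'
  simpa [lin_apply] using this.symm

lemma mot_eq (γ : Mot Z) (z : Z) : γ z = lin γ z + γ 0 := by
  have := mot_sub γ z 0
  rw [sub_zero] at this
  rw [← this]; abel

lemma mot_mul (γ δ : Mot Z) (z : Z) : (γ * δ) z = γ (δ z) := rfl

lemma mot_one (z : Z) : (1 : Mot Z) z = z := rfl

lemma mot_inv_apply (γ : Mot Z) (z : Z) : γ⁻¹ (γ z) = z := by
  rw [← mot_mul, inv_mul_cancel, mot_one]

lemma mot_apply_inv (γ : Mot Z) (z : Z) : γ (γ⁻¹ z) = z := by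
  rw [← mot_mul, mul_inv_cancel, mot_one]

lemma lin_eq (γ : Mot Z) (v : Z) : lin γ v = γ v - γ 0 := by
  rw [mot_sub, sub_zero]

lemma lin_mul (γ δ : Mot Z) : lin (γ * δ) = lin γ * lin δ := by
  ext v
  rw [mul_apply_eq_comp, lin_eq, mot_mul, mot_mul, mot_sub, ← lin_eq]

lemma lin_one : lin (1 : Mot Z) = 1 := by
  ext v
  rw [lin_eq, mot_one, mot_one, sub_zero]; rfl

lemma lin_inv_mul (γ : Mot Z) : lin γ⁻¹ * lin γ = 1 := by rw [← lin_mul, inv_mul_cancel, lin_one]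

lemma lin_mul_inv (γ : Mot Z) : lin γ * lin γ⁻¹ = 1 := by rw [← lin_mul, mul_inv_cancel, lin_one]

lemma lin_inv_apply (γ : Mot Z) (v : Z) : lin γ⁻¹ (lin γ v) = v := by
  rw [← mul_apply_eq_comp, lin_inv_mul]; rfl

lemma lin_apply_inv (γ : Mot Z) (v : Z) : lin γ (lin γ⁻¹ v) = v := by
  rw [← mul_apply_eq_comp, lin_mul_inv]; rfl

lemma norm_lin_apply (γ : Mot Z) (v : Z) : ‖lin γ v‖ = ‖v‖ := γ.linearIsometryEquiv.norm_map v

lemma inner_lin (γ : Mot Z) (u v : Z) : inner ℂ (lin γ u) (lin γ v) = inner ℂ u v :=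
  γ.linearIsometryEquiv.inner_map_map u v

lemma norm_lin_le (γ : Mot Z) : ‖lin γ‖ ≤ 1 :=
  ContinuousLinearMap.opNorm_le_bound _ zero_le_one fun v => by rw [norm_lin_apply, one_mul]

lemma norm_mot_sub (γ : Mot Z) (z z' : Z) : ‖γ z - γ z'‖ = ‖z - z'‖ := by
  rw [mot_sub, norm_lin_apply]

lemma mot_inv_zero (γ : Mot Z) : γ⁻¹ 0 = -lin γ⁻¹ (γ 0) := by
  have := mot_eq γ⁻¹ (γ 0)
  rw [mot_inv_apply] at this
  exact eq_neg_of_add_eq_zero_right this.symm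

lemma mot_ext {γ δ : Mot Z} (h1 : lin γ = lin δ) (h2 : γ 0 = δ 0) : γ = δ := by
  ext z
  rw [mot_eq γ, mot_eq δ, h1, h2]

lemma tr_apply (t z : Z) : tr t z = t + z := rfl

lemma tr_zero_apply (t : Z) : tr t 0 = t := by rw [tr_apply, add_zero]

lemma lin_tr (t : Z) : lin (tr t) = 1 := by
  ext v
  rw [lin_eq, tr_apply, tr_apply]; simp

lemma tr_add (s t : Z) : tr (s + t) = tr s * tr t := by
  ext z
  rw [mot_mul, tr_apply, tr_apply, tr_apply, add_assoc]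

lemma tr_zero : tr (0 : Z) = 1 := by
  ext z
  rw [tr_apply, zero_add, mot_one]

lemma tr_neg (t : Z) : tr (-t) = (tr t)⁻¹ := by
  rw [eq_inv_iff_mul_eq_one, ← tr_add, neg_add_cancel, tr_zero]

lemma tr_comm (s t : Z) : tr s * tr t = tr t * tr s := by rw [← tr_add, ← tr_add, add_comm]

lemma tr_inj {s t : Z} (h : tr s = tr t) : s = t := by
  rw [← tr_zero_apply s, h, tr_zero_apply]

lemma eq_tr {γ : Mot Z} (h : lin γ = 1) : γ = tr (γ 0) :=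
  mot_ext (by rw [h, lin_tr]) (tr_zero_apply _).symm

lemma conj_tr (γ : Mot Z) (t : Z) : γ * tr t * γ⁻¹ = tr (lin γ t) := by
  ext z
  rw [mot_mul, mot_mul, tr_apply, tr_apply, mot_eq γ, map_add, add_assoc, ← mot_eq, mot_apply_inv]

/-- motions which agree near a point are equal -/
lemma mot_ext_nhds {γ δ : Mot Z} {z : Z} (h : ∀ᶠ ζ in 𝓝 z, γ ζ = δ ζ) : γ = δ := by
  have hz : γ z = δ z := h.self_of_nhds
  have hd : ∀ ε : Mot Z, HasFDerivAt (𝕜 := ℂ) (fun ζ => ε ζ) (lin ε) z := fun ε => by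
    have : (fun ζ => ε ζ) = fun ζ => lin ε ζ + ε 0 := funext (mot_eq ε)
    rw [this]
    exact (lin ε).hasFDerivAt.add_const _
  have hl : lin γ = lin δ := ((hd γ).congr_of_eventuallyEq (EventuallyEq.symm h)).unique (hd δ)
  refine mot_ext hl ?_
  rw [mot_eq γ, mot_eq δ, hl] at hz
  exact add_left_cancel hz

end mot

section liso

variable {Y : Type} [NormedAddCommGroup Y] [NormedSpace ℂ Y] [NormedSpace ℝ Y]
  {g g' g'' : Y → Bil Y} {φ ψ : Y → Y} {y : Y}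

lemma LIso.eventually (h : LIso g g' φ y) : ∀ᶠ w in 𝓝 y, LIso g g' φ w := h.eventually_nhds

lemma LIso.diff (h : LIso g g' φ y) : DifferentiableAt ℂ φ y := h.self_of_nhds.1

lemma LIso.iso (h : LIso g g' φ y) (u v : Y) :
    g' (φ y) (fderiv ℂ φ y u) (fderiv ℂ φ y v) = g y u v := h.self_of_nhds.2 u v

lemma LIso.cont (h : LIso g g' φ y) : ContinuousAt φ y := h.diff.continuousAt

lemma LIso.id (g : Y → Bil Y) (y : Y) : LIso g g (fun w => w) y :=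
  Eventually.of_forall fun w => ⟨differentiableAt_id, fun u v => by simp⟩

lemma LIso.congr (h : LIso g g' φ y) (e : ψ =ᶠ[𝓝 y] φ) : LIso g g' ψ y := by
  filter_upwards [h, e.eventually_nhds] with w hw he
  have he' : ψ =ᶠ[𝓝 w] φ := he
  refine ⟨hw.1.congr_of_eventuallyEq he', fun u v => ?_⟩
  rw [he'.fderiv_eq, he'.self_of_nhds]
  exact hw.2 u v

lemma LIso.comp (h : LIso g g' φ y) (h' : LIso g' g'' ψ (φ y)) :
    LIso g g'' (fun w => ψ (φ w)) y := by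
  filter_upwards [h, h.cont.eventually h'] with w hw hw'
  refine ⟨hw'.1.comp w hw.1, fun u v => ?_⟩
  rw [fderiv_fun_comp w hw'.1 hw.1]
  simp only [ContinuousLinearMap.comp_apply]
  rw [hw'.2, hw.2]

lemma LIso.inj (h : LIso g g' φ y) (hp : ∀ u, u ≠ 0 → 0 < g y u u) {u : Y}
    (hu : fderiv ℂ φ y u = 0) : u = 0 := by
  by_contra hne
  have := hp u hne
  rw [← h.iso, hu] at this
  simp at this

/-- uniform two sided bounds for a metric on a smaller closed ball -/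
lemma Met.bounds [FiniteDimensional ℂ Y] {c : Y} {R R' : ℝ} (h : Met g (ball c R')) (hR : R < R') :
    ∃ a > 0, ∃ b > 0, ∀ y ∈ closedBall c R, ∀ u, a * ‖u‖ ^ 2 ≤ g y u u ∧
      ∀ v, |g y u v| ≤ b * ‖u‖ * ‖v‖ := by
  have : ProperSpace Y := FiniteDimensional.proper ℂ Y
  have hs : closedBall c R ⊆ ball c R' := closedBall_subset_ball hR
  have hc : ContinuousOn g (closedBall c R) := h.smooth.continuousOn.mono hs
  obtain ⟨b, hb⟩ := (isCompact_closedBall c R).exists_bound_of_continuousOn (f := g) hc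
  have hK : IsCompact (closedBall c R ×ˢ sphere (0 : Y) 1) :=
    (isCompact_closedBall c R).prod (isCompact_sphere 0 1)
  have hq : ContinuousOn (fun p : Y × Y => g p.1 p.2 p.2) (closedBall c R ×ˢ sphere (0 : Y) 1) :=
    ((hc.comp continuousOn_fst fun p hp => hp.1).clm_apply continuousOn_snd).clm_apply
      continuousOn_snd
  have ha : ∃ a > 0, ∀ p ∈ closedBall c R ×ˢ sphere (0 : Y) 1, a ≤ g p.1 p.2 p.2 := by
    rcases (closedBall c R ×ˢ sphere (0 : Y) 1).eq_empty_or_nonempty with he | hne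
    · exact ⟨1, one_pos, fun p hp => by rw [he] at hp; exact hp.elim⟩
    · obtain ⟨p, hp, hm⟩ := hK.exists_isMinOn hne hq
      refine ⟨_, h.pos p.1 (hs hp.1) p.2 fun h0 => ?_, fun q hq => hm hq⟩
      have := hp.2
      rw [h0] at this
      simp at this
  obtain ⟨a, ha0, ha⟩ := ha
  refine ⟨a, ha0, max b 1, lt_max_of_lt_right one_pos, fun y hy u => ⟨?_, fun v => ?_⟩⟩
  · rcases eq_or_ne u 0 with rfl | hu
    · simp
    · have hn : 0 < ‖u‖ := norm_pos_iff.2 hu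
      have h1 := ha (y, ‖u‖⁻¹ • u) ⟨hy, by
        rw [mem_sphere_zero_iff_norm, norm_smul, norm_inv, norm_norm, inv_mul_cancel₀ hn.ne']⟩
      simp only [map_smul, smul_apply, smul_eq_mul] at h1
      have h2 : ‖u‖⁻¹ * (‖u‖⁻¹ * g y u u) * ‖u‖ ^ 2 = g y u u := by field_simp
      rw [← h2]
      exact mul_le_mul_of_nonneg_right h1 (sq_nonneg _)
  · rw [← Real.norm_eq_abs]
    calc ‖g y u v‖ ≤ ‖g y‖ * ‖u‖ * ‖v‖ := (g y).le_opNorm₂ u v
      _ ≤ max b 1 * ‖u‖ * ‖v‖ := by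
        gcongr
        exact (hb y hy).trans (le_max_left _ _)

/-- uniform bounds for the derivatives of local isometries -/
lemma Met.iso_bound [FiniteDimensional ℂ Y] {c c' : Y} {R R' S S' : ℝ} (h : Met g (ball c R'))
    (h' : Met g' (ball c' S')) (hR : R < R') (hS : S < S') :
    ∃ C ≥ 1, ∀ (φ : Y → Y), ∀ y ∈ closedBall c R, φ y ∈ closedBall c' S → LIso g g' φ y →
      ‖fderiv ℂ φ y‖ ≤ C ∧ ∀ u, ‖u‖ ≤ C * ‖fderiv ℂ φ y u‖ := by
  obtain ⟨a, ha, b, hb, hab⟩ := h.bounds hR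
  obtain ⟨a', ha', b', hb', hab'⟩ := h'.bounds hS
  refine ⟨1 + b / a' + b' / a, by have := div_pos hb ha'; have := div_pos hb' ha; linarith,
    fun φ y hy hy' hφ => ?_⟩
  have key : ∀ {p q s t : ℝ}, 0 < p → 0 < q → 0 ≤ s → 0 ≤ t → p * s ^ 2 ≤ q * t * t →
      s ≤ (1 + q / p) * t := by
    intro p q s t hp hq hs ht hh
    have hr : 0 < q / p := div_pos hq hp
    have h1 : s ^ 2 ≤ q / p * t ^ 2 := by
      rw [div_mul_eq_mul_div, le_div_iff₀ hp]; nlinarith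
    refine abs_le_of_sq_le_sq' ?_ (by positivity) |>.2
    nlinarith [mul_nonneg hr.le (sq_nonneg t), mul_nonneg (sq_nonneg (q / p)) (sq_nonneg t),
      sq_nonneg t]
  have e1 := div_pos hb ha'
  have e2 := div_pos hb' ha
  constructor
  · refine ContinuousLinearMap.opNorm_le_bound _ (by positivity) fun u => ?_
    have h1 := (hab' _ hy' (fderiv ℂ φ y u)).1
    rw [hφ.iso] at h1
    have h2 := key ha' hb (norm_nonneg _) (norm_nonneg u)
      (h1.trans ((le_abs_self _).trans ((hab y hy u).2 u)))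
    nlinarith [norm_nonneg u]
  · intro u
    have h1 := (hab y hy u).1
    rw [← hφ.iso] at h1
    have h2 := key ha hb' (norm_nonneg _) (norm_nonneg _)
      (h1.trans ((le_abs_self _).trans ((hab' _ hy' _).2 _)))
    nlinarith [norm_nonneg (fderiv ℂ φ y u)]

end liso

section rel

variable {X Z Y : Type} [TopologicalSpace X]
  [NormedAddCommGroup Z] [InnerProductSpace ℂ Z]
  [NormedAddCommGroup Y] [NormedSpace ℂ Y] [NormedSpace ℝ Y]
  {P : PAtlas X Z Y} {Ψ : P.ι → Z → Y → X} {k l m : P.ι} {γ δ : Mot Z} {y y' y'' : Y}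

lemma PAtlas.B_open (P : PAtlas X Z Y) (k : P.ι) : IsOpen (P.B k) := isOpen_ball

lemma PAtlas.yc_mem (P : PAtlas X Z Y) (k : P.ι) : P.yc k ∈ P.B k := mem_ball_self (P.yr_pos k)

lemma PAtlas.mem_tgt (P : PAtlas X Z Y) {k : P.ι} {z : Z} {y : Y} (hz : z ∈ P.A k)
    (hy : y ∈ P.B k) : (z, y) ∈ (P.e k).target := by
  rw [P.tgt]; exact ⟨hz, hy⟩

lemma PAtlas.of_src (P : PAtlas X Z Y) {k : P.ι} {x : X} (hx : x ∈ (P.e k).source) :
    (P.e k x).1 ∈ P.A k ∧ (P.e k x).2 ∈ P.B k := by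
  have := (P.e k).map_source hx
  rw [P.tgt] at this
  exact this

lemma Dev.psi_src (hD : Dev P Ψ) {x : X} (hx : x ∈ (P.e k).source) :
    Ψ k (P.e k x).1 (P.e k x).2 = x := by
  rw [hD.box k _ (P.of_src hx).1 _ (P.of_src hx).2]
  exact (P.e k).left_inv hx

lemma Dev.surj (hD : Dev P Ψ) (x : X) : ∃ k, ∃ z ∈ P.A k, ∃ y ∈ P.B k, Ψ k z y = x := by
  obtain ⟨k, hk⟩ := P.cover x
  exact ⟨k, _, (P.of_src hk).1, _, (P.of_src hk).2, hD.psi_src hk⟩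

lemma Dev.inj (hD : Dev P Ψ) {z z' : Z} (hz : z ∈ P.A k) (hz' : z' ∈ P.A k) (hy : y ∈ P.B k)
    (hy' : y' ∈ P.B k) (h : Ψ k z y = Ψ k z' y') : z = z' ∧ y = y' := by
  rw [hD.box k z hz y hy, hD.box k z' hz' y' hy'] at h
  have := (P.e k).symm.injOn (P.mem_tgt hz hy) (P.mem_tgt hz' hy') h
  exact Prod.mk.inj this

lemma Dev.contAt (hD : Dev P Ψ) (z : Z) (hy : y ∈ P.B k) :
    ContinuousAt (fun p : Z × Y => Ψ k p.1 p.2) (z, y) :=
  (hD.cont k).continuousAt ((isOpen_univ.prod (P.B_open k)).mem_nhds ⟨mem_univ _, hy⟩)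

lemma Rel.refl (hy : y ∈ P.B k) : Rel P Ψ k k 1 y y := ⟨hy, hy, fun _ => rfl⟩

lemma Rel.symm (h : Rel P Ψ k l γ y y') : Rel P Ψ l k γ⁻¹ y' y :=
  ⟨h.2.1, h.1, fun ζ => by rw [← h.2.2, mot_apply_inv]⟩

lemma Rel.trans (h : Rel P Ψ k l γ y y') (h' : Rel P Ψ l m δ y' y'') :
    Rel P Ψ k m (δ * γ) y y'' :=
  ⟨h.1, h'.2.1, fun ζ => by rw [mot_mul, h'.2.2, h.2.2]⟩

lemma Rel.uniq (hD : Dev P Ψ) (h : Rel P Ψ k l γ y y') (h' : Rel P Ψ k l γ y y'') : y' = y'' := by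
  obtain ⟨z, hz⟩ := (P.A_conn l).nonempty
  refine (hD.inj hz hz h.2.1 h'.2.1 ?_).2
  rw [← mot_apply_inv γ z, h.2.2, h'.2.2]

lemma Rel.rm_eq (hD : Dev P Ψ) (h : Rel P Ψ k l γ y y') : rm P Ψ k l γ y = y' := by
  have he : ∃ y', Rel P Ψ k l γ y y' := ⟨y', h⟩
  unfold rm
  rw [dif_pos he]
  exact he.choose_spec.uniq hD h

lemma Rel.rm (hD : Dev P Ψ) (h : Rel P Ψ k l γ y y') : Rel P Ψ k l γ y (rm P Ψ k l γ y) := by
  rw [h.rm_eq hD]; exact h

lemma Dev.rel (hD : Dev P Ψ) {z z' : Z} (hy : y ∈ P.B k) (hy' : y' ∈ P.B l)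
    (h : Ψ k z y = Ψ l z' y') : ∃ γ : Mot Z, γ z = z' ∧ Rel P Ψ k l γ y y' := by
  obtain ⟨γ, φ, h1, h2, -, h4⟩ := hD.lt k l z y z' y' hy hy' h
  exact ⟨γ, h1, hy, hy', fun ζ => by rw [← h2]; exact h4.self_of_nhds ζ⟩

/-- the holonomy map is a local isometry -/
lemma Rel.loc (hD : Dev P Ψ) (h : Rel P Ψ k l γ y y') :
    LIso (P.g k) (P.g l) (E.rm P Ψ k l γ) y ∧
      ∀ᶠ w in 𝓝 y, Rel P Ψ k l γ w (E.rm P Ψ k l γ w) := by
  obtain ⟨z, hz⟩ := (P.A_conn l).nonempty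
  obtain ⟨δ, φ, h1, h2, h3, h4⟩ := hD.lt k l (γ⁻¹ z) y z y' h.1 h.2.1
    (by rw [← h.2.2, mot_apply_inv])
  have hγ : γ (γ⁻¹ z) = z := mot_apply_inv γ z
  have he : δ = γ := by
    refine mot_ext_nhds (z := γ⁻¹ z) ?_
    have e1 : ∀ᶠ ζ in 𝓝 (γ⁻¹ z), δ ζ ∈ P.A l :=
      δ.continuous.continuousAt.eventually_mem ((P.A_open l).mem_nhds (by rw [h1]; exact hz))
    have e2 : ∀ᶠ ζ in 𝓝 (γ⁻¹ z), γ ζ ∈ P.A l :=
      γ.continuous.continuousAt.eventually_mem ((P.A_open l).mem_nhds (by rw [hγ]; exact hz))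
    filter_upwards [e1, e2] with ζ a b
    refine (hD.inj a b h.2.1 h.2.1 ?_).1
    rw [h.2.2, ← h4.self_of_nhds ζ, h2]
  subst he
  have h5 : ∀ᶠ w in 𝓝 y, Rel P Ψ k l δ w (φ w) := by
    filter_upwards [h4, (P.B_open k).mem_nhds h.1,
      h3.cont.eventually_mem ((P.B_open l).mem_nhds (by rw [h2]; exact h.2.1))] with w a b c
    exact ⟨b, c, a⟩
  exact ⟨h3.congr (h5.mono fun w hw => hw.rm_eq hD), h5.mono fun w hw => hw.rm hD⟩

lemma Rel.liso (hD : Dev P Ψ) (h : Rel P Ψ k l γ y y') :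
    LIso (P.g k) (P.g l) (E.rm P Ψ k l γ) y := (h.loc hD).1

lemma Rel.tendsto (hD : Dev P Ψ) (h : Rel P Ψ k l γ y y') :
    Tendsto (E.rm P Ψ k l γ) (𝓝 y) (𝓝 y') := by
  rw [← h.rm_eq hD]; exact (h.liso hD).cont

/-- the holonomy map of the inverse is the inverse -/
lemma Rel.rm_rm (hD : Dev P Ψ) (h : Rel P Ψ k l γ y y') :
    ∀ᶠ w in 𝓝 y, E.rm P Ψ l k γ⁻¹ (E.rm P Ψ k l γ w) = w :=
  (h.loc hD).2.mono fun _ hw => hw.symm.rm_eq hD

/-- the relation is closed -/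
lemma Rel.closed [T2Space X] (hD : Dev P Ψ) {α : Type} {F : Filter α} [F.NeBot] {a b : α → Y}
    (ha : Tendsto a F (𝓝 y)) (hb : Tendsto b F (𝓝 y')) (hy : y ∈ P.B k) (hy' : y' ∈ P.B l)
    (h : ∀ᶠ n in F, Rel P Ψ k l γ (a n) (b n)) : Rel P Ψ k l γ y y' := by
  refine ⟨hy, hy', fun ζ => ?_⟩
  have h1 : Tendsto (fun n => Ψ l (γ ζ) (b n)) F (𝓝 (Ψ l (γ ζ) y')) :=
    (hD.contAt (γ ζ) hy').tendsto.comp (tendsto_const_nhds.prodMk_nhds hb)
  have h2 : Tendsto (fun n => Ψ k ζ (a n)) F (𝓝 (Ψ k ζ y)) :=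
    (hD.contAt ζ hy).tendsto.comp (tendsto_const_nhds.prodMk_nhds ha)
  exact tendsto_nhds_unique_of_eventuallyEq h1 h2 (h.mono fun n hn => hn.2.2 ζ)

/-- the changes of charts are holonomy maps -/
lemma Dev.ofTrans (hD : Dev P Ψ) {x : X} (hk : x ∈ (P.e k).source) (hl : x ∈ (P.e l).source) :
    ∃ γ : Mot Z, Rel P Ψ k l γ (P.e k x).2 (P.e l x).2 ∧
      ∀ᶠ x' in 𝓝 x, P.e l x' = (γ (P.e k x').1, E.rm P Ψ k l γ (P.e k x').2) := by
  obtain ⟨γ, h1, h2⟩ := hD.rel (P.of_src hk).2 (P.of_src hl).2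
    ((hD.psi_src hk).trans (hD.psi_src hl).symm)
  refine ⟨γ, h2, ?_⟩
  have hc := (P.e k).continuousAt hk
  have e1 : ∀ᶠ x' in 𝓝 x, γ (P.e k x').1 ∈ P.A l :=
    (γ.continuous.continuousAt.comp hc.fst).eventually_mem
      ((P.A_open l).mem_nhds (by
        show γ (P.e k x).1 ∈ P.A l
        rw [h1]; exact (P.of_src hl).1))
  filter_upwards [e1, hc.snd.eventually (h2.loc hD).2, (P.e k).open_source.mem_nhds hk]
    with x' a b c
  have h3 := b.2.2 (P.e k x').1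
  rw [hD.psi_src c, hD.box l _ a _ b.2.1] at h3
  rw [← h3, (P.e l).right_inv (P.mem_tgt a b.2.1), h3]

/-- induction along the charts -/
lemma Dev.conn [PreconnectedSpace X] (hD : Dev P Ψ) (Q : P.ι → Prop) (h0 : Q k)
    (h : ∀ k l γ y y', Rel P Ψ k l γ y y' → Q k → Q l) (l : P.ι) : Q l := by
  by_contra hl
  have hne : ∀ j, ∃ x, x ∈ (P.e j).source := fun j => by
    obtain ⟨z, hz⟩ := (P.A_conn j).nonempty
    exact ⟨_, (P.e j).map_target (P.mem_tgt hz (P.yc_mem j))⟩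
  obtain ⟨x, -, hx1, hx2⟩ := isPreconnected_univ (⋃ j ∈ {j | Q j}, (P.e j).source)
    (⋃ j ∈ {j | ¬ Q j}, (P.e j).source) (isOpen_biUnion fun j _ => (P.e j).open_source)
    (isOpen_biUnion fun j _ => (P.e j).open_source)
    (fun x _ => by
      obtain ⟨j, hj⟩ := P.cover x
      by_cases hq : Q j
      · exact Or.inl (mem_biUnion (show j ∈ {j | Q j} from hq) hj)
      · exact Or.inr (mem_biUnion (show j ∈ {j | ¬ Q j} from hq) hj))
    (by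
      obtain ⟨x, hx⟩ := hne k
      exact ⟨x, mem_univ _, mem_biUnion (show k ∈ {j | Q j} from h0) hx⟩)
    (by
      obtain ⟨x, hx⟩ := hne l
      exact ⟨x, mem_univ _, mem_biUnion (show l ∈ {j | ¬ Q j} from hl) hx⟩)
  obtain ⟨i, hi, hxi⟩ := mem_iUnion₂.1 hx1
  obtain ⟨j, hj, hxj⟩ := mem_iUnion₂.1 hx2
  obtain ⟨γ, hr, -⟩ := hD.ofTrans hxi hxj
  exact hj (h _ _ _ _ _ hr hi)

/-- basic functions are constant on the leaves -/
lemma Basic.psi (hD : Dev P Ψ) {F : X → ℝ} {f : P.ι → Y → ℝ} (hF : Basic P F f)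
    (hy : y ∈ P.B k) (z : Z) : F (Ψ k z y) = f k y := by
  have hl : IsLocallyConstant fun ζ => F (Ψ k ζ y) := by
    refine (IsLocallyConstant.iff_eventually_eq _).2 fun ζ => ?_
    obtain ⟨l, z', hz', y', hy', he⟩ := hD.surj (Ψ k ζ y)
    obtain ⟨γ, h1, h2⟩ := hD.rel hy hy' he.symm
    have e1 : ∀ᶠ ζ' in 𝓝 ζ, γ ζ' ∈ P.A l :=
      γ.continuous.continuousAt.eventually_mem ((P.A_open l).mem_nhds (by rw [h1]; exact hz'))
    filter_upwards [e1] with ζ' a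
    rw [← he, ← h2.2.2, hD.box l _ a _ hy', hD.box l _ hz' _ hy', hF l _ a _ hy', hF l _ hz' _ hy']
  obtain ⟨z0, hz0⟩ := (P.A_conn k).nonempty
  let _ : NormedSpace ℝ Z := NormedSpace.restrictScalars ℝ ℂ Z
  rw [hl.apply_eq_of_preconnectedSpace z z0, hD.box k _ hz0 _ hy, hF k _ hz0 _ hy]

lemma Basic.rel (hD : Dev P Ψ) {F : X → ℝ} {f : P.ι → Y → ℝ} (hF : Basic P F f)
    (h : Rel P Ψ k l γ y y') : f l y' = f k y := by
  rw [← hF.psi hD h.2.1 (γ 0), h.2.2, hF.psi hD h.1]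

lemma Sm.mono {y₀ y₁ : Y} {ρ ρ' η η' : ℝ} (h : Sm P Ψ k y₀ ρ η γ) (hs : ball y₁ ρ' ⊆ ball y₀ ρ)
    (hη : η ≤ η') : Sm P Ψ k y₁ ρ' η' γ := fun y hy => by
  obtain ⟨y', h1, h2⟩ := h y (hs hy)
  exact ⟨y', h1, h2.trans hη⟩

lemma Sm.rm (hD : Dev P Ψ) {y₀ : Y} {ρ η : ℝ} (h : Sm P Ψ k y₀ ρ η γ) (hy : y ∈ ball y₀ ρ) :
    Rel P Ψ k k γ y (E.rm P Ψ k k γ y) ∧ ‖E.rm P Ψ k k γ y - y‖ ≤ η := by
  obtain ⟨y', h1, h2⟩ := h y hy
  rw [h1.rm_eq hD]
  exact ⟨h1, h2⟩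

lemma Sm.diff (hD : Dev P Ψ) {y₀ : Y} {ρ η : ℝ} (h : Sm P Ψ k y₀ ρ η γ) :
    DifferentiableOn ℂ (E.rm P Ψ k k γ) (ball y₀ ρ) := fun _ hy =>
  ((h.rm hD hy).1.liso hD).diff.differentiableWithinAt

/-- a motion which fixes an open set of leaves fixes all of them -/
lemma fix_all (hE : ExtStmt X Z Y) (hD : Dev P Ψ) (h : ∀ᶠ w in 𝓝 y, Rel P Ψ k k γ w w) :
    ∀ w ∈ P.B k, Rel P Ψ k k γ w w := by
  intro w hw
  have hy : y ∈ P.B k := h.self_of_nhds.1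
  have h1 : max (dist y (P.yc k)) (dist w (P.yc k)) < P.yr k := max_lt hy hw
  obtain ⟨R, hR1, hR2⟩ := exists_between h1
  have hyR : y ∈ ball (P.yc k) R := (le_max_left _ _).trans_lt hR1
  obtain ⟨ρ, hρ, hb⟩ := Metric.eventually_nhds_iff_ball.1 (h.and (isOpen_ball.mem_nhds hyR))
  obtain ⟨η, hη, C, -, hC⟩ := hE P Ψ hD k y ρ R hρ
    (fun v hv => ball_subset_closedBall (hb v hv).2) hR2
  obtain ⟨w', h2, h3⟩ := hC γ 0 le_rfl hη.le (fun v hv => ⟨v, (hb v hv).1, by simp⟩) w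
    ((le_max_right _ _).trans_lt hR1)
  rw [mul_zero, norm_le_zero_iff, sub_eq_zero] at h3
  rwa [h3] at h2

end rel

end

end Pool.Agent.Lib.MP_813db1_ag.HS.E
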