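import Pool.Agent.Lib.MP_813db1_ag.HS.E.Basic

/-! Charts develop along the leaves. -/

set_option autoImplicit false

namespace Pool.Agent.Lib.MP_813db1_ag.HS.E

open Set Filter Topology Metric

namespace DevAux

variable {X Z Y : Type} [TopologicalSpace X]
  [NormedAddCommGroup Z] [InnerProductSpace ℂ Z]
  [NormedAddCommGroup Y] [NormedSpace ℂ Y] [NormedSpace ℝ Y] {P : PAtlas X Z Y}

theorem mem_tgt {l : P.ι} {z : Z} {y : Y} : (z, y) ∈ (P.e l).target ↔ z ∈ P.A l ∧ y ∈ P.B l := by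
  rw [P.tgt]
  rfl

/-- near `z` the map `f` is a motion in the chart `l`. -/
def LF (P : PAtlas X Z Y) (f : Z → X) (z : Z) (l : P.ι) : Prop :=
  ∃ (γ : Mot Z) (y : Y), γ z ∈ P.A l ∧ y ∈ P.B l ∧ ∀ᶠ ζ in 𝓝 z, f ζ = (P.e l).symm (γ ζ, y)

/-- `f` is locally a motion. -/
def LM (P : PAtlas X Z Y) (f : Z → X) (U : Set Z) : Prop := ∀ z ∈ U, ∃ l, LF P f z l

theorem near {l : P.ι} {γ : Mot Z} {z : Z} (h : γ z ∈ P.A l) : ∀ᶠ ζ in 𝓝 z, γ ζ ∈ P.A l :=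
  γ.continuous.continuousAt.eventually_mem ((P.A_open l).mem_nhds h)

theorem LF.cont {f : Z → X} {z : Z} {l : P.ι} (h : LF P f z l) : ContinuousAt f z := by
  obtain ⟨γ, y, h1, h2, h3⟩ := h
  exact (((P.e l).continuousAt_symm (mem_tgt.2 ⟨h1, h2⟩)).comp (f := fun ζ => (γ ζ, y))
    (γ.continuous.continuousAt.prodMk continuousAt_const)).congr (EventuallyEq.symm h3)

theorem LF.src {f : Z → X} {z : Z} {l : P.ι} (h : LF P f z l) : f z ∈ (P.e l).source := by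
  obtain ⟨γ, y, h1, h2, h3⟩ := h
  rw [h3.self_of_nhds]
  exact (P.e l).map_target (mem_tgt.2 ⟨h1, h2⟩)

theorem LF.chg {f : Z → X} {z : Z} {l l' : P.ι} (h : LF P f z l) (h' : f z ∈ (P.e l').source) :
    LF P f z l' := by
  obtain ⟨δ, φ, -, e⟩ := P.trans l l' _ h.src h'
  have c := h.cont
  obtain ⟨γ, y, h1, h2, h3⟩ := h
  have k : ∀ᶠ ζ in 𝓝 z, f ζ ∈ (P.e l').source ∧ P.e l' (f ζ) = ((δ * γ) ζ, φ y) := by
    filter_upwards [c.eventually e, c.eventually_mem ((P.e l').open_source.mem_nhds h'), h3,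
      near h1] with ζ a1 a2 a3 a4
    refine ⟨a2, a1.trans ?_⟩
    rw [a3, (P.e l).right_inv (mem_tgt.2 ⟨a4, h2⟩)]
    rfl
  have m := (P.e l').map_source h'
  rw [k.self_of_nhds.2, mem_tgt] at m
  exact ⟨δ * γ, φ y, m.1, m.2, k.mono fun ζ a => by rw [← a.2, (P.e l').left_inv a.1]⟩

theorem LF.congr {f f' : Z → X} {z : Z} {l : P.ι} (h : LF P f z l) (e : f' =ᶠ[𝓝 z] f) :
    LF P f' z l := by
  obtain ⟨γ, y, h1, h2, h3⟩ := h
  exact ⟨γ, y, h1, h2, EventuallyEq.trans e h3⟩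

theorem LM.mot {f : Z → X} (h : LM P f univ) (δ : Mot Z) : LM P (fun ζ => f (δ ζ)) univ := by
  intro z _
  obtain ⟨l, γ, y, h1, h2, h3⟩ := h (δ z) trivial
  exact ⟨l, γ * δ, y, h1, h2, δ.continuous.continuousAt.eventually h3⟩

theorem ident [T2Space X] {f f' : Z → X} {U : Set Z} (h : LM P f U) (h' : LM P f' U)
    (hU : IsPreconnected U) {c : Z} (hc : c ∈ U) (e : f =ᶠ[𝓝 c] f') : ∀ z ∈ U, f z = f' z := by
  have key : U ⊆ {z | f =ᶠ[𝓝 z] f'} := by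
    refine hU.subset_of_closure_inter_subset isOpen_setOfPred_eventually_nhds ⟨c, hc, e⟩ ?_
    rintro z ⟨hz, hzU⟩
    obtain ⟨l, a⟩ := h z hzU
    obtain ⟨l', a'⟩ := h' z hzU
    have fr := mem_closure_iff_frequently.1 hz
    have e0 : f z = f' z := tendsto_nhds_unique_of_frequently_eq a.cont a'.cont
      (fr.mono fun _ k => EventuallyEq.eq_of_nhds k)
    obtain ⟨γ', y', b1, b2, b3⟩ := a'.chg (e0 ▸ a.src)
    obtain ⟨γ, y, a1, a2, a3⟩ := a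
    obtain ⟨w, w1, w2⟩ := (fr.and_eventually
      (a3.and (b3.and ((near a1).and (near b1)))).eventually_nhds).exists
    have k : ∀ᶠ ζ in 𝓝 w, (γ ζ, y) = (γ' ζ, y') := by
      filter_upwards [w1, w2] with ζ k1 k2
      exact (P.e l).symm.injOn (mem_tgt.2 ⟨k2.2.2.1, a2⟩) (mem_tgt.2 ⟨k2.2.2.2, b2⟩)
        (k2.1.symm.trans (k1.trans k2.2.1))
    obtain rfl : γ = γ' := mot_ext_nhds (k.mono fun _ k => congrArg Prod.fst k)
    obtain rfl : y = y' := congrArg Prod.snd k.self_of_nhds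
    exact EventuallyEq.trans a3 (EventuallyEq.symm b3)
  exact fun z hz => EventuallyEq.eq_of_nhds (key hz)

theorem glue {κ : Type} (f0 : Z → X) (U : κ → Set Z) (f : κ → Z → X) (hU : ∀ i, IsOpen (U i))
    (h : ∀ i, LM P (f i) (U i)) (hc : ∀ i j, ∀ z ∈ U i, z ∈ U j → f i z = f j z) :
    ∃ F, LM P F (⋃ i, U i) ∧ ∀ i, ∀ z ∈ U i, F =ᶠ[𝓝 z] f i := by
  classical
  have e : ∀ i, ∀ z ∈ U i, (fun z => if k : ∃ i, z ∈ U i then f k.choose z else f0 z) =ᶠ[𝓝 z] f i :=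
    fun i z hz => mem_of_superset ((hU i).mem_nhds hz) fun w hw =>
      (dif_pos ⟨i, hw⟩).trans (hc _ _ w (Exists.choose_spec (⟨i, hw⟩ : ∃ i, w ∈ U i)) hw)
  refine ⟨_, fun z hz => ?_, e⟩
  obtain ⟨i, hi⟩ := mem_iUnion.1 hz
  exact (h i z hi).imp fun l a => a.congr (e i z hi)

theorem leb [CompactSpace X] (P : PAtlas X Z Y) : ∃ r > 0, ∀ x, ∃ l, x ∈ (P.e l).source ∧
    ball (P.e l x).1 r ⊆ P.A l := by
  have := (isCompact_univ (X := X)).eventually_forall_of_forall_eventually (x₀ := (0 : ℝ))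
    (P := fun r x => ∃ l, x ∈ (P.e l).source ∧ ball (P.e l x).1 r ⊆ P.A l) fun x _ => by
      obtain ⟨l, hl⟩ := P.cover x
      obtain ⟨ε, e0, e1⟩ := Metric.isOpen_iff.1 (P.A_open l) _ (mem_tgt.1 ((P.e l).map_source hl)).1
      have c : ContinuousAt (fun p : ℝ × X => dist (P.e l p.2).1 (P.e l x).1 + p.1) (0, x) :=
        ((((P.e l).continuousAt hl).comp (f := Prod.snd) continuousAt_snd).fst.dist
          continuousAt_const).add continuousAt_fst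
      filter_upwards [c.eventually (gt_mem_nhds (a := ε) (by simpa using e0)),
        continuousAt_snd.eventually_mem ((P.e l).open_source.mem_nhds hl)] with p p1 p2
      exact ⟨l, p2, (ball_subset (le_sub_iff_add_le.2 p1.le)).trans e1⟩
  obtain ⟨r, h1, h2⟩ := ((this.filter_mono (nhdsWithin_le_nhds (s := Ioi 0))).and
    self_mem_nhdsWithin).exists
  exact ⟨r, h2, fun x => h1 x trivial⟩

theorem extend [T2Space X] {r : ℝ} (r0 : 0 < r)
    (hr : ∀ x, ∃ l, x ∈ (P.e l).source ∧ ball (P.e l x).1 r ⊆ P.A l) {f : Z → X} {c : Z} {R : ℝ}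
    (R0 : 0 < R) (h : LM P f (ball c R)) : ∃ F, LM P F (ball c (R + r)) ∧ F =ᶠ[𝓝 c] f := by
  have loc : ∀ z : ball c R, ∃ F, LM P F (ball z r) ∧ F =ᶠ[𝓝 (z : Z)] f := by
    intro z
    obtain ⟨l, l1, l2⟩ := hr (f z)
    obtain ⟨l', a⟩ := h z z.2
    obtain ⟨γ, y, a1, a2, a3⟩ := a.chg l1
    rw [a3.self_of_nhds, (P.e l).right_inv (mem_tgt.2 ⟨a1, a2⟩)] at l2
    exact ⟨_, fun w hw => ⟨l, γ, y, l2 (by rwa [mem_ball, γ.dist_map]), a2,
      Eventually.of_forall fun _ => rfl⟩, EventuallyEq.symm a3⟩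
  choose F hF eF using loc
  have e1 : ∀ z : ball c R, ∀ w ∈ ball (z : Z) r ∩ ball c R, F z w = f w := fun z =>
    ident (fun w hw => hF z w hw.1) (fun w hw => h w hw.2)
      ((convex_ball _ _).inter (convex_ball _ _)).isPreconnected ⟨mem_ball_self r0, z.2⟩ (eF z)
  obtain ⟨G, g1, g2⟩ := glue f (fun z : ball c R => ball (z : Z) r) F (fun _ => isOpen_ball) hF (by
    intro z w u hz hw
    have d : dist (z : Z) w < r + r := (dist_triangle_left _ _ u).trans_lt (add_lt_add hz hw)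
    have m1 : midpoint ℝ (z : Z) w ∈ ball (z : Z) r := by
      rw [mem_ball, dist_midpoint_left, Real.norm_two]
      linarith
    have m2 : midpoint ℝ (z : Z) w ∈ ball (w : Z) r := by
      rw [mem_ball, dist_midpoint_right, Real.norm_two]
      linarith
    have m3 := (convex_ball c R).midpoint_mem z.2 w.2
    refine ident (fun w hw => hF z w hw.1) (fun v hv => hF w v hv.2)
      ((convex_ball _ _).inter (convex_ball _ _)).isPreconnected ⟨m1, m2⟩ ?_ u ⟨hz, hw⟩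
    filter_upwards [isOpen_ball.mem_nhds m1, isOpen_ball.mem_nhds m2, isOpen_ball.mem_nhds m3]
      with v v1 v2 v3
    rw [e1 z v ⟨v1, v3⟩, e1 w v ⟨v2, v3⟩])
  refine ⟨G, fun z hz => g1 z ?_, (g2 ⟨c, mem_ball_self R0⟩ c (mem_ball_self r0)).trans
    (eF ⟨c, mem_ball_self R0⟩)⟩
  obtain ⟨w, w1, w2⟩ := exists_dist_lt_lt r0 R0 hz
  exact mem_iUnion.2 ⟨⟨w, w2⟩, w1⟩

theorem glob [T2Space X] [CompactSpace X] (k : P.ι) {y : Y} (hy : y ∈ P.B k) :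
    ∃ F, LM P F univ ∧ ∀ z ∈ P.A k, F z = (P.e k).symm (z, y) := by
  obtain ⟨r, r0, hr⟩ := leb P
  obtain ⟨c, hc⟩ := (P.A_conn k).nonempty
  obtain ⟨R, R0, hR⟩ := Metric.isOpen_iff.1 (P.A_open k) c hc
  have l0 : LM P (fun z => (P.e k).symm (z, y)) (P.A k) := fun z hz =>
    ⟨k, 1, y, hz, hy, Eventually.of_forall fun _ => rfl⟩
  have st : ∀ n : ℕ, ∃ F, LM P F (ball c (R + n * r)) ∧
      F =ᶠ[𝓝 c] fun z => (P.e k).symm (z, y) := by
    intro n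
    induction n with
    | zero => exact ⟨_, fun z hz => l0 z (hR (by simpa using hz)), EventuallyEq.rfl⟩
    | succ n ih =>
      obtain ⟨F, f1, f2⟩ := ih
      obtain ⟨G, g1, g2⟩ := extend r0 hr (by positivity) f1
      exact ⟨G, by rwa [Nat.cast_succ, add_mul, one_mul, ← add_assoc], g2.trans f2⟩
  choose F f1 f2 using st
  have c0 : ∀ n : ℕ, c ∈ ball c (R + n * r) := fun n => mem_ball_self (by positivity)
  obtain ⟨G, g1, g2⟩ := glue (F 0) _ F (fun _ => isOpen_ball) f1 fun i j z hi hj =>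
    ident (fun w hw => f1 i w hw.1) (fun w hw => f1 j w hw.2)
      ((convex_ball _ _).inter (convex_ball _ _)).isPreconnected ⟨c0 i, c0 j⟩
      ((f2 i).trans (f2 j).symm) z ⟨hi, hj⟩
  have g3 : LM P G univ := fun z _ => g1 z (by
    obtain ⟨n, hn⟩ := exists_nat_gt (dist z c / r)
    rw [div_lt_iff₀ r0] at hn
    exact mem_iUnion.2 ⟨n, by rw [mem_ball]; linarith⟩)
  exact ⟨G, g3, ident (fun z _ => g3 z trivial) l0 (P.A_conn k).isPreconnected hc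
    ((g2 0 c (c0 0)).trans (f2 0))⟩

variable {Ψ : P.ι → Z → Y → X}

/-- one direction of the leaf relation. -/
def R1 (P : PAtlas X Z Y) (Ψ : P.ι → Z → Y → X) (k l : P.ι) (γ : Mot Z) (y y' : Y) : Prop :=
  ∃ φ, φ y = y' ∧ LIso (P.g k) (P.g l) φ y ∧ ∀ᶠ w in 𝓝 y, ∀ ζ, Ψ l (γ ζ) (φ w) = Ψ k ζ w

theorem R1.refl (k : P.ι) (y : Y) : R1 P Ψ k k 1 y y :=
  ⟨_, rfl, LIso.id _ y, Eventually.of_forall fun _ _ => rfl⟩

theorem R1.trans {k l m : P.ι} {γ δ : Mot Z} {y y' y'' : Y} (h : R1 P Ψ k l γ y y')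
    (h' : R1 P Ψ l m δ y' y'') : R1 P Ψ k m (δ * γ) y y'' := by
  obtain ⟨φ, rfl, a1, a2⟩ := h
  obtain ⟨ψ, rfl, b1, b2⟩ := h'
  refine ⟨_, rfl, a1.comp b1, ?_⟩
  filter_upwards [a2, a1.cont.eventually b2] with w w1 w2 ζ
  exact (w2 _).trans (w1 ζ)

theorem R1.eq {k l : P.ι} {γ : Mot Z} {y y' : Y} (h : R1 P Ψ k l γ y y') (ζ : Z) :
    Ψ l (γ ζ) y' = Ψ k ζ y := by
  obtain ⟨φ, rfl, -, a2⟩ := h
  exact a2.self_of_nhds ζ

theorem base1 [T2Space X] (h1 : ∀ k, ∀ y ∈ P.B k, LM P (fun z => Ψ k z y) univ)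
    (h2 : ∀ k, ∀ z ∈ P.A k, ∀ y ∈ P.B k, Ψ k z y = (P.e k).symm (z, y)) {k l : P.ι} {z z' : Z}
    {y y' : Y} (m : (z, y) ∈ (P.e k).target) (m' : (z', y') ∈ (P.e l).target)
    (e : (P.e k).symm (z, y) = (P.e l).symm (z', y')) : ∃ γ, γ z = z' ∧ R1 P Ψ k l γ y y' := by
  have s' : (P.e k).symm (z, y) ∈ (P.e l).source := e ▸ (P.e l).map_target m'
  obtain ⟨γ, φ, a1, a2⟩ := P.trans k l _ ((P.e k).map_target m) s'
  have c := (P.e k).continuousAt_symm m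
  have a3 := a2.self_of_nhds
  rw [(P.e k).right_inv m] at a1 a3
  rw [e, (P.e l).right_inv m'] at a3
  have ev : ∀ᶠ p in 𝓝 (z, y), p.2 ∈ P.B k ∧ φ p.2 ∈ P.B l ∧ Ψ l (γ p.1) (φ p.2) = Ψ k p.1 p.2 := by
    filter_upwards [c.eventually a2, c.eventually_mem ((P.e l).open_source.mem_nhds s'),
      (P.e k).open_target.mem_nhds m] with p p1 p2 p3
    have p4 := (P.e l).map_source p2
    rw [(P.e k).right_inv p3] at p1
    rw [p1, mem_tgt] at p4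
    have p5 := mem_tgt.1 p3
    exact ⟨p5.2, p4.2, by rw [h2 l _ p4.1 _ p4.2, h2 k _ p5.1 _ p5.2, ← p1, (P.e l).left_inv p2]⟩
  refine ⟨γ, (congrArg Prod.fst a3).symm, φ, (congrArg Prod.snd a3).symm, a1, ?_⟩
  filter_upwards [((continuous_swap.tendsto (y, z)).eventually ev).curry_nhds] with w hw ζ
  exact ident ((h1 l _ hw.self_of_nhds.2.1).mot γ) (h1 k _ hw.self_of_nhds.1)
    (convex_univ (𝕜 := ℝ)).isPreconnected (mem_univ z) (hw.mono fun _ k => k.2.2) ζ trivial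

theorem base [T2Space X] (h1 : ∀ k, ∀ y ∈ P.B k, LM P (fun z => Ψ k z y) univ)
    (h2 : ∀ k, ∀ z ∈ P.A k, ∀ y ∈ P.B k, Ψ k z y = (P.e k).symm (z, y)) {k l : P.ι} {z z' : Z}
    {y y' : Y} (m : (z, y) ∈ (P.e k).target) (m' : (z', y') ∈ (P.e l).target)
    (e : (P.e k).symm (z, y) = (P.e l).symm (z', y')) :
    ∃ γ, γ z = z' ∧ R1 P Ψ k l γ y y' ∧ R1 P Ψ l k γ⁻¹ y' y := by
  obtain ⟨γ, a1, a2⟩ := base1 h1 h2 m m' e
  obtain ⟨δ, b1, b2⟩ := base1 h1 h2 m' m e.symm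
  obtain ⟨m1, m2⟩ := mem_tgt.1 m
  have : δ * γ = 1 := by
    refine mot_ext_nhds (z := z) ?_
    filter_upwards [near (γ := δ * γ) (by rwa [mot_mul, a1, b1]), (P.A_open k).mem_nhds m1]
      with ζ k1 k2
    have := (a2.trans b2).eq ζ
    rw [h2 k _ k1 y m2, h2 k _ k2 y m2] at this
    exact congrArg Prod.fst
      ((P.e k).symm.injOn (mem_tgt.2 ⟨k1, m2⟩) (mem_tgt.2 ⟨k2, m2⟩) this)
  exact ⟨γ, a1, a2, by rwa [← eq_inv_of_mul_eq_one_left this]⟩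

theorem reach [T2Space X] [CompactSpace X] (h1 : ∀ k, ∀ y ∈ P.B k, LM P (fun z => Ψ k z y) univ)
    (h2 : ∀ k, ∀ z ∈ P.A k, ∀ y ∈ P.B k, Ψ k z y = (P.e k).symm (z, y)) (k : P.ι) {y : Y}
    (hy : y ∈ P.B k) (z : Z) : ∃ j γ v, (γ z, v) ∈ (P.e j).target ∧ R1 P Ψ k j γ y v ∧
      R1 P Ψ j k γ⁻¹ v y := by
  obtain ⟨r, r0, hr⟩ := leb P
  let S : Set Z := {z | ∃ j γ v, (γ z, v) ∈ (P.e j).target ∧ R1 P Ψ k j γ y v ∧ R1 P Ψ j k γ⁻¹ v y}
  have st : ∀ z ∈ S, ball z r ⊆ S := by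
    rintro z ⟨j, γ, v, a1, a2, a3⟩ w hw
    obtain ⟨l, l1, l2⟩ := hr ((P.e j).symm (γ z, v))
    have m := (P.e l).map_source l1
    obtain ⟨δ, b1, b2, b3⟩ := base h1 h2 a1 m ((P.e l).left_inv l1).symm
    refine ⟨l, δ * γ, _, mem_tgt.2 ⟨l2 ?_, (mem_tgt.1 m).2⟩, a2.trans b2, ?_⟩
    · have b4 : (P.e l ((P.e j).symm (γ z, v))).1 = (δ * γ) z := b1.symm
      rwa [mem_ball, b4, (δ * γ).dist_map]
    · rw [mul_inv_rev]
      exact b3.trans a3
  obtain ⟨c, hc⟩ := (P.A_conn k).nonempty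
  refine (convex_univ (𝕜 := ℝ)).isPreconnected.subset_of_closure_inter_subset (u := S)
    (Metric.isOpen_iff.2 fun z hz => ⟨r, r0, st z hz⟩)
    ⟨c, trivial, k, 1, y, mem_tgt.2 ⟨hc, hy⟩, R1.refl k y, by rw [inv_one]; exact R1.refl k y⟩
    (fun w hw => ?_) (mem_univ z)
  obtain ⟨u, u1, u2⟩ := Metric.mem_closure_iff.1 hw.1 r r0
  exact st u u1 u2

end DevAux

open DevAux

variable {X Z Y : Type} [TopologicalSpace X] [T2Space X] [CompactSpace X]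
  [NormedAddCommGroup Z] [InnerProductSpace ℂ Z]
  [NormedAddCommGroup Y] [NormedSpace ℂ Y] [NormedSpace ℝ Y]

theorem dev : DevStmt X Z Y := by
  intro P
  have ex : ∀ k y, ∃ F : Z → X, y ∈ P.B k →
      LM P F univ ∧ ∀ z ∈ P.A k, F z = (P.e k).symm (z, y) := fun k y => by
    by_cases hy : y ∈ P.B k
    · exact (glob k hy).imp fun F h _ => h
    · exact ⟨fun z => (P.e k).symm (z, y), fun h => absurd h hy⟩
  choose F hF using ex
  have h1 : ∀ k, ∀ y ∈ P.B k, LM P (fun z => F k y z) univ := fun k y hy => (hF k y hy).1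
  have h2 : ∀ k, ∀ z ∈ P.A k, ∀ y ∈ P.B k, F k y z = (P.e k).symm (z, y) :=
    fun k z hz y hy => (hF k y hy).2 z hz
  refine ⟨fun k z y => F k y z, h2, fun k p hp => ?_, fun k l z y z' y' hy hy' e => ?_⟩
  · obtain ⟨j, γ, v, a1, ⟨φ, rfl, a2, a3⟩, -⟩ :=
      reach (Ψ := fun k z y => F k y z) h1 h2 k hp.2 p.1
    have c : ContinuousAt (fun q : Z × Y => (γ q.1, φ q.2)) p :=
      (γ.continuous.continuousAt.comp continuousAt_fst).prodMk (a2.cont.comp continuousAt_snd)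
    refine ((((P.e j).continuousAt_symm a1).comp
      (f := fun q : Z × Y => (γ q.1, φ q.2)) c).congr ?_).continuousWithinAt
    filter_upwards [c.eventually_mem ((P.e j).open_target.mem_nhds a1),
      continuousAt_snd.eventually a3] with q q1 q2
    exact (h2 j _ (mem_tgt.1 q1).1 _ (mem_tgt.1 q1).2).symm.trans (q2 q.1)
  · obtain ⟨j, γ, v, a1, a2, -⟩ := reach (Ψ := fun k z y => F k y z) h1 h2 k hy z
    obtain ⟨j', γ', v', b1, b2, b3⟩ := reach (Ψ := fun k z y => F k y z) h1 h2 l hy' z'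
    obtain ⟨δ, c1, c2, -⟩ := base (Ψ := fun k z y => F k y z) h1 h2 a1 b1 (by
      rw [← h2 j _ (mem_tgt.1 a1).1 _ (mem_tgt.1 a1).2, ← h2 j' _ (mem_tgt.1 b1).1 _ (mem_tgt.1 b1).2]
      exact (a2.eq z).trans (e.trans (b2.eq z').symm))
    obtain ⟨φ, d⟩ := (a2.trans c2).trans b3
    exact ⟨_, φ, by rw [mot_mul, mot_mul, c1, mot_inv_apply], d⟩

end Pool.Agent.Lib.MP_813db1_ag.HS.E
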