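import Mathlib

/-!
Compact spaces with a local product structure (flat unitary factor times a Riemannian factor with
holomorphic isometric transitions): definitions and statements.
-/

namespace Pool.Agent.Lib.MP_813db1_ag.HS.E

open Set Filter Topology Metric MeasureTheory
open scoped ENNReal

noncomputable section

section defs

variable {X Z Y : Type} [TopologicalSpace X]
  [NormedAddCommGroup Z] [InnerProductSpace ℂ Z]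
  [NormedAddCommGroup Y] [NormedSpace ℂ Y] [NormedSpace ℝ Y]

/-- real bilinear forms -/
abbrev Bil (Y : Type) [NormedAddCommGroup Y] [NormedSpace ℝ Y] : Type := Y →L[ℝ] Y →L[ℝ] ℝ

/-- the group of unitary motions -/
abbrev Mot (Z : Type) [NormedAddCommGroup Z] [InnerProductSpace ℂ Z] : Type := Z ≃ᵃⁱ[ℂ] Z

/-- the linear part of a motion -/
def lin (γ : Mot Z) : Z →L[ℂ] Z :=
  γ.linearIsometryEquiv.toLinearIsometry.toContinuousLinearMap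

/-- the translation by `t` -/
def tr (t : Z) : Mot Z := AffineIsometryEquiv.constVAdd ℂ Z t

/-- `φ` is near `y` a holomorphic isometry from `g` to `g'`. -/
def LIso (g g' : Y → Bil Y) (φ : Y → Y) (y : Y) : Prop :=
  ∀ᶠ w in 𝓝 y, DifferentiableAt ℂ φ w ∧
    ∀ u v, g' (φ w) (fderiv ℂ φ w u) (fderiv ℂ φ w v) = g w u v

/-- the Killing equation at `y` -/
def Kil (g : Y → Bil Y) (ξ : Y → Y) (y : Y) : Prop :=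
  ∀ u v, fderiv ℝ g y (ξ y) u v + g y (fderiv ℂ ξ y u) v + g y u (fderiv ℂ ξ y v) = 0

/-- a `C²` Riemannian metric on `U` -/
structure Met (g : Y → Bil Y) (U : Set Y) : Prop where
  smooth : ContDiffOn ℝ 2 g U
  symm : ∀ y ∈ U, ∀ u v, g y u v = g y v u
  pos : ∀ y ∈ U, ∀ u, u ≠ 0 → 0 < g y u u

variable (X Z Y) in
/-- a finite atlas of product charts -/
structure PAtlas where
  ι : Type
  fin : Finite ι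
  e : ι → OpenPartialHomeomorph X (Z × Y)
  A : ι → Set Z
  yc : ι → Y
  yr : ι → ℝ
  A_open : ∀ i, IsOpen (A i)
  A_conn : ∀ i, IsConnected (A i)
  yr_pos : ∀ i, 0 < yr i
  tgt : ∀ i, (e i).target = A i ×ˢ ball (yc i) (yr i)
  cover : ∀ x, ∃ i, x ∈ (e i).source
  g : ι → Y → Bil Y
  met : ∀ i, Met (g i) (ball (yc i) (yr i))
  trans : ∀ i j x, x ∈ (e i).source → x ∈ (e j).source → ∃ (γ : Mot Z) (φ : Y → Y),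
    LIso (g i) (g j) φ (e i x).2 ∧ ∀ᶠ x' in 𝓝 x, e j x' = (γ (e i x').1, φ (e i x').2)

/-- the transversal ball of a chart -/
def PAtlas.B (P : PAtlas X Z Y) (k : P.ι) : Set Y := ball (P.yc k) (P.yr k)

/-- `Ψ k` develops the chart `k` along the whole leaves. -/
structure Dev (P : PAtlas X Z Y) (Ψ : P.ι → Z → Y → X) : Prop where
  box : ∀ k, ∀ z ∈ P.A k, ∀ y ∈ P.B k, Ψ k z y = (P.e k).symm (z, y)
  cont : ∀ k, ContinuousOn (fun p : Z × Y => Ψ k p.1 p.2) (univ ×ˢ P.B k)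
  lt : ∀ k l z y z' y', y ∈ P.B k → y' ∈ P.B l → Ψ k z y = Ψ l z' y' →
    ∃ (γ : Mot Z) (φ : Y → Y), γ z = z' ∧ φ y = y' ∧ LIso (P.g k) (P.g l) φ y ∧
      ∀ᶠ w in 𝓝 y, ∀ ζ, Ψ l (γ ζ) (φ w) = Ψ k ζ w

variable (P : PAtlas X Z Y) (Ψ : P.ι → Z → Y → X)

/-- the leaf through `y` in chart `k` is the leaf through `y'` in chart `l`, via `γ`. -/
def Rel (k l : P.ι) (γ : Mot Z) (y y' : Y) : Prop :=
  y ∈ P.B k ∧ y' ∈ P.B l ∧ ∀ ζ, Ψ l (γ ζ) y' = Ψ k ζ y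

open Classical in
/-- the holonomy map of `γ` -/
def rm (k l : P.ι) (γ : Mot Z) (y : Y) : Y :=
  if h : ∃ y', Rel P Ψ k l γ y y' then h.choose else y

/-- the holonomy map of `γ` is defined and `δ`-close to the identity on `ball y₀ ρ`. -/
def Sm (k : P.ι) (y₀ : Y) (ρ δ : ℝ) (γ : Mot Z) : Prop :=
  ∀ y ∈ ball y₀ ρ, ∃ y', Rel P Ψ k k γ y y' ∧ ‖y' - y‖ ≤ δ

/-- translations with small holonomy have trivial holonomy -/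
def Triv (k : P.ι) : Prop :=
  ∃ η > 0, ∀ t : Z, Sm P Ψ k (P.yc k) (P.yr k / 2) η (tr t) → ∀ y ∈ P.B k, Rel P Ψ k k (tr t) y y

/-- limits of rescaled holonomy maps of translations -/
def Lim (k : P.ι) (ξ : Y → Y) : Prop :=
  (∀ y, y ∉ P.B k → ξ y = 0) ∧
  ∃ (𝓤 : Ultrafilter ℕ) (t : ℕ → Z) (s : ℕ → ℝ), (∀ j, 0 < s j) ∧ Tendsto s 𝓤 (𝓝 0) ∧
    ∀ R < P.yr k,
      (∀ᶠ j in (𝓤 : Filter ℕ), ∀ y ∈ ball (P.yc k) R,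
        Rel P Ψ k k (tr (t j)) y (rm P Ψ k k (tr (t j)) y)) ∧
      TendstoUniformlyOn (fun j y => (s j)⁻¹ • (rm P Ψ k k (tr (t j)) y - y)) ξ 𝓤
        (ball (P.yc k) R)

/-- `F` is constant along the plaques, with transversal expression `f` -/
def Basic (F : X → ℝ) (f : P.ι → Y → ℝ) : Prop :=
  ∀ k, ∀ z ∈ P.A k, ∀ y ∈ P.B k, F ((P.e k).symm (z, y)) = f k y

/-- a nonzero invariant family of commuting holomorphic Killing fields -/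
structure Fields (r : ℕ) (ξ : P.ι → Fin r → Y → Y) : Prop where
  pos : 0 < r
  hol : ∀ k a, DifferentiableOn ℂ (ξ k a) (P.B k)
  comm : ∀ k a b, ∀ y ∈ P.B k, fderiv ℂ (ξ k a) y (ξ k b y) = fderiv ℂ (ξ k b) y (ξ k a y)
  kil : ∀ k a, ∀ y ∈ P.B k, Kil (P.g k) (ξ k a) y
  bas : ∀ F f, Basic P F f → ∀ k a, ∀ y ∈ P.B k, DifferentiableAt ℝ (f k) y →
    fderiv ℝ (f k) y (ξ k a y) = 0
  ind : ∀ k (O : Set Y), IsOpen O → O.Nonempty → O ⊆ P.B k →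
    ∃ y ∈ O, LinearIndependent ℝ fun a => ξ k a y
  cov : ∀ k l γ y y', Rel P Ψ k l γ y y' → ∃ C : Matrix (Fin r) (Fin r) ℝ, C.det ≠ 0 ∧
    ∀ᶠ w in 𝓝 y, ∀ a, fderiv ℂ (rm P Ψ k l γ) w (ξ k a w) =
      ∑ b, C a b • ξ l b (rm P Ψ k l γ w)

/-- an embedded tube of compact leaves without holonomy, and a parallel pluricanonical form
along the leaves -/
structure Tube (N : ℕ) (c : P.ι → ℂ) (k₀ : P.ι) (y₀ : Y) (ρ R : ℝ) : Prop where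
  N_pos : 0 < N
  c_ne : ∀ k, c k ≠ 0
  c_rel : ∀ k l γ y y', Rel P Ψ k l γ y y' → c l = (lin γ).det ^ N * c k
  ρ_pos : 0 < ρ
  sub : closedBall y₀ ρ ⊆ P.B k₀
  fix : ∀ γ, ∀ y ∈ ball y₀ ρ, ∀ y' ∈ ball y₀ ρ, Rel P Ψ k₀ k₀ γ y y' →
    ∀ w ∈ P.B k₀, Rel P Ψ k₀ k₀ γ w w
  cpt : ∀ z, ∃ z', ‖z'‖ ≤ R ∧ ∀ y ∈ P.B k₀, Ψ k₀ z' y = Ψ k₀ z y

end defs

section stmts

variable (X Z Y : Type) [TopologicalSpace X]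
  [NormedAddCommGroup Z] [InnerProductSpace ℂ Z]
  [NormedAddCommGroup Y] [NormedSpace ℂ Y] [NormedSpace ℝ Y]

/-- charts develop along the leaves -/
def DevStmt : Prop := ∀ P : PAtlas X Z Y, ∃ Ψ, Dev P Ψ

/-- holonomy maps have uniform domains and Lipschitz constants -/
def UnifStmt : Prop :=
  ∀ (P : PAtlas X Z Y) Ψ, Dev P Ψ → ∀ k l R R', R < P.yr k → R' < P.yr l →
    ∃ ρ > 0, ∃ C ≥ 1, ∀ γ, ∀ y ∈ closedBall (P.yc k) R, ∀ y' ∈ closedBall (P.yc l) R',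
      Rel P Ψ k l γ y y' → (∀ w ∈ ball y ρ, Rel P Ψ k l γ w (rm P Ψ k l γ w)) ∧
        ∀ w ∈ ball y ρ, ∀ w' ∈ ball y ρ,
          ‖rm P Ψ k l γ w - rm P Ψ k l γ w'‖ ≤ C * ‖w - w'‖

/-- second derivatives of isometries and of Killing fields -/
def JetStmt : Prop :=
  ∀ (g : Y → Bil Y) (c : Y) (R R' : ℝ), R < R' → Met g (ball c R') → ∃ K ≥ 0,
    (∀ φ : Y → Y, ∀ y ∈ closedBall c R, φ y ∈ closedBall c R → LIso g g φ y →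
      ‖fderiv ℂ (fderiv ℂ φ) y‖ ≤ K * (‖φ y - y‖ + ‖fderiv ℂ φ y - 1‖)) ∧
    ∀ ξ : Y → Y, ∀ y ∈ closedBall c R, (∀ᶠ w in 𝓝 y, DifferentiableAt ℂ ξ w ∧ Kil g ξ w) →
      ‖fderiv ℂ (fderiv ℂ ξ) y‖ ≤ K * (‖ξ y‖ + ‖fderiv ℂ ξ y‖)

/-- Gronwall's inequality for the first jet along a segment -/
def GronStmt : Prop :=
  ∀ K L : ℝ, 0 ≤ K → ∃ C ≥ 1, ∀ (f : Y → Y) (y₀ y₁ : Y), ‖y₁ - y₀‖ ≤ L →
    (∀ y ∈ segment ℝ y₀ y₁, (∀ᶠ w in 𝓝 y, DifferentiableAt ℂ f w) ∧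
      ‖fderiv ℂ (fderiv ℂ f) y‖ ≤ K * (‖f y‖ + ‖fderiv ℂ f y‖)) →
    ‖f y₁‖ + ‖fderiv ℂ f y₁‖ ≤ C * (‖f y₀‖ + ‖fderiv ℂ f y₀‖)

/-- small holonomy on a small ball gives small holonomy on a large ball -/
def ExtStmt : Prop :=
  ∀ (P : PAtlas X Z Y) Ψ, Dev P Ψ → ∀ k y₀ ρ R, 0 < ρ → ball y₀ ρ ⊆ closedBall (P.yc k) R →
    R < P.yr k → ∃ η > 0, ∃ C ≥ 1, ∀ γ δ, 0 ≤ δ → δ ≤ η → Sm P Ψ k y₀ ρ δ γ →
      Sm P Ψ k (P.yc k) R (C * δ) γ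

/-- discreteness -/
def FinStmt : Prop :=
  ∀ (P : PAtlas X Z Y) Ψ, Dev P Ψ → ∀ k R T, R < P.yr k →
    {γ : Mot Z | ‖γ 0‖ ≤ T ∧ ∃ y ∈ closedBall (P.yc k) R, ∃ y' ∈ closedBall (P.yc k) R,
      Rel P Ψ k k γ y y'}.Finite

/-- recurrence along rays -/
def RecStmt : Prop :=
  ∀ (P : PAtlas X Z Y) Ψ, Dev P Ψ → ∀ k (u : Z), ‖u‖ = 1 → ∀ ε > 0,
    ∃ γ, Sm P Ψ k (P.yc k) (P.yr k / 2) ε γ ∧ ‖lin γ - 1‖ ≤ ε ∧ γ 0 ≠ 0 ∧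
      ‖((‖γ 0‖⁻¹ : ℝ) : ℂ) • γ 0 - u‖ ≤ ε

/-- commutators of motions with small holonomy have small holonomy -/
def CommStmt : Prop :=
  ∀ (P : PAtlas X Z Y) Ψ, Dev P Ψ → ∀ k, ∃ η > 0, η ≤ P.yr k / 4 ∧ ∀ α β,
    Sm P Ψ k (P.yc k) (P.yr k / 2) η α → Sm P Ψ k (P.yc k) (P.yr k / 2) η β →
      Sm P Ψ k (P.yc k) (P.yr k / 2) η (α * β * α⁻¹ * β⁻¹)

/-- Buser's form of the first Bieberbach theorem -/
def BuserStmt : Prop :=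
  ∀ S : Set (Mot Z), (∀ α ∈ S, ∀ β ∈ S, α * β * α⁻¹ * β⁻¹ ∈ S) →
    (∀ T : ℝ, {γ ∈ S | ‖γ 0‖ ≤ T}.Finite) →
    (∀ u : Z, ‖u‖ = 1 → ∀ ε > 0, ∃ γ ∈ S, ‖lin γ - 1‖ ≤ ε ∧ γ 0 ≠ 0 ∧
      ‖((‖γ 0‖⁻¹ : ℝ) : ℂ) • γ 0 - u‖ ≤ ε) →
    ∀ γ ∈ S, ‖lin γ - 1‖ ≤ 1 / 2 → lin γ = 1

/-- recurrence by translations -/
def TransStmt : Prop :=
  ∀ (P : PAtlas X Z Y) Ψ, Dev P Ψ → ∀ k (u : Z), ‖u‖ = 1 → ∀ ε > 0,
    ∃ t : Z, Sm P Ψ k (P.yc k) (P.yr k / 2) ε (tr t) ∧ t ≠ 0 ∧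
      ‖((‖t‖⁻¹ : ℝ) : ℂ) • t - u‖ ≤ ε

/-- Montel's theorem along an ultrafilter, with derivatives -/
def MontelStmt : Prop :=
  (∀ (𝓤 : Ultrafilter ℕ) (F : ℕ → Y → Y) (c : Y) (R₀ : ℝ),
    (∀ R < R₀, ∃ C, ∀ᶠ j in (𝓤 : Filter ℕ), DifferentiableOn ℂ (F j) (ball c R) ∧
      ∀ y ∈ ball c R, ‖F j y‖ ≤ C) →
    ∃ ξ : Y → Y, (∀ y, y ∉ ball c R₀ → ξ y = 0) ∧
      ∀ R < R₀, TendstoUniformlyOn F ξ 𝓤 (ball c R)) ∧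
  ∀ (𝓕 : Filter ℕ) [𝓕.NeBot] (F : ℕ → Y → Y) (ξ : Y → Y) (c : Y) (R : ℝ),
    (∀ᶠ j in 𝓕, DifferentiableOn ℂ (F j) (ball c R)) → TendstoUniformlyOn F ξ 𝓕 (ball c R) →
    DifferentiableOn ℂ ξ (ball c R) ∧
      ∀ y ∈ ball c R, Tendsto (fun j => fderiv ℂ (F j) y) 𝓕 (𝓝 (fderiv ℂ ξ y))

/-- local properties of the limit fields -/
def LimStmt : Prop :=
  ∀ (P : PAtlas X Z Y) Ψ, Dev P Ψ → ∀ k ξ, Lim P Ψ k ξ →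
    DifferentiableOn ℂ ξ (P.B k) ∧ (∀ y ∈ P.B k, Kil (P.g k) ξ y) ∧
    (∀ F f, Basic P F f → ∀ y ∈ P.B k, DifferentiableAt ℝ (f k) y →
      fderiv ℝ (f k) y (ξ y) = 0) ∧
    ∀ ξ', Lim P Ψ k ξ' → ∀ y ∈ P.B k, fderiv ℂ ξ y (ξ' y) = fderiv ℂ ξ' y (ξ y)

/-- existence and transport of the limit fields -/
def LimExStmt : Prop :=
  ∀ (P : PAtlas X Z Y) Ψ, Dev P Ψ →
    (∀ k, ¬ Triv P Ψ k → ∃ ξ, Lim P Ψ k ξ ∧ ∃ y ∈ P.B k, ξ y ≠ 0) ∧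
    ∀ k l γ y y' ξ, Rel P Ψ k l γ y y' → Lim P Ψ k ξ → ∃ ξ', Lim P Ψ l ξ' ∧
      ∀ᶠ w in 𝓝 y, fderiv ℂ (rm P Ψ k l γ) w (ξ w) = ξ' (rm P Ψ k l γ w)

/-- commuting Killing fields with independent jets are independent at some point -/
def RankStmt : Prop :=
  ∀ (g : Y → Bil Y) (O : Set Y) (r : ℕ) (ξ : Fin r → Y → Y), IsOpen O → O.Nonempty →
    (∀ y ∈ O, ∀ u, u ≠ 0 → 0 < g y u u) → (∀ a, DifferentiableOn ℂ (ξ a) O) →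
    (∀ a b, ∀ y ∈ O, fderiv ℂ (ξ a) y (ξ b y) = fderiv ℂ (ξ b) y (ξ a y)) →
    (∀ a, ∀ y ∈ O, Kil g (ξ a) y) →
    (∀ y ∈ O, ∀ c : Fin r → ℝ, ∑ a, c a • ξ a y = 0 →
      (∀ v, ∑ a, c a • fderiv ℂ (ξ a) y v = 0) → c = 0) →
    ∃ y ∈ O, LinearIndependent ℝ fun a => ξ a y

/-- the alternative -/
def KillStmt : Prop :=
  ∀ (P : PAtlas X Z Y) Ψ, Dev P Ψ → (∀ k, Triv P Ψ k) ∨ ∃ r ξ, Fields P Ψ r ξ

/-- the leaves are uniformly compact -/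
def LatStmt : Prop :=
  ∀ (P : PAtlas X Z Y) Ψ, Dev P Ψ → ∀ k, Triv P Ψ k →
    ∃ R, (∀ z, ∃ t, ‖z + t‖ ≤ R ∧ ∀ y ∈ P.B k, Rel P Ψ k k (tr t) y y) ∧
      Submodule.span ℂ {t | ‖t‖ ≤ R ∧ ∀ y ∈ P.B k, Rel P Ψ k k (tr t) y y} = ⊤

/-- existence of the tube -/
def TubeStmt : Prop :=
  ∀ (P : PAtlas X Z Y) Ψ, Dev P Ψ → (∀ k, Triv P Ψ k) → ∀ k₀ (O : Set Y), IsOpen O →
    O.Nonempty → O ⊆ P.B k₀ → ∃ N c y₀ ρ R, closedBall y₀ ρ ⊆ O ∧ Tube P Ψ N c k₀ y₀ ρ R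

end stmts

end

end Pool.Agent.Lib.MP_813db1_ag.HS.E
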