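import Pool.Agent.Lib.MP_813db1_ag.HS.StmtE
import Pool.Agent.Lib.MP_813db1_ag.HS.Calc2
import Pool.Agent.Lib.MP_caab05_ag.GB.Osg

/-! The tube of compact leaves in the language of product covers. -/

namespace Pool.Agent.Lib.MP_813db1_ag.HS

open Complex Matrix Filter Topology Set Metric
open scoped ContDiff ComplexOrder

noncomputable section

namespace TBrAux

section abs

open E

variable {X Z Y : Type} [TopologicalSpace X]
  [NormedAddCommGroup Z] [InnerProductSpace ℂ Z]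
  [NormedAddCommGroup Y] [NormedSpace ℂ Y] [NormedSpace ℝ Y]
  {P : PAtlas X Z Y} {Ψ : P.ι → Z → Y → X} {N : ℕ} {c : P.ι → ℂ} {k₀ : P.ι} {y₀ : Y} {ρ R : ℝ}

variable (Ψ k₀ y₀ ρ) in
/-- the tube -/
def W : Set X := {x | ∃ y, y ∈ ball y₀ ρ ∧ ∃ z, Ψ k₀ z y = x}

variable (Ψ k₀ y₀ ρ) in
open Classical in
/-- the transversal coordinate -/
def Yc (x : X) : Y := if h : x ∈ W Ψ k₀ y₀ ρ then h.choose else y₀

lemma Yc_spec {x : X} (h : x ∈ W Ψ k₀ y₀ ρ) :
    Yc Ψ k₀ y₀ ρ x ∈ ball y₀ ρ ∧ ∃ z, Ψ k₀ z (Yc Ψ k₀ y₀ ρ x) = x := by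
  unfold Yc
  rw [dif_pos h]
  exact h.choose_spec

lemma memB (hT : E.Tube P Ψ N c k₀ y₀ ρ R) {y : Y} (hy : y ∈ ball y₀ ρ) : y ∈ P.B k₀ :=
  hT.sub (ball_subset_closedBall hy)

lemma Yc_psi (hD : Dev P Ψ) (hT : E.Tube P Ψ N c k₀ y₀ ρ R) {y : Y} (hy : y ∈ ball y₀ ρ) (z : Z) :
    Ψ k₀ z y ∈ W Ψ k₀ y₀ ρ ∧ Yc Ψ k₀ y₀ ρ (Ψ k₀ z y) = y := by
  have h : Ψ k₀ z y ∈ W Ψ k₀ y₀ ρ := ⟨y, hy, z, rfl⟩
  obtain ⟨h1, z', h2⟩ := Yc_spec h
  obtain ⟨γ, -, hr⟩ := hD.rel (memB hT hy) (memB hT h1) h2.symm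
  exact ⟨h, hr.uniq hD (hT.fix γ _ hy _ h1 hr _ (memB hT hy))⟩

lemma loc (hD : Dev P Ψ) (hT : E.Tube P Ψ N c k₀ y₀ ρ R) {x : X} {b : P.ι}
    (hx : x ∈ W Ψ k₀ y₀ ρ) (hb : x ∈ (P.e b).source) :
    ∃ γ, ∀ᶠ x' in 𝓝 x, x' ∈ W Ψ k₀ y₀ ρ ∧ x' ∈ (P.e b).source ∧
      Rel P Ψ b k₀ γ (P.e b x').2 (Yc Ψ k₀ y₀ ρ x') := by
  obtain ⟨h1, z, h2⟩ := Yc_spec hx
  obtain ⟨γ, -, hr⟩ := hD.rel (P.of_src hb).2 (memB hT h1) ((hD.psi_src hb).trans h2.symm)
  refine ⟨γ, ?_⟩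
  have hc := ((P.e b).continuousAt hb).snd
  filter_upwards [(P.e b).open_source.mem_nhds hb, hc.eventually (hr.loc hD).2,
    hc.eventually ((hr.tendsto hD).eventually (isOpen_ball.mem_nhds h1))] with x' a1 a2 a3
  have h3 := a2.2.2 (P.e b x').1
  rw [hD.psi_src a1] at h3
  have h4 := Yc_psi hD hT a3 (γ (P.e b x').1)
  rw [h3] at h4
  exact ⟨h4.1, a1, by rw [h4.2]; exact a2⟩

lemma W_open (hD : Dev P Ψ) (hT : E.Tube P Ψ N c k₀ y₀ ρ R) : IsOpen (W Ψ k₀ y₀ ρ) := by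
  refine isOpen_iff_mem_nhds.2 fun x hx => ?_
  obtain ⟨b, hb⟩ := P.cover x
  obtain ⟨γ, h⟩ := loc hD hT hx hb
  exact h.mono fun _ h' => h'.1

lemma rm_uniq (hD : Dev P Ψ) (hT : E.Tube P Ψ N c k₀ y₀ ρ R) {b : P.ι} {γ γ' : Mot Z} {y v : Y}
    (hv : v ∈ ball y₀ ρ) (h : Rel P Ψ b k₀ γ y v) (h' : Rel P Ψ b k₀ γ' y v) :
    rm P Ψ b k₀ γ' =ᶠ[𝓝 y] rm P Ψ b k₀ γ := by
  have hf := hT.fix _ _ hv _ hv (h.symm.trans h')
  filter_upwards [(h.loc hD).2] with w hw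
  have := hw.trans (hf _ hw.2.1)
  rw [inv_mul_cancel_right] at this
  exact this.rm_eq hD

lemma rm_comp (hD : Dev P Ψ) {k l m : P.ι} {γ δ : Mot Z} {y y' y'' : Y}
    (h : Rel P Ψ k l γ y y') (h' : Rel P Ψ l m δ y' y'') :
    rm P Ψ k m (δ * γ) =ᶠ[𝓝 y] rm P Ψ l m δ ∘ rm P Ψ k l γ := by
  filter_upwards [(h.loc hD).2, (h.tendsto hD).eventually (h'.loc hD).2] with w a b
  exact (a.trans b).rm_eq hD

lemma cpt [T2Space X] [FiniteDimensional ℂ Z] (hD : Dev P Ψ) (hT : E.Tube P Ψ N c k₀ y₀ ρ R)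
    {K : Set Y} (hK : IsCompact K) (hs : K ⊆ ball y₀ ρ) :
    IsClosed {x | x ∈ W Ψ k₀ y₀ ρ ∧ Yc Ψ k₀ y₀ ρ x ∈ K} := by
  have : ProperSpace Z := FiniteDimensional.proper ℂ Z
  have e : {x | x ∈ W Ψ k₀ y₀ ρ ∧ Yc Ψ k₀ y₀ ρ x ∈ K} =
      (fun p : Z × Y => Ψ k₀ p.1 p.2) '' (closedBall 0 R ×ˢ K) := by
    ext x
    constructor
    · rintro ⟨h1, h2⟩
      obtain ⟨h3, z, h4⟩ := Yc_spec h1
      obtain ⟨z', h5, h6⟩ := hT.cpt z
      exact ⟨(z', _), ⟨mem_closedBall_zero_iff.2 h5, h2⟩, (h6 _ (memB hT h3)).trans h4⟩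
    · rintro ⟨p, hp, rfl⟩
      have := Yc_psi hD hT (hs hp.2) p.1
      exact ⟨this.1, by rw [this.2]; exact hp.2⟩
  rw [e]
  exact (((isCompact_closedBall 0 R).prod hK).image_of_continuousOn
    ((hD.cont k₀).mono fun p hp => ⟨mem_univ _, memB hT (hs hp.2)⟩)).isClosed

lemma nrm_det [FiniteDimensional ℂ Z] (γ : Mot Z) : ‖(lin γ).det‖ = 1 := by
  have := γ.linearIsometryEquiv.toLinearIsometry.normDet_eq_one
  rw [LinearMap.normDet_eq_norm_det] at this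
  exact this

lemma an [FiniteDimensional ℂ Y] {g g' : Y → Bil Y} {φ : Y → Y} {y : Y} (h : LIso g g' φ y) :
    AnalyticAt ℂ φ y := by
  have : CompleteSpace Y := FiniteDimensional.complete ℂ Y
  obtain ⟨r, hr, hb⟩ := Metric.eventually_nhds_iff_ball.1 h
  exact MP_caab05_ag.GB.osg Y Y φ (ball y r) isOpen_ball
    (fun w hw => (hb w hw).1.differentiableWithinAt) y (mem_ball_self hr)

end abs

variable {ι X : Type} [Fintype ι] [DecidableEq ι] [TopologicalSpace X]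

lemma det_jac (Θ : V ι → V ι) (w : V ι) : (jac Θ w).det = (fderiv ℂ Θ w).det := by
  have e : jac Θ w = LinearMap.toMatrix' (fderiv ℂ Θ w : V ι →ₗ[ℂ] V ι) := by
    ext p i
    simp [jac, LinearMap.toMatrix'_apply]
  rw [e, LinearMap.det_toMatrix']

omit [DecidableEq ι] in
lemma ipV_pull (J H : Mat ι) (v w : V ι) : ipV (pull J H) v w = ipV H (J *ᵥ v) (J *ᵥ w) := by
  simp only [ipV, pull, Matrix.mul_apply, Matrix.transpose_apply, Matrix.map_apply, Matrix.mulVec,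
    dotProduct, star_sum, star_mul', Finset.sum_mul, Finset.mul_sum]
  calc _ = ∑ i, ∑ j, ∑ q, ∑ p, J p i * H p q * star (J q j) * v i * star (w j) := rfl
    _ = ∑ p, ∑ q, ∑ j, ∑ i, J p i * H p q * star (J q j) * v i * star (w j) := by
      simp only [← Finset.sum_product']
      refine Finset.sum_nbij' (fun x => (x.2.2.2, x.2.2.1, x.2.1, x.1))
        (fun x => (x.2.2.2, x.2.2.1, x.2.1, x.1)) ?_ ?_ ?_ ?_ ?_ <;> simp
    _ = _ := by
      refine Finset.sum_congr rfl fun p _ => Finset.sum_congr rfl fun q _ =>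
        Finset.sum_congr rfl fun j _ => Finset.sum_congr rfl fun i _ => by ring

lemma eq_of_re {A B : Mat ι} (h : ∀ u v, (ipV A u v).re = (ipV B u v).re) : A = B := by
  ext i j
  have e : ∀ (H : Mat ι) (c : ℂ), ipV H (Pi.single i c) (Pi.single j 1) = H i j * c := by
    intro H c
    simp [ipV, Pi.single_apply]
  have h1 := h (Pi.single i 1) (Pi.single j 1)
  have h2 := h (Pi.single i I) (Pi.single j 1)
  rw [e, e] at h1 h2
  apply Complex.ext <;> simp at h1 h2 <;> assumption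

lemma pull_of_liso {G G' : V ι → Mat ι} {φ : V ι → V ι} {y : V ι}
    (h : E.LIso (fun w => rb (G w)) (fun w => rb (G' w)) φ y) :
    G y = pull (jac φ y) (G' (φ y)) := by
  refine eq_of_re fun u v => ?_
  rw [ipV_pull, jac_mulVec, jac_mulVec, ← rb_apply, ← rb_apply]
  exact (h.iso u v).symm

variable {M : Atl ι X} (C : Cov M) (s : Finset ι)

lemma det_tj {a b : Fin C.n} {x : X} (ha : x ∈ (C.e a).source) {γ : E.Mot (ZZ s)}
    {φ : YY s → YY s} (hφ : DifferentiableAt ℂ φ (yp s (C.e a x)))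
    (h : ∀ᶠ x' in 𝓝 x, C.pch s b x' = (γ (C.pch s a x').1, φ (C.pch s a x').2)) :
    (tj (C.e a) (C.e b) x).det = (E.lin γ).det * (jac φ (yp s (C.e a x))).det := by
  have h1 : (C.e b ∘ (C.e a).symm) =ᶠ[𝓝 (C.e a x)]
      (split s).symm ∘ (Prod.map (fun z => γ z) φ) ∘ split s := by
    have hc : Tendsto (C.e a).symm (𝓝 (C.e a x)) (𝓝 x) := by
      have := (C.e a).continuousAt_symm ((C.e a).map_source ha)
      rwa [ContinuousAt, (C.e a).left_inv ha] at this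
    filter_upwards [hc.eventually h,
      (C.e a).open_target.mem_nhds ((C.e a).map_source ha)] with w hw hw'
    have e1 : C.pch s a ((C.e a).symm w) = split s w := by
      rw [C.pch_apply, (C.e a).right_inv hw']; rfl
    rw [e1] at hw
    have e2 : split s (C.e b ((C.e a).symm w)) = Prod.map (fun z => γ z) φ (split s w) := hw
    simp only [Function.comp_apply]
    rw [← e2, ContinuousLinearEquiv.symm_apply_apply]
  have hd : HasFDerivAt (fun z => γ z) (E.lin γ) (split s (C.e a x)).1 := by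
    have : (fun ζ => γ ζ) = fun ζ => E.lin γ ζ + γ 0 := funext (E.mot_eq γ)
    rw [this]
    exact (E.lin γ).hasFDerivAt.add_const _
  have h2 := (split s).symm.hasFDerivAt.comp (C.e a x)
    ((HasFDerivAt.prodMap (split s (C.e a x)) hd hφ.hasFDerivAt).comp (C.e a x)
      (split s).hasFDerivAt)
  rw [tj, det_jac, h1.fderiv_eq, h2.fderiv, det_jac]
  have h3 := LinearMap.det_conj (LinearMap.prodMap (E.lin γ : ZZ s →ₗ[ℂ] ZZ s)
    (fderiv ℂ φ (yp s (C.e a x)) : YY s →ₗ[ℂ] YY s)) (split s).symm.toLinearEquiv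
  rw [LinearMap.det_prodMap] at h3
  exact h3

lemma basic (hR : RowsS) {g : X → Mat ι} (h : C.PData s g) {u : X → ℝ} (hu : M.Ck 1 u)
    (hb : C.BasL s (fn u)) :
    E.Basic (C.pa s h) u fun a y => u ((C.e a).symm (glue s 0 y)) := by
  intro (a : Fin C.n) z hz y hy
  have hw : glue s (WithLp.ofLp z) y ∈ ball (0 : V ι) (4 * C.r a) := by
    have := (norm_glue_lt s (C.r3 a) _ _).2 ⟨hz, mem_ball_zero_iff.1 hy⟩
    have := C.pos a
    rw [mem_ball_zero_iff]; linarith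
  have := hR.const ι s (4 * C.r a) (fn u (C.e a)) (fun w hw => ⟨(hu _ (C.mem a) w
    (C.ball_sub a le_rfl hw)).differentiableAt one_ne_zero, hb a w hw⟩) _ hw
  rw [yp_glue] at this
  exact Complex.ofReal_injective this

end TBrAux

open TBrAux

theorem tbrS (hA : RepA) (hR : RowsS) : TBrS := by
  intro ι X _ _ _ _ M g C s h Ψ N c a0 y1 δ R _ _ hD hT hsub
  have hA := hA ι X M
  obtain ⟨bx, hbx⟩ : ∃ bx : X → Fin C.n, ∀ x, x ∈ ((C.pa s h).e (bx x)).source := by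
    choose bx hbx using (C.pa s h).cover
    exact ⟨bx, hbx⟩
  obtain ⟨G, hG⟩ : ∃ G : X → E.Mot (ZZ s), ∀ x ∈ W (P := C.pa s h) Ψ a0 y1 δ,
      E.Rel (C.pa s h) Ψ (bx x) a0 (G x) (yp s (C.e (bx x) x))
        (Yc (P := C.pa s h) Ψ a0 y1 δ x) := by
    have : ∀ x, ∃ γ : E.Mot (ZZ s), x ∈ W (P := C.pa s h) Ψ a0 y1 δ →
        E.Rel (C.pa s h) Ψ (bx x) a0 γ (yp s (C.e (bx x) x))
          (Yc (P := C.pa s h) Ψ a0 y1 δ x) := fun x => by
      by_cases hx : x ∈ W (P := C.pa s h) Ψ a0 y1 δ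
      · obtain ⟨γ, hγ⟩ := loc hD hT hx (hbx x)
        exact ⟨γ, fun _ => hγ.self_of_nhds.2.2⟩
      · exact ⟨1, fun h' => (hx h').elim⟩
    choose G hG using this
    exact ⟨G, hG⟩
  let mu : ℕ → X → ℂ := fun a x => (tj (M.ch x) (C.e (bx x)) x).det ^ a *
    ((c a0 / c (bx x)) ^ (a / N) *
      (jac (E.rm (C.pa s h) Ψ (bx x) a0 (G x)) (yp s (C.e (bx x) x))).det ^ a)
  refine ⟨W (P := C.pa s h) Ψ a0 y1 δ, Yc (P := C.pa s h) Ψ a0 y1 δ, mu, hT.N_pos, hT.ρ_pos,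
    ball_subset_closedBall.trans hsub, W_open hD hT, fun x hx => (Yc_spec hx).1, ?_,
    fun K hK hs => cpt hD hT hK hs, ?_⟩
  · intro b x hx hxb hn
    have hb : x ∈ (C.pch s b).source := (C.mem_pch s b x).2 ⟨hxb, by have := C.pos b; linarith⟩
    obtain ⟨γ, hγ⟩ := loc (b := b) hD hT hx hb
    have hr : E.Rel (C.pa s h) Ψ b a0 γ (yp s (C.e b x)) _ := hγ.self_of_nhds.2.2
    refine ⟨E.rm (C.pa s h) Ψ b a0 γ, an (hr.liso hD), ?_,
      hγ.mono fun x' h' => (h'.2.2.rm_eq hD).symm, fun a ha => ?_⟩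
    · filter_upwards [(hr.liso hD).eventually, (hr.loc hD).2] with w h1 h2
      exact ⟨pull_of_liso h1, fun u hu hb => (basic C s hR h hu hb).rel hD h2⟩
    · obtain ⟨q, rfl⟩ := ha
      have hq : N * q / N = q := Nat.mul_div_cancel_left q hT.N_pos
      refine ⟨(c a0 / c b) ^ q, ?_, ?_⟩
      · rw [hT.c_rel _ _ _ _ _ hr, mul_div_assoc, div_self (hT.c_ne b), mul_one, norm_pow,
          norm_pow, nrm_det, one_pow, one_pow]
      · filter_upwards [hγ] with x' ⟨h1, h2, h3⟩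
        have h2' := ((C.mem_pch s b x').1 h2).1
        have h4 := ((C.mem_pch s _ x').1 (hbx x')).1
        obtain ⟨ε, h5, h6⟩ := E.Dev.ofTrans (P := C.pa s h) hD h2 (hbx x')
        have h7 := det_tj C s h2' (h5.liso hD).diff h6
        have h8 := hG x' h1
        have h9 : jac (E.rm (C.pa s h) Ψ b a0 γ) (yp s (C.e b x')) =
            jac (E.rm (C.pa s h) Ψ (bx x') a0 (G x')) (yp s (C.e (bx x') x')) *
              jac (E.rm (C.pa s h) Ψ b (bx x') ε) (yp s (C.e b x')) := by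
          have e1 := rm_uniq hD hT (Yc_spec h1).1 (h5.trans h8) h3
          have e2 := rm_comp hD h5 h8
          have e3 : E.rm (C.pa s h) Ψ b (bx x') ε (yp s (C.e b x')) = yp s (C.e (bx x') x') :=
            h5.rm_eq hD
          have d1 : DifferentiableAt ℂ (E.rm (C.pa s h) Ψ b (bx x') ε) (yp s (C.e b x')) :=
            (h5.liso hD).diff
          have d2 : DifferentiableAt ℂ (E.rm (C.pa s h) Ψ (bx x') a0 (G x'))
              (E.rm (C.pa s h) Ψ b (bx x') ε (yp s (C.e b x'))) := by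
            rw [e3]; exact (h8.liso hD).diff
          have e4 := jac_comp d2 d1
          rw [e3] at e4
          exact (jac_congr (e1.trans e2)).trans e4
        have h10 := hT.c_rel _ _ _ _ _ h5
        have h11 : (E.lin ε).det ≠ 0 := norm_ne_zero_iff.1 (by rw [nrm_det]; exact one_ne_zero)
        have h12 := hT.c_ne b
        have h13 := hA.tj_mul _ (C.mem b) _ (M.ch_mem x') _ (C.mem (bx x')) x' h2' (M.mem x') h4
        have h14 : c a0 / c b = (E.lin ε).det ^ N * (c a0 / c (bx x')) := by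
          rw [h10]; field_simp
        rw [Atl.rep, (C.e b).left_inv h2']
        simp only [mu]
        rw [← mul_assoc, ← mul_pow, mul_comm (tj (C.e b) (M.ch x') x').det, ← Matrix.det_mul,
          ← h13, h7, h9, Matrix.det_mul, hq, h14]
        simp only [mul_pow, pow_mul]
        ring
  · intro z y hz hy
    have h1 := Yc_psi hD hT hy (WithLp.toLp 2 z)
    rw [hD.box a0 _ (show ‖z‖ < 3 * C.r a0 by have := C.pos a0; linarith) _ (memB hT hy)] at h1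
    exact h1

end

end Pool.Agent.Lib.MP_813db1_ag.HS
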