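import Pool.Agent.Lib.MP_813db1_ag.HS.E.Basic

/-! Recurrence by translations and uniform compactness of the leaves. -/

namespace Pool.Agent.Lib.MP_813db1_ag.HS.E

open Set Filter Topology Metric

variable {X Z Y : Type} [TopologicalSpace X]
  [NormedAddCommGroup Z] [InnerProductSpace ℂ Z]
  [NormedAddCommGroup Y] [NormedSpace ℂ Y] [NormedSpace ℝ Y]

theorem trans (hF : FinStmt X Z Y) (hR : RecStmt X Z Y) (hC : CommStmt X Z Y)
    (hB : BuserStmt Z) : TransStmt X Z Y := by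
  intro P Ψ hD k u hu ε hε
  obtain ⟨η, hη, hη', hc⟩ := hC P Ψ hD k
  have hr := P.yr_pos k
  have key := hB {γ | Sm P Ψ k (P.yc k) (P.yr k / 2) η γ} (fun α hα β hβ => hc α β hα hβ)
    (fun T => (hF P Ψ hD k (3 * P.yr k / 4) T (by linarith)).subset fun γ hγ => by
      obtain ⟨y', h1, h2⟩ := hγ.1 (P.yc k) (mem_ball_self (by linarith))
      exact ⟨hγ.2, P.yc k, mem_closedBall_self (by linarith), y',
        mem_closedBall_iff_norm.2 (by linarith), h1⟩)
    (fun v hv δ hδ => by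
      obtain ⟨γ, h1, h2, h3, h4⟩ := hR P Ψ hD k v hv (min δ η) (lt_min hδ hη)
      exact ⟨γ, fun y hy => (h1 y hy).imp fun y' h => ⟨h.1, h.2.trans (min_le_right _ _)⟩,
        h2.trans (min_le_left _ _), h3, h4.trans (min_le_left _ _)⟩)
  obtain ⟨γ, h1, h2, h3, h4⟩ := hR P Ψ hD k u hu (min ε (min η (1 / 2)))
    (lt_min hε (lt_min hη (by norm_num)))
  have h5 := eq_tr (key γ (fun y hy => (h1 y hy).imp fun y' h =>
    ⟨h.1, h.2.trans ((min_le_right _ _).trans (min_le_left _ _))⟩)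
    (h2.trans ((min_le_right _ _).trans (min_le_right _ _))))
  refine ⟨γ 0, ?_, h3, h4.trans (min_le_left _ _)⟩
  rw [← h5]
  exact fun y hy => (h1 y hy).imp fun y' h => ⟨h.1, h.2.trans (min_le_left _ _)⟩

theorem lat [FiniteDimensional ℂ Z] (hT : TransStmt X Z Y) : LatStmt X Z Y := by
  intro P Ψ hD k ⟨η, hη, hk⟩
  let Λ : AddSubgroup Z :=
    { carrier := {t | ∀ y ∈ P.B k, Rel P Ψ k k (tr t) y y}
      zero_mem' := fun y hy => by
        rw [tr_zero]
        exact Rel.refl hy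
      add_mem' := fun ha hb y hy => by
        rw [tr_add]
        exact (hb y hy).trans (ha y hy)
      neg_mem' := fun ha y hy => by
        rw [tr_neg]
        exact (ha y hy).symm }
  have h1 : ∀ u : Z, ‖u‖ = 1 → u ∈ Submodule.span ℝ (Λ : Set Z) := fun u hu => by
    refine (Submodule.closed_of_finiteDimensional _).closure_subset
      (Metric.mem_closure_iff.2 fun ε hε => ?_)
    obtain ⟨t, h2, -, h3⟩ := hT P Ψ hD k u hu (min η (ε / 2)) (lt_min hη (half_pos hε))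
    have h4 : t ∈ Λ :=
      hk t fun y hy => (h2 y hy).imp fun y' h => ⟨h.1, h.2.trans (min_le_left _ _)⟩
    refine ⟨‖t‖⁻¹ • t, Submodule.smul_mem _ _ (Submodule.subset_span h4), ?_⟩
    rw [dist_comm, dist_eq_norm, ← Complex.coe_smul]
    exact (h3.trans (min_le_right _ _)).trans_lt (half_lt_self hε)
  have h2 : ∀ z : Z, z ∈ Submodule.span ℝ (Λ : Set Z) := fun z => by
    by_cases hz : z = 0
    · rw [hz]
      exact zero_mem _
    · have h3 := Submodule.smul_mem _ ‖z‖ (h1 (‖z‖⁻¹ • z) (norm_smul_inv_norm hz))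
      rwa [smul_inv_smul₀ (norm_ne_zero_iff.2 hz)] at h3
  obtain ⟨b, hb, hs, hl⟩ := exists_linearIndependent ℝ (Λ : Set Z)
  obtain ⟨s, rfl⟩ := hl.setFinite.exists_finset_coe
  have h3 : ∀ z : Z, ∃ f : Z → ℝ, ∑ a ∈ s, f a • a = z := fun z => by
    have h4 := h2 z
    rw [← hs] at h4
    obtain ⟨f, -, hf⟩ := Submodule.mem_span_finset.1 h4
    exact ⟨f, hf⟩
  refine ⟨∑ a ∈ s, ‖a‖, fun z => ?_, eq_top_iff.2 fun z _ => ?_⟩
  · obtain ⟨f, rfl⟩ := h3 z
    refine ⟨-∑ a ∈ s, ⌊f a⌋ • a, ?_,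
      (neg_mem (sum_mem fun a ha => zsmul_mem (hb ha) _) : _ ∈ Λ)⟩
    rw [← sub_eq_add_neg, ← Finset.sum_sub_distrib]
    refine (norm_sum_le _ _).trans (Finset.sum_le_sum fun a _ => ?_)
    rw [← Int.cast_smul_eq_zsmul ℝ, ← sub_smul, norm_smul, Int.self_sub_floor,
      Real.norm_of_nonneg (Int.fract_nonneg _)]
    exact mul_le_of_le_one_left (norm_nonneg _) (Int.fract_lt_one _).le
  · obtain ⟨f, rfl⟩ := h3 z
    refine sum_mem fun a ha => ?_
    rw [← Complex.coe_smul]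
    exact Submodule.smul_mem _ _ (Submodule.subset_span
      ⟨Finset.single_le_sum (f := fun a => ‖a‖) (fun _ _ => norm_nonneg _) ha, hb ha⟩)

end Pool.Agent.Lib.MP_813db1_ag.HS.E
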